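import Pool.Agent.Helper6.SG.Stm

set_option autoImplicit false

open Complex Metric Set Filter Topology

namespace Pool.Agent.Helper6.SG.ORD

/-- division by the first `N` zeros -/
theorem fac (H : ℂ → ℂ) (hd : Differentiable ℂ H) (h0 : ∀ n : ℕ, H n = 0) (N : ℕ) :
    ∃ G : ℂ → ℂ, Differentiable ℂ G ∧ ∀ s, H s = (∏ n ∈ Finset.range N, (s - n)) * G s := by
  induction N with
  | zero => exact ⟨H, hd, fun s => by simp⟩
  | succ N ih =>
    obtain ⟨G, hG, hs⟩ := ih
    have h1 : G N = 0 := by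
      have h2 := hs N
      rw [h0 N] at h2
      have h3 : (∏ n ∈ Finset.range N, ((N : ℂ) - n)) ≠ 0 := by
        refine Finset.prod_ne_zero_iff.2 fun n hn => ?_
        rw [sub_ne_zero]
        have : n < N := Finset.mem_range.1 hn
        exact_mod_cast this.ne'
      exact (mul_eq_zero.1 h2.symm).resolve_left h3
    refine ⟨dslope G N, ?_, fun s => ?_⟩
    · rw [← differentiableOn_univ]
      exact (Complex.differentiableOn_dslope univ_mem).2 hG.differentiableOn
    · have h4 := sub_smul_dslope G (N : ℂ) s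
      rw [h1, sub_zero, smul_eq_mul] at h4
      rw [hs s, Finset.prod_range_succ, mul_assoc, h4]

theorem bd (H : ℂ → ℂ) (C c : ℝ) (hd : Differentiable ℂ H)
    (hC : ∀ s, ‖H s‖ ≤ C * Real.exp (c * Real.sqrt (1 + ‖s‖))) (h0 : ∀ n : ℕ, H n = 0)
    (s0 : ℂ) (N : ℕ) (hN : 1 ≤ N) (hs0 : ‖s0‖ ≤ N) :
    ‖H s0‖ ≤ C * Real.exp (c * Real.sqrt (1 + 4 * N)) * (2 / 3) ^ N := by
  obtain ⟨G, hG, hs⟩ := fac H hd h0 N
  have hN0 : (0 : ℝ) < N := by exact_mod_cast hN
  have h1 : ∀ z ∈ frontier (ball (0 : ℂ) (4 * N)),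
      ‖G z‖ ≤ C * Real.exp (c * Real.sqrt (1 + 4 * N)) / (3 * N) ^ N := by
    intro z hz
    rw [frontier_ball _ (by positivity), mem_sphere_zero_iff_norm] at hz
    have h2 := hC z
    rw [hz, hs z, norm_mul, norm_prod] at h2
    have h3 : (3 * (N : ℝ)) ^ N ≤ ∏ n ∈ Finset.range N, ‖z - n‖ := by
      calc (3 * (N : ℝ)) ^ N = ∏ _n ∈ Finset.range N, (3 * (N : ℝ)) := by
            rw [Finset.prod_const, Finset.card_range]
        _ ≤ _ := by
            refine Finset.prod_le_prod (fun _ _ => by positivity) fun n hn => ?_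
            have h4 : (n : ℝ) ≤ N := by exact_mod_cast (Finset.mem_range.1 hn).le
            have h5 : ‖z‖ - ‖(n : ℂ)‖ ≤ ‖z - n‖ := norm_sub_norm_le _ _
            rw [Complex.norm_natCast, hz] at h5
            linarith
    rw [le_div_iff₀ (by positivity)]
    refine le_trans ?_ h2
    rw [mul_comm]
    exact mul_le_mul_of_nonneg_right h3 (norm_nonneg _)
  have h6 : ‖G s0‖ ≤ C * Real.exp (c * Real.sqrt (1 + 4 * N)) / (3 * N) ^ N := by
    refine Complex.norm_le_of_forall_mem_frontier_norm_le isBounded_ball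
      hG.diffContOnCl h1 (subset_closure ?_)
    rw [mem_ball_zero_iff]
    linarith
  have h7 : ∏ n ∈ Finset.range N, ‖s0 - n‖ ≤ (2 * (N : ℝ)) ^ N := by
    calc ∏ n ∈ Finset.range N, ‖s0 - n‖ ≤ ∏ _n ∈ Finset.range N, (2 * (N : ℝ)) := by
          refine Finset.prod_le_prod (fun _ _ => norm_nonneg _) fun n hn => ?_
          have h4 : (n : ℝ) ≤ N := by exact_mod_cast (Finset.mem_range.1 hn).le
          have h5 : ‖s0 - n‖ ≤ ‖s0‖ + ‖(n : ℂ)‖ := norm_sub_le _ _
          rw [Complex.norm_natCast] at h5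
          linarith
      _ = _ := by rw [Finset.prod_const, Finset.card_range]
  rw [hs s0, norm_mul, norm_prod]
  refine (mul_le_mul h7 h6 (norm_nonneg _) (by positivity)).trans (le_of_eq ?_)
  rw [mul_pow, mul_pow, div_pow]
  have h8 : (N : ℝ) ^ N ≠ 0 := by positivity
  field_simp

theorem main : S_ORD := by
  intro H C c hd hC0 hc0 hC h0 s0
  obtain ⟨L, hL⟩ : ∃ L : ℝ, L = Real.log (3 / 2) := ⟨_, rfl⟩
  have hL0 : 0 < L := by
    rw [hL]
    exact Real.log_pos (by norm_num)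
  have hq : Real.exp (-L) = 2 / 3 := by
    rw [Real.exp_neg, hL, Real.exp_log (by norm_num)]
    norm_num
  have key : ∀ N : ℕ, c * Real.sqrt (1 + 4 * N) - N * L ≤ (L / 8 + 2 * c ^ 2 / L) - N * (L / 2) := by
    intro N
    obtain ⟨t, ht⟩ : ∃ t : ℝ, t = Real.sqrt (1 + 4 * N) := ⟨_, rfl⟩
    have h1 : t ^ 2 = 1 + 4 * N := by
      rw [ht]
      exact Real.sq_sqrt (by positivity)
    rw [← ht]
    have h2 : 0 ≤ L / 8 * (t - 4 * c / L) ^ 2 := by positivity
    have h3 : L / 8 * (t - 4 * c / L) ^ 2 = L / 8 * t ^ 2 - c * t + 2 * c ^ 2 / L := by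
      field_simp
      ring
    rw [h3, h1] at h2
    linarith
  have hb : ∀ᶠ N : ℕ in atTop, ‖H s0‖ ≤ C * Real.exp (L / 8 + 2 * c ^ 2 / L) *
      Real.exp (-(L / 2)) ^ N := by
    filter_upwards [eventually_ge_atTop (max 1 ⌈‖s0‖⌉₊)] with N hN
    have h1 : 1 ≤ N := (le_max_left _ _).trans hN
    have h2 : ‖s0‖ ≤ N := (Nat.le_ceil _).trans (by exact_mod_cast (le_max_right _ _).trans hN)
    refine (bd H C c hd hC h0 s0 N h1 h2).trans ?_
    rw [← hq, ← Real.exp_nat_mul, ← Real.exp_nat_mul, mul_assoc, mul_assoc, ← Real.exp_add,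
      ← Real.exp_add]
    refine mul_le_mul_of_nonneg_left (Real.exp_le_exp.2 ?_) hC0
    have := key N
    linarith
  have hlim : Tendsto (fun N : ℕ => C * Real.exp (L / 8 + 2 * c ^ 2 / L) *
      Real.exp (-(L / 2)) ^ N) atTop (𝓝 (C * Real.exp (L / 8 + 2 * c ^ 2 / L) * 0)) := by
    refine (tendsto_pow_atTop_nhds_zero_of_lt_one (Real.exp_pos _).le ?_).const_mul _
    rw [Real.exp_lt_one_iff]
    linarith
  rw [mul_zero] at hlim
  exact norm_le_zero_iff.1 (ge_of_tendsto hlim hb)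

end Pool.Agent.Helper6.SG.ORD
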