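import Pool.Agent.Helper6.SG.Pk2
import Pool.Agent.Helper6.SG.ORD

/-!
# The core: linear families of branches do not occur
-/

set_option autoImplicit false

open Complex MeasureTheory Metric Set Filter Topology

namespace Pool.Agent.Helper6.SG

open Pool.Agent.E8helper32.SA (per per_re)
open Pool.Agent.E8helper32.SP (OP)
open Pool.Agent.E8helper32.SQ (Kf HP HP_open HP_conv kop)
open Pool.Agent.Helper6.SF (zeros_countable HP_per iter_per)

variable {a Λ : ℝ} {T U f g F K1 : ℂ → ℂ} {σ : ℂ} {p κ c : ℂ} {N : ℕ}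

theorem ln_nat (σ : ℂ) (n : ℕ) : ln σ n = σ + per n := by
  unfold ln per
  push_cast
  ring

theorem ln_inj (σ : ℂ) : Function.Injective fun t : ℝ => ln σ t := by
  intro s t hst
  have h1 : (s : ℂ) * (2 * Real.pi * I) = t * (2 * Real.pi * I) := by
    unfold ln at hst
    exact add_left_cancel hst
  have h2 := mul_right_cancel₀ two_pi_I_ne_zero h1
  exact_mod_cast h2

/-- zeros on all vertical lines -/
theorem lines_zero (hF : DifferentiableOn ℂ F (HP Λ))
    (h : ∀ r : ℝ, r < Λ → ∃ σ ∈ HP Λ, σ.re = r ∧ F σ = 0) : ∀ σ ∈ HP Λ, F σ = 0 := by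
  by_contra hcon
  push Not at hcon
  have h1 := zeros_countable (HP_open Λ) (HP_conv Λ).isPreconnected hF hcon
  have h2 : (Iio Λ).Countable := by
    refine (h1.image re).mono fun r hr => ?_
    obtain ⟨σ, h3, h4, h5⟩ := h r hr
    exact ⟨σ, ⟨h3, h5⟩, h4⟩
  have h3 := h2.measure_zero volume
  rw [Real.volume_Iio] at h3
  exact ENNReal.top_ne_zero h3

theorem null_of (hU : DifferentiableOn ℂ U (HP Λ)) (hne : ∃ z ∈ HP Λ, U z ≠ p) (hσ : σ ∈ HP Λ) :
    volume {t : ℝ | U (ln σ t) = p} = 0 := by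
  have h1 := zeros_countable (HP_open Λ) (HP_conv Λ).isPreconnected (hU.sub_const p) (by
    obtain ⟨z, h1, h2⟩ := hne
    exact ⟨z, h1, sub_ne_zero.2 h2⟩)
  have h2 := (h1.preimage (ln_inj σ)).measure_zero volume
  refine measure_mono_null (fun t ht => ?_) h2
  exact ⟨ln_mem hσ t, sub_eq_zero.2 ht⟩

/-- the bounded case -/
theorem bdd_case (hk : KD a K1) (hT : DifferentiableOn ℂ T (HP Λ))
    (hU : DifferentiableOn ℂ U (HP Λ)) (h : Zf a Λ T U fun _ => 1) (hN : 0 < N) (hκ : ‖κ‖ = 1)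
    (hrel : ∀ z ∈ HP Λ, U (z + per N) = κ * U z) :
    (∃ b, ∀ z ∈ HP Λ, U z = b) ∨ ((∀ z ∈ HP Λ, U (z + 2 * Real.pi * I) = U z) ∧
      ∀ z ∈ HP Λ, T (z + 2 * Real.pi * I) = T z) := by
  by_cases hc : ∃ b, ∀ z ∈ HP Λ, U z = b
  · exact Or.inl hc
  push Not at hc
  right
  have hmax : ∀ r : ℝ, r < Λ → ∃ σ ∈ HP Λ, σ.re = r ∧ U σ ≠ 0 ∧
      ∀ t : ℝ, ‖U (ln σ t)‖ ≤ ‖U σ‖ := by
    intro r hr
    have hσr : (r : ℂ) ∈ HP Λ := by
      show ((r : ℂ)).re < Λ
      rwa [ofReal_re]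
    have hcont : Continuous fun t : ℝ => ‖U (ln (r : ℂ) t)‖ := (comp_ln2 hU.continuousOn hσr).norm
    have hper : Function.Periodic (fun t : ℝ => ‖U (ln (r : ℂ) t)‖) (N : ℝ) := by
      intro t
      have e : ln (r : ℂ) (t + N) = ln (r : ℂ) t + per N := by
        rw [← ln_nat, ln_add]
      show ‖U (ln (r : ℂ) (t + N))‖ = ‖U (ln (r : ℂ) t)‖
      rw [e, hrel _ (ln_mem hσr t), norm_mul, hκ, one_mul]
    have hcomp := hper.compact_of_continuous (by exact_mod_cast hN.ne') hcont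
    obtain ⟨x, ⟨t0, rfl⟩, hx⟩ := hcomp.exists_isGreatest (range_nonempty _)
    have hle : ∀ t : ℝ, ‖U (ln (r : ℂ) t)‖ ≤ ‖U (ln (r : ℂ) t0)‖ := fun t => hx ⟨t, rfl⟩
    refine ⟨ln r t0, ln_mem hσr t0, by rw [ln_re, ofReal_re], ?_, fun t => ?_⟩
    · intro h0
      have h1 : {t : ℝ | U (ln (r : ℂ) t) = 0} = univ := by
        ext t
        simp only [mem_setOf_eq, mem_univ, iff_true]
        have := hle t
        rw [h0, norm_zero] at this
        exact norm_le_zero_iff.1 this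
      have h2 := null_of hU (hc 0) hσr
      rw [h1, Real.volume_univ] at h2
      exact ENNReal.top_ne_zero h2
    · rw [ln_add]
      exact hle _
  have hnull : ∀ σ ∈ HP Λ, volume {t | t ∈ Icc (0 : ℝ) 1 ∧ U (ln σ t) = U σ} = 0 := fun σ hσ =>
    measure_mono_null (fun t ht => ht.2) (null_of hU (hc (U σ)) hσ)
  have hone : ∀ z ∈ HP Λ, z + 2 * Real.pi * I ∈ HP Λ := fun z hz => by
    rw [← ln_one]
    exact ln_mem hz 1
  have hUs : DifferentiableOn ℂ (fun z => U (z + 2 * Real.pi * I)) (HP Λ) :=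
    hU.comp (differentiableOn_id.add_const _) hone
  have hTs : DifferentiableOn ℂ (fun z => T (z + 2 * Real.pi * I)) (HP Λ) :=
    hT.comp (differentiableOn_id.add_const _) hone
  have hp1 : ∀ z ∈ HP Λ, U (z + 2 * Real.pi * I) = U z := by
    have h1 := lines_zero (F := fun z => U (z + 2 * Real.pi * I) - U z) (hUs.sub hU) (by
      intro r hr
      obtain ⟨σ, h1, h2, h3, h4⟩ := hmax r hr
      refine ⟨σ, h1, h2, ?_⟩
      exact sub_eq_zero.2 ((peak1 hk hT hU h h1 h3 (fun t _ => h4 t) (hnull σ h1)).1 rfl))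
    exact fun z hz => sub_eq_zero.1 (h1 z hz)
  refine ⟨hp1, ?_⟩
  have h1 := lines_zero (F := fun z => T (z + 2 * Real.pi * I) - T z) (hTs.sub hT) (by
    intro r hr
    obtain ⟨σ, h1, h2, h3, h4⟩ := hmax r hr
    exact ⟨σ, h1, h2, sub_eq_zero.2 (peak2 hk hT hU h hp1 h1 h3 (fun t _ => h4 t) (hnull σ h1)
      rfl)⟩)
  exact fun z hz => sub_eq_zero.1 (h1 z hz)

theorem param_aux0 (hK : ∀ y, HasDerivAt (Kf a) (K1 y) y) (x T0 U0 W s : ℂ) :
    HasDerivAt (fun s => Kf a (x * (T0 + s * U0)) * 1 * W)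
      (K1 (x * (T0 + s * U0)) * (x * U0) * 1 * W) s := by
  have e0 : HasDerivAt (fun s : ℂ => T0 + s * U0) U0 s := by
    have := ((hasDerivAt_id s).mul_const U0).const_add T0
    rwa [one_mul] at this
  have e1 : HasDerivAt (fun s : ℂ => x * (T0 + s * U0)) (x * U0) s := e0.const_mul x
  have e2 : HasDerivAt (fun s : ℂ => Kf a (x * (T0 + s * U0)))
      (K1 (x * (T0 + s * U0)) * (x * U0)) s :=
    HasDerivAt.comp (h₂ := Kf a) s (hK (x * (T0 + s * U0))) e1
  exact (e2.mul_const 1).mul_const W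

/-- the integral is an entire function of the parameter -/
theorem jj_entire (hk : KD a K1) (hT : DifferentiableOn ℂ T (HP Λ))
    (hU : DifferentiableOn ℂ U (HP Λ)) (hσ : σ ∈ HP Λ) :
    Differentiable ℂ fun s => JJ (Kf a) (fun z => T z + s * U z) (fun _ => 1) σ := by
  intro s
  have hK1c := hk.hd.continuous
  have hKc := hk.kc
  have dE : Continuous fun t : ℝ => exp (ln σ t) := (ln_cont2 σ).cexp
  have dx : Continuous fun t : ℝ => exp (ln σ t) - exp σ := dE.sub continuous_const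
  have dT := comp_ln2 hT.continuousOn hσ
  have dU := comp_ln2 hU.continuousOn hσ
  have q1 : Continuous fun p : ℂ × ℝ => exp (ln σ p.2) - exp σ := dx.comp continuous_snd
  have qE : Continuous fun p : ℂ × ℝ => exp (ln σ p.2) * (2 * Real.pi * I) :=
    (dE.comp continuous_snd).mul continuous_const
  have qT : Continuous fun p : ℂ × ℝ => T (ln σ p.2) := dT.comp continuous_snd
  have qU : Continuous fun p : ℂ × ℝ => U (ln σ p.2) := dU.comp continuous_snd
  have cτ : Continuous fun p : ℂ × ℝ => T (ln σ p.2) + p.1 * U (ln σ p.2) :=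
    qT.add (continuous_fst.mul qU)
  have qx : Continuous fun p : ℂ × ℝ => (exp (ln σ p.2) - exp σ) *
      (T (ln σ p.2) + p.1 * U (ln σ p.2)) := q1.mul cτ
  have r1 : Continuous fun p : ℂ × ℝ => K1 ((exp (ln σ p.2) - exp σ) *
      (T (ln σ p.2) + p.1 * U (ln σ p.2))) := hK1c.comp qx
  have r0 : Continuous fun p : ℂ × ℝ => Kf a ((exp (ln σ p.2) - exp σ) *
      (T (ln σ p.2) + p.1 * U (ln σ p.2))) := hKc.comp qx
  have r2 : Continuous fun p : ℂ × ℝ => (exp (ln σ p.2) - exp σ) * U (ln σ p.2) := q1.mul qU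
  have s1 : Continuous fun p : ℂ × ℝ => Kf a ((exp (ln σ p.2) - exp σ) *
      (T (ln σ p.2) + p.1 * U (ln σ p.2))) * 1 * (exp (ln σ p.2) * (2 * Real.pi * I)) :=
    (r0.mul continuous_const).mul qE
  have s0 : Continuous fun p : ℂ × ℝ => K1 ((exp (ln σ p.2) - exp σ) *
      (T (ln σ p.2) + p.1 * U (ln σ p.2))) * ((exp (ln σ p.2) - exp σ) * U (ln σ p.2)) * 1 *
      (exp (ln σ p.2) * (2 * Real.pi * I)) := ((r1.mul r2).mul continuous_const).mul qE
  have hder : ∀ v ∈ (univ : Set ℂ), ∀ t ∈ Icc (0 : ℝ) 1, HasDerivAt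
      (fun v => Kf a ((exp (ln σ t) - exp σ) * (T (ln σ t) + v * U (ln σ t))) * 1 *
        (exp (ln σ t) * (2 * Real.pi * I)))
      (K1 ((exp (ln σ t) - exp σ) * (T (ln σ t) + v * U (ln σ t))) *
        ((exp (ln σ t) - exp σ) * U (ln σ t)) * 1 * (exp (ln σ t) * (2 * Real.pi * I))) v :=
    fun v _ t _ => param_aux0 hk.hK (exp (ln σ t) - exp σ) (T (ln σ t)) (U (ln σ t))
      (exp (ln σ t) * (2 * Real.pi * I)) v
  have h := KF.par univ
    (fun s t => Kf a ((exp (ln σ t) - exp σ) * (T (ln σ t) + s * U (ln σ t))) * 1 *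
        (exp (ln σ t) * (2 * Real.pi * I)))
    (fun s t => K1 ((exp (ln σ t) - exp σ) * (T (ln σ t) + s * U (ln σ t))) *
        ((exp (ln σ t) - exp σ) * U (ln σ t)) * 1 * (exp (ln σ t) * (2 * Real.pi * I)))
    isOpen_univ s1.continuousOn s0.continuousOn hder s (mem_univ s)
  exact h.differentiableAt

/-- the growth in the parameter -/
theorem jj_growth {C c1 : ℝ} (hC : 0 ≤ C) (hc : 0 ≤ c1)
    (hgr : ∀ y, ‖Kf a y‖ ≤ C * Real.exp (c1 * Real.sqrt ‖y‖))
    (hT : DifferentiableOn ℂ T (HP Λ)) (hU : DifferentiableOn ℂ U (HP Λ)) (hσ : σ ∈ HP Λ) :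
    ∃ C' c' : ℝ, 0 ≤ C' ∧ 0 ≤ c' ∧ ∀ s, ‖JJ (Kf a) (fun z => T z + s * U z) (fun _ => 1) σ‖ ≤
      C' * Real.exp (c' * Real.sqrt (1 + ‖s‖)) := by
  have dE : Continuous fun t : ℝ => exp (ln σ t) := (ln_cont2 σ).cexp
  have dx : Continuous fun t : ℝ => exp (ln σ t) - exp σ := dE.sub continuous_const
  have dW : Continuous fun t : ℝ => exp (ln σ t) * (2 * Real.pi * I) := dE.mul continuous_const
  have dT := comp_ln2 hT.continuousOn hσ
  have dU := comp_ln2 hU.continuousOn hσ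
  obtain ⟨B1, h1⟩ := isCompact_Icc.exists_bound_of_continuousOn (s := Icc (0 : ℝ) 1) dx.continuousOn
  obtain ⟨B2, h2⟩ := isCompact_Icc.exists_bound_of_continuousOn (s := Icc (0 : ℝ) 1) dW.continuousOn
  obtain ⟨B3, h3⟩ := isCompact_Icc.exists_bound_of_continuousOn (s := Icc (0 : ℝ) 1) dT.continuousOn
  obtain ⟨B4, h4⟩ := isCompact_Icc.exists_bound_of_continuousOn (s := Icc (0 : ℝ) 1) dU.continuousOn
  set B : ℝ := |B1| + |B2| + |B3| + |B4| with hB
  have a1 := abs_nonneg B1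
  have a2 := abs_nonneg B2
  have a3 := abs_nonneg B3
  have a4 := abs_nonneg B4
  have b1 := le_abs_self B1
  have b2 := le_abs_self B2
  have b3 := le_abs_self B3
  have b4 := le_abs_self B4
  have hB0 : 0 ≤ B := by positivity
  refine ⟨C * B, c1 * B, by positivity, by positivity, fun s => ?_⟩
  have hbd : ∀ t ∈ uIoc (0 : ℝ) 1, ‖Kf a ((exp (ln σ t) - exp σ) * (T (ln σ t) + s * U (ln σ t))) * 1 *
      (exp (ln σ t) * (2 * Real.pi * I))‖ ≤ C * Real.exp (c1 * B * Real.sqrt (1 + ‖s‖)) * B := by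
    intro t ht
    rw [uIoc_of_le zero_le_one] at ht
    have ht' : t ∈ Icc (0 : ℝ) 1 := ⟨ht.1.le, ht.2⟩
    have g1 := h1 t ht'
    have g2 := h2 t ht'
    have g3 := h3 t ht'
    have g4 := h4 t ht'
    rw [mul_one, norm_mul]
    have g5 : ‖(exp (ln σ t) - exp σ) * (T (ln σ t) + s * U (ln σ t))‖ ≤
        B ^ 2 * (1 + ‖s‖) := by
      rw [norm_mul]
      have g6 : ‖T (ln σ t) + s * U (ln σ t)‖ ≤ B * (1 + ‖s‖) := by
        refine (norm_add_le _ _).trans ?_
        rw [norm_mul]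
        have g7 : ‖s‖ * ‖U (ln σ t)‖ ≤ ‖s‖ * B := by
          have : ‖U (ln σ t)‖ ≤ B := by linarith
          gcongr
        linarith
      have g8 : ‖exp (ln σ t) - exp σ‖ ≤ B := by linarith
      calc ‖exp (ln σ t) - exp σ‖ * ‖T (ln σ t) + s * U (ln σ t)‖ ≤ B * (B * (1 + ‖s‖)) := by gcongr
        _ = _ := by ring
    have g9 : Real.sqrt ‖(exp (ln σ t) - exp σ) * (T (ln σ t) + s * U (ln σ t))‖ ≤
        B * Real.sqrt (1 + ‖s‖) := by
      refine (Real.sqrt_le_sqrt g5).trans ?_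
      rw [Real.sqrt_mul (by positivity), Real.sqrt_sq hB0]
    have g10 : ‖exp (ln σ t) * (2 * Real.pi * I)‖ ≤ B := by linarith
    have g11 := hgr ((exp (ln σ t) - exp σ) * (T (ln σ t) + s * U (ln σ t)))
    have g12 : C * Real.exp (c1 * Real.sqrt ‖(exp (ln σ t) - exp σ) *
        (T (ln σ t) + s * U (ln σ t))‖) ≤ C * Real.exp (c1 * B * Real.sqrt (1 + ‖s‖)) := by
      rw [mul_assoc c1]
      gcongr
    have g13 := g11.trans g12
    gcongr
  have h5 := intervalIntegral.norm_integral_le_of_norm_le_const hbd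
  unfold JJ
  refine h5.trans (le_of_eq ?_)
  rw [sub_zero, abs_one, mul_one]
  ring

/-- an entire function with infinitely many zeros in a bounded set -/
theorem ent_zero {H : ℂ → ℂ} (hH : Differentiable ℂ H) {Z : Set ℂ} {R : ℝ} (hZ : Z.Infinite)
    (hZR : Z ⊆ closedBall 0 R) (h : ∀ z ∈ Z, H z = 0) (s : ℂ) : H s = 0 := by
  obtain ⟨z0, -, hz0⟩ := hZ.exists_accPt_of_subset_isCompact (isCompact_closedBall 0 R) hZR
  rw [accPt_iff_frequently_nhdsNE] at hz0
  exact AnalyticOnNhd.eqOn_zero_of_preconnected_of_frequently_eq_zero (U := univ)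
    (fun z _ => hH.analyticAt z) isPreconnected_univ (mem_univ z0)
    (hz0.mono fun z hz => h z hz) (mem_univ s)

/-- the identity for a branch in a linear family -/
theorem jj_branch (ha : 0 < a) (hOP : OP a Λ T) (hT : DifferentiableOn ℂ T (HP Λ)) {s b : ℂ}
    {m : ℤ} (h : ∀ z ∈ HP Λ, T (z + m * (2 * Real.pi * I)) = T z + s * U z + b) (hσ : σ ∈ HP Λ) :
    JJ (Kf a) (fun z => T z + s * U z) (fun _ => 1) σ = 0 := by
  have h1 := kop ha hOP hT hσ m b
  rw [← h1]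
  unfold JJ
  refine intervalIntegral.integral_congr fun t _ => ?_
  have e : T (σ + t * (2 * Real.pi * I) + m * (2 * Real.pi * I)) - b =
      T (ln σ t) + s * U (ln σ t) := by
    rw [show σ + (t : ℂ) * (2 * Real.pi * I) = ln σ t from rfl, h _ (ln_mem hσ t)]
    ring
  simp only
  rw [e, mul_one]
  rfl

end Pool.Agent.Helper6.SG
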