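import Pool.Agent.Helper6.SG.Cor

/-!
# The core theorem
-/

set_option autoImplicit false

open Complex MeasureTheory Metric Set Filter Topology

namespace Pool.Agent.Helper6.SG

open Pool.Agent.E8helper32.SA (per per_re)
open Pool.Agent.E8helper32.SP (OP)
open Pool.Agent.E8helper32.SQ (Kf HP HP_open HP_conv kop)
open Pool.Agent.Helper6.SF (HP_per iter_per)

variable {a Λ : ℝ} {T U V : ℂ → ℂ} {σ : ℂ} {p κ c : ℂ} {N : ℕ}

theorem per_add (m n : ℕ) : per (m + n) = per m + per n := by
  unfold per
  push_cast
  ring

theorem HP_sub {z : ℂ} (h : z ∈ HP Λ) (n : ℕ) : z - per n ∈ HP Λ := by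
  show (z - per n).re < Λ
  rw [sub_re, per_re, sub_zero]
  exact h

/-- from a linear family to `U` constant or `T` periodic, unbounded and bounded cases together -/
theorem fam_case {K1 : ℂ → ℂ} (hk : KD a K1) (hT : DifferentiableOn ℂ T (HP Λ))
    (hU : DifferentiableOn ℂ U (HP Λ)) (h : Zf a Λ T U fun _ => 1) (hN : 0 < N)
    (hκ0 : κ ≠ 0) (hrel : ∀ z ∈ HP Λ, U (z + per N) = κ * U z + c) (hκ : κ = 1 ∨ c = 0) :
    (∃ b, ∀ z ∈ HP Λ, U z = b) ∨ ((∀ z ∈ HP Λ, U (z + 2 * Real.pi * I) = U z) ∧
      ∀ z ∈ HP Λ, T (z + 2 * Real.pi * I) = T z) := by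
  by_cases hc0 : c = 0
  · subst hc0
    simp only [add_zero] at hrel
    by_cases hκ1 : ‖κ‖ = 1
    · exact bdd_case hk hT hU h hN hκ1 hrel
    by_cases hz : ∀ z ∈ HP Λ, U z = 0
    · exact Or.inl ⟨0, hz⟩
    push Not at hz
    obtain ⟨z0, hz0, hz1⟩ := hz
    exfalso
    rcases lt_or_gt_of_ne hκ1 with hlt | hgt
    · -- downwards
      refine rec_down hk hT hU h hz0 fun M => ?_
      have hit : ∀ j : ℕ, U (ln z0 (-((N * j : ℕ) : ℝ))) = (κ ^ j)⁻¹ * U z0 := by
        intro j
        have e : ln z0 (-((N * j : ℕ) : ℝ)) = z0 - per (N * j) := by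
          unfold ln per
          push_cast
          ring
        rw [e]
        induction j with
        | zero =>
          rw [Nat.mul_zero, pow_zero, inv_one, one_mul]
          unfold per
          simp
        | succ j ih =>
          have h1 := hrel (z0 - per (N * (j + 1))) (HP_sub hz0 _)
          have e2 : z0 - per (N * (j + 1)) + per N = z0 - per (N * j) := by
            rw [Nat.mul_succ, per_add]
            ring
          rw [e2, ih (by unfold ln per; push_cast; ring)] at h1
          rw [pow_succ, mul_inv]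
          field_simp at h1 ⊢
          linear_combination -h1
      have hlim : Tendsto (fun j : ℕ => ‖(κ ^ j)⁻¹ * U z0‖) atTop atTop := by
        have h1 : Tendsto (fun j : ℕ => (‖κ‖⁻¹) ^ j) atTop atTop :=
          tendsto_pow_atTop_atTop_of_one_lt ((one_lt_inv₀ (norm_pos_iff.2 hκ0)).2 hlt)
        refine (h1.atTop_mul_const (norm_pos_iff.2 hz1)).congr fun j => ?_
        rw [norm_mul, norm_inv, norm_pow, inv_pow]
      obtain ⟨j, hj⟩ := (hlim.eventually_ge_atTop M).exists
      exact ⟨((N * j : ℕ) : ℝ), Nat.cast_nonneg _, by rw [hit]; exact hj⟩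
    · refine rec_up hk hT hU h hz0 fun M => ?_
      have hit : ∀ j : ℕ, U (ln z0 ((N * j : ℕ) : ℝ)) = κ ^ j * U z0 := by
        intro j
        rw [ln_nat]
        induction j with
        | zero =>
          rw [Nat.mul_zero, pow_zero, one_mul]
          unfold per
          simp
        | succ j ih =>
          have e2 : z0 + per (N * (j + 1)) = z0 + per (N * j) + per N := by
            rw [Nat.mul_succ, per_add]
            ring
          rw [e2, hrel _ (HP_per hz0 _), ih, pow_succ]
          ring
      have hlim : Tendsto (fun j : ℕ => ‖κ ^ j * U z0‖) atTop atTop := by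
        have h1 : Tendsto (fun j : ℕ => ‖κ‖ ^ j) atTop atTop :=
          tendsto_pow_atTop_atTop_of_one_lt hgt
        refine (h1.atTop_mul_const (norm_pos_iff.2 hz1)).congr fun j => ?_
        rw [norm_mul, norm_pow]
      obtain ⟨j, hj⟩ := (hlim.eventually_ge_atTop M).exists
      exact ⟨((N * j : ℕ) : ℝ), Nat.cast_nonneg _, by rw [hit]; exact hj⟩
  · have hκ1 := hκ.resolve_right hc0
    subst hκ1
    simp only [one_mul] at hrel
    exfalso
    obtain ⟨x0, hx0⟩ : ∃ x0 : ℝ, x0 < Λ := exists_lt Λ
    have hz0 : (x0 : ℂ) ∈ HP Λ := by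
      show ((x0 : ℂ)).re < Λ
      rwa [ofReal_re]
    refine rec_up hk hT hU h hz0 fun M => ?_
    have hit : ∀ j : ℕ, U (ln (x0 : ℂ) ((N * j : ℕ) : ℝ)) = j * c + U x0 := by
      intro j
      rw [ln_nat]
      induction j with
      | zero =>
        rw [Nat.mul_zero]
        unfold per
        simp
      | succ j ih =>
        have e2 : (x0 : ℂ) + per (N * (j + 1)) = x0 + per (N * j) + per N := by
          rw [Nat.mul_succ, per_add]
          ring
        rw [e2, hrel _ (HP_per hz0 _), ih]
        push_cast
        ring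
    have hlim : Tendsto (fun j : ℕ => (j : ℝ) * ‖c‖ - ‖U x0‖) atTop atTop :=
      tendsto_atTop_add_const_right _ _
        (tendsto_natCast_atTop_atTop.atTop_mul_const (norm_pos_iff.2 hc0))
    obtain ⟨j, hj⟩ := (hlim.eventually_ge_atTop M).exists
    refine ⟨((N * j : ℕ) : ℝ), Nat.cast_nonneg _, ?_⟩
    rw [hit]
    refine hj.trans ?_
    have h1 := norm_sub_le ((j : ℂ) * c + U x0) (U x0)
    rw [add_sub_cancel_right, norm_mul, Complex.norm_natCast] at h1
    linarith

/-- **The core theorem.** If `V z = T (z + per N) - T z` satisfies `V (z + per N) = κ V z + c`,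
`κ` equal to `1` or not a root of unity, then `V` is constant. -/
theorem core (ha : 0 < a) (hOP : OP a Λ T) (hT : DifferentiableOn ℂ T (HP Λ)) (hN : 0 < N)
    (hκ0 : κ ≠ 0) (hκ : κ = 1 ∨ ∀ n : ℕ, 0 < n → κ ^ n ≠ 1)
    (hrel : ∀ z ∈ HP Λ, T (z + per N + per N) - T (z + per N) =
      κ * (T (z + per N) - T z) + c) :
    ∃ Δ, ∀ z ∈ HP Λ, T (z + per N) = T z + Δ := by
  obtain ⟨K1, C, c1, hC, hc1, hd, hK, hy, h0, h1, hgr⟩ := KF.main a ha
  have hk : KD a K1 := ⟨ha, hd, hK, hy, h0, h1⟩
  have hTN : DifferentiableOn ℂ (fun z => T (z + per N)) (HP Λ) :=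
    hT.comp (differentiableOn_id.add_const _) fun z hz => HP_per hz N
  have hfin : ∀ U : ℂ → ℂ, (∃ b, ∀ z ∈ HP Λ, T (z + per N) - T z = U z + b) →
      ((∃ b, ∀ z ∈ HP Λ, U z = b) ∨ ((∀ z ∈ HP Λ, U (z + 2 * Real.pi * I) = U z) ∧
      ∀ z ∈ HP Λ, T (z + 2 * Real.pi * I) = T z)) →
      ∃ Δ, ∀ z ∈ HP Λ, T (z + per N) = T z + Δ := by
    rintro U ⟨b0, hb0⟩ (⟨b, hb⟩ | ⟨-, hTp⟩)
    · refine ⟨b + b0, fun z hz => ?_⟩
      have h2 := hb0 z hz
      rw [hb z hz] at h2
      linear_combination h2
    · refine ⟨0, fun z hz => ?_⟩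
      have h2 : ∀ n : ℕ, T (z + per n) = T z := by
        intro n
        induction n with
        | zero =>
          unfold per
          simp
        | succ n ih =>
          have e : z + per (n + 1) = z + per n + 2 * Real.pi * I := by
            unfold per
            push_cast
            ring
          rw [e, hTp _ (HP_per hz n), ih]
      rw [h2, add_zero]
  by_cases hκ1 : κ = 1
  · subst hκ1
    set U : ℂ → ℂ := fun z => T (z + per N) - T z with hUdef
    have hU : DifferentiableOn ℂ U (HP Λ) := hTN.sub hT
    have hUrel : ∀ z ∈ HP Λ, U (z + per N) = 1 * U z + c := hrel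
    have hit : ∀ j : ℕ, ∀ z ∈ HP Λ, T (z + per (N * j)) =
        T z + j * U z + (j * (j - 1) / 2 : ℂ) * c := by
      intro j
      induction j with
      | zero =>
        intro z _
        unfold per
        simp
      | succ j ih =>
        intro z hz
        have e2 : z + per (N * (j + 1)) = z + per N + per (N * j) := by
          rw [Nat.mul_succ, per_add]
          ring
        have e3 : T (z + per N) = U z + T z := by
          rw [hUdef]
          ring
        rw [e2, ih _ (HP_per hz N), hUrel z hz, e3]
        push_cast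
        ring
    have hZ : Zf a Λ T U fun _ => 1 := by
      intro s σ hσ
      obtain ⟨C', c', hC', hc', hg⟩ := jj_growth hC hc1 hgr hT hU hσ
      refine ORD.main _ C' c' (jj_entire hk hT hU hσ) hC' hc' hg (fun n => ?_) s
      refine jj_branch ha hOP hT (m := ((N * n : ℕ) : ℤ)) (b := (n * (n - 1) / 2 : ℂ) * c)
        (fun z hz => ?_) hσ
      rw [← hit n z hz]
      unfold per
      push_cast
      ring_nf
    exact hfin U ⟨0, fun z _ => by rw [add_zero]⟩
      (fam_case hk hT hU hZ hN one_ne_zero hUrel (Or.inl rfl))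
  · have hirr := hκ.resolve_left hκ1
    have hs : 1 - κ ≠ 0 := sub_ne_zero.2 (Ne.symm hκ1)
    have hs' : κ - 1 ≠ 0 := sub_ne_zero.2 hκ1
    obtain ⟨b0, hb0⟩ : ∃ b0, b0 = c / (1 - κ) := ⟨_, rfl⟩
    have hb1 : b0 * (1 - κ) = c := by rw [hb0, div_mul_cancel₀ _ hs]
    set U : ℂ → ℂ := fun z => T (z + per N) - T z - b0 with hUdef
    have hU : DifferentiableOn ℂ U (HP Λ) := (hTN.sub hT).sub_const b0
    have hUrel : ∀ z ∈ HP Λ, U (z + per N) = κ * U z + 0 := by
      intro z hz
      rw [hUdef]
      simp only
      rw [hrel z hz]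
      linear_combination -hb1
    have hUit : ∀ j : ℕ, ∀ z ∈ HP Λ, U (z + per (N * j)) = κ ^ j * U z := by
      intro j
      induction j with
      | zero =>
        intro z _
        unfold per
        simp
      | succ j ih =>
        intro z hz
        have e2 : z + per (N * (j + 1)) = z + per N + per (N * j) := by
          rw [Nat.mul_succ, per_add]
          ring
        rw [e2, ih _ (HP_per hz N), hUrel z hz, pow_succ]
        ring
    have hit : ∀ j : ℕ, ∀ z ∈ HP Λ, T (z + per (N * j)) =
        T z + (κ ^ j - 1) / (κ - 1) * U z + j * b0 := by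
      intro j
      induction j with
      | zero =>
        intro z _
        unfold per
        simp
      | succ j ih =>
        intro z hz
        have e2 : z + per (N * (j + 1)) = z + per N + per (N * j) := by
          rw [Nat.mul_succ, per_add]
          ring
        have e3 : T (z + per N) = U z + T z + b0 := by
          rw [hUdef]
          ring
        rw [e2, ih _ (HP_per hz N), hUrel z hz, e3]
        push_cast
        field_simp
        ring
    have hinj : Function.Injective fun j : ℕ => κ ^ j := by
      intro i j hij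
      have hij' : κ ^ i = κ ^ j := hij
      by_contra hne
      rcases lt_or_gt_of_ne hne with h2 | h2
      · refine hirr (j - i) (by omega) ?_
        have h3 : κ ^ i * κ ^ (j - i) = κ ^ i * 1 := by
          rw [← pow_add, mul_one, hij']
          congr 1
          omega
        exact mul_left_cancel₀ (pow_ne_zero _ hκ0) h3
      · refine hirr (i - j) (by omega) ?_
        have h3 : κ ^ j * κ ^ (i - j) = κ ^ j * 1 := by
          rw [← pow_add, mul_one, ← hij']
          congr 1
          omega
        exact mul_left_cancel₀ (pow_ne_zero _ hκ0) h3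
    have hZ : Zf a Λ T U fun _ => 1 := by
      intro s σ hσ
      rcases le_or_gt ‖κ‖ 1 with hle | hgt
      · refine ent_zero (jj_entire hk hT hU hσ)
          (Z := range fun j : ℕ => (κ ^ j - 1) / (κ - 1)) (R := 2 / ‖κ - 1‖)
          (infinite_range_of_injective ?_) ?_ ?_ s
        · intro i j hij
          have h2 : κ ^ i - 1 = κ ^ j - 1 := by
            simp only at hij
            rwa [div_left_inj' hs'] at hij
          exact hinj (sub_left_injective h2)
        · rintro z ⟨j, rfl⟩
          simp only
          rw [mem_closedBall_zero_iff, norm_div]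
          gcongr
          refine (norm_sub_le _ _).trans ?_
          rw [norm_pow, norm_one]
          have := pow_le_one₀ (n := j) (norm_nonneg κ) hle
          linarith
        · rintro z ⟨j, rfl⟩
          refine jj_branch ha hOP hT (m := ((N * j : ℕ) : ℤ)) (b := j * b0) (fun z hz => ?_) hσ
          rw [← hit j z hz]
          unfold per
          push_cast
          ring_nf
      · refine ent_zero (jj_entire hk hT hU hσ)
          (Z := range fun j : ℕ => ((κ ^ j)⁻¹ - 1) / (κ - 1)) (R := 2 / ‖κ - 1‖)
          (infinite_range_of_injective ?_) ?_ ?_ s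
        · intro i j hij
          have h2 : (κ ^ i)⁻¹ - 1 = (κ ^ j)⁻¹ - 1 := by
            simp only at hij
            rwa [div_left_inj' hs'] at hij
          exact hinj (inv_injective (sub_left_injective h2))
        · rintro z ⟨j, rfl⟩
          simp only
          rw [mem_closedBall_zero_iff, norm_div]
          gcongr
          refine (norm_sub_le _ _).trans ?_
          rw [norm_inv, norm_pow, norm_one]
          have := inv_le_one_of_one_le₀ (one_le_pow₀ (n := j) hgt.le)
          linarith
        · rintro z ⟨j, rfl⟩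
          refine jj_branch ha hOP hT (m := -((N * j : ℕ) : ℤ)) (b := -(j * b0)) (fun z hz => ?_) hσ
          have e : z + ((-((N * j : ℕ) : ℤ) : ℤ) : ℂ) * (2 * Real.pi * I) = z - per (N * j) := by
            unfold per
            push_cast
            ring
          rw [e]
          have h2 := hit j _ (HP_sub hz (N * j))
          have h3 := hUit j _ (HP_sub hz (N * j))
          rw [sub_add_cancel] at h2 h3
          have hκj : κ ^ j ≠ 0 := pow_ne_zero _ hκ0
          have h4 : U (z - per (N * j)) = (κ ^ j)⁻¹ * U z := by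
            rw [h3, inv_mul_cancel_left₀ hκj]
          rw [h4] at h2
          rw [h2]
          field_simp
          ring
    exact hfin U ⟨b0, fun z _ => by rw [hUdef]; ring⟩
      (fam_case hk hT hU hZ hN hκ0 hUrel (Or.inr rfl))

end Pool.Agent.Helper6.SG
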