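import Pool.Agent.Helper6.SG.Stm

/-!
# ISOX (helper50): isolated points, for linear families
-/

set_option autoImplicit false

open Complex MeasureTheory Metric Set Filter Topology ComplexConjugate

namespace Pool.Agent.Helper6.SG.ISOX

open Pool.Agent.Results.MP_83fd13_an.BranchSingularities
open Pool.Agent.Y245.UC (Rf VG)
open Pool.Agent.E8helper32.SA (per per_re exp_add_per eqOn_convex branch_ball branch_congr)
open Pool.Agent.E8helper32.SL
open Pool.Agent.E8helper32.SP (entire_of_ext)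
open Pool.Agent.E8helper32.SQ
open Pool.Agent.Helper6.SF
open Pool.Agent.Helper6.SG

/-- the operators on analytic functions -/
theorem Xo_an {i : Fin 3} {n : ℕ} {h g : ℂ → ℂ} {z : ℂ} (hg : AnalyticAt ℂ g z)
    (hh : i ≠ 0 → AnalyticAt ℂ h z) : AnalyticAt ℂ (Xo i n h g) z := by
  fin_cases i
  · show AnalyticAt ℂ (fun w => iteratedDeriv n g w) z
    have h1 := hg.iterated_deriv n
    rw [← iteratedDeriv_eq_iterate] at h1
    exact h1
  · show AnalyticAt ℂ (fun w => deriv g w - h w * g w) z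
    exact hg.deriv.sub ((hh (by decide)).mul hg)
  · show AnalyticAt ℂ (fun w => deriv (deriv g) w - h w * deriv g w) z
    exact hg.deriv.deriv.sub ((hh (by decide)).mul hg.deriv)

/-- the operators are linear -/
theorem Xo_sub {i : Fin 3} {n : ℕ} {h f g : ℂ → ℂ} {w : ℂ} (hf : AnalyticAt ℂ f w)
    (hg : AnalyticAt ℂ g w) : Xo i n h (fun t => f t - g t) w = Xo i n h f w - Xo i n h g w := by
  have e1 : ∀ v, AnalyticAt ℂ f v → AnalyticAt ℂ g v → deriv (fun t => f t - g t) v = deriv f v - deriv g v := by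
    intro v h1 h2
    exact deriv_fun_sub h1.differentiableAt h2.differentiableAt
  have e2 : deriv (fun t => f t - g t) =ᶠ[𝓝 w] fun v => deriv f v - deriv g v := by
    filter_upwards [hf.eventually_analyticAt, hg.eventually_analyticAt] with v h1 h2
    exact e1 v h1 h2
  fin_cases i
  · show iteratedDeriv n (fun t => f t - g t) w = iteratedDeriv n f w - iteratedDeriv n g w
    exact iteratedDeriv_sub hf.contDiffAt hg.contDiffAt
  · show deriv (fun t => f t - g t) w - h w * (f w - g w) = (deriv f w - h w * f w) - (deriv g w - h w * g w)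
    rw [e1 w hf hg]
    ring
  · show deriv (deriv (fun t => f t - g t)) w - h w * deriv (fun t => f t - g t) w =
      (deriv (deriv f) w - h w * deriv f w) - (deriv (deriv g) w - h w * deriv g w)
    rw [e1 w hf hg, e2.deriv_eq, deriv_fun_sub hf.deriv.differentiableAt hg.deriv.differentiableAt]
    ring

theorem Xo_zero {n : ℕ} {h h' g : ℂ → ℂ} {w : ℂ} : Xo 0 n h g w = Xo 0 n h' g w := rfl

/-- iteration of the monodromy -/
theorem iter {V : ℂ → ℂ} {L : ℝ} {κ c : ℂ} (h : ∀ τ ∈ HP L, V (τ + per 1) = κ * V τ + c) (N : ℕ) :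
    ∃ c' : ℂ, ∀ τ ∈ HP L, V (τ + per N) = κ ^ N * V τ + c' := by
  induction N with
  | zero =>
    refine ⟨0, fun τ _ => ?_⟩
    have e : τ + per 0 = τ := by
      unfold per
      simp
    rw [e, pow_zero, one_mul, add_zero]
  | succ N ih =>
    obtain ⟨c', hc'⟩ := ih
    refine ⟨κ * c' + c, fun τ hτ => ?_⟩
    have e : τ + per (N + 1) = (τ + per N) + per 1 := by
      unfold per
      push_cast
      ring
    rw [e, h _ (HP_per hτ N), hc' τ hτ]
    ring

theorem main : S_PRP → S_MON → S_LIN → S_ISOX := by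
  classical
  intro hPRP hMON hLIN φ r lam B i0 n h U d c x ε0 hSD hNC hBo hB hU hA hc hh hcd hx hε0 hgood
  have hD := hSD.hD
  have hprop : ∀ (y : ℂ) (ρ : ℝ), ball y ρ ⊆ B → ∀ E g : ℂ → ℂ, DifferentiableOn ℂ E (ball y ρ) →
      ∀ z ∈ ball y ρ, E =ᶠ[𝓝 z] g → RX i0 n h U d c z g → ∀ z' ∈ ball y ρ, RX i0 n h U d c z' E := by
    intro y ρ hs E g hE z hz hEg hS z' hz'
    exact hPRP i0 n h U d c y ρ E g z z' hU (hA.mono (sdiff_subset_sdiff_left hs))
      (fun k hk => (hc k hk).mono (inter_subset_inter_left _ hs))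
      (fun hi => (hh hi).mono (inter_subset_inter_left _ hs)) hE hz hEg hS hz'
  obtain ⟨δ2, hδ2, hs2⟩ := Metric.isOpen_iff.1 hBo x hx
  set δ : ℝ := min ε0 δ2 with hδdef
  have hδ : 0 < δ := lt_min hε0 hδ2
  have hδB : ball x δ ⊆ B := (ball_subset_ball (min_le_right _ _)).trans hs2
  have hx1 : 1 < ‖x‖ := hB x hx
  refine ⟨δ, hδ, hδB, fun z hz g hg hS => ?_⟩
  obtain ⟨ε, hε, hεs⟩ := Metric.eventually_nhds_iff_ball.1
    (hS.hd.and (isOpen_ball.mem_nhds hz))
  have hgd : DifferentiableOn ℂ g (ball z ε) := fun w hw => (hεs w hw).1.differentiableWithinAt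
  have hεδ : ball z ε ⊆ ball x δ := fun w hw => (hεs w hw).2
  -- the point `z1`
  obtain ⟨z1, hz1, hz1x⟩ : ∃ z1 ∈ ball z ε, z1 ≠ x := by
    by_cases hzx : z = x
    · refine ⟨z + ((ε / 2 : ℝ) : ℂ), ?_, ?_⟩
      · rw [mem_ball, dist_eq_norm, add_sub_cancel_left, norm_real,
          Real.norm_of_nonneg (by positivity)]
        linarith
      · rw [hzx, ne_eq, add_eq_left, ofReal_eq_zero]
        positivity
    · exact ⟨z, mem_ball_self hε, hzx⟩
  have hz1δ := hεδ hz1
  have hbr1 : Branch φ r z1 g := branch_ball hg (fun w hw => hB w (hδB (hεδ hw))) hgd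
    (mem_ball_self hε) hz1
  have hS1 : RX i0 n h U d c z1 g := hprop z ε (hεδ.trans hδB) g g hgd z (mem_ball_self hε)
    (EventuallyEq.refl _ _) hS z1 hz1
  have hfin : ∀ E : ℂ → ℂ, DifferentiableOn ℂ E (ball x δ) → E =ᶠ[𝓝 z1] g → E =ᶠ[𝓝 z] g := by
    intro E hE hEg
    have h4 := eqOn_convex (convex_ball z ε) isOpen_ball (hE.mono hεδ) hgd hz1 hEg
    filter_upwards [isOpen_ball.mem_nhds (mem_ball_self (x := z) hε)] with w hw
    exact h4 hw
  -- the coordinate
  set L : ℝ := Real.log δ with hLdef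
  have hexpL : Real.exp L = δ := Real.exp_log hδ
  have hzw : z1 - x ≠ 0 := sub_ne_zero.2 hz1x
  set τ0 : ℂ := log (z1 - x) with hτ0def
  have hexp0 : exp τ0 = z1 - x := exp_log hzw
  have hz0 : x + exp τ0 = z1 := by rw [hexp0, add_sub_cancel]
  have hτ0 : τ0 ∈ HP L := by
    show τ0.re < L
    rw [hτ0def, log_re, hLdef]
    refine Real.log_lt_log (norm_pos_iff.2 hzw) ?_
    rwa [mem_ball, dist_eq_norm] at hz1δ
  have hmem : ∀ τ ∈ HP L, x + exp τ ∈ ball x δ ∧ x + exp τ ≠ x := by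
    intro τ hτ
    constructor
    · rw [mem_ball, dist_eq_norm, add_sub_cancel_left, norm_exp, ← hexpL]
      exact Real.exp_lt_exp.2 hτ
    · intro h
      exact exp_ne_zero τ (by simp at h)
  have hexpd : ∀ t : ℂ, DifferentiableAt ℂ (fun t => x + exp t) t := fun t =>
    (differentiableAt_const _).add differentiableAt_exp
  set P : ℂ → (ℂ → ℂ) → Prop := fun τ F => ∃ g' : ℂ → ℂ, Branch φ r (x + exp τ) g' ∧
    RX i0 n h U d c (x + exp τ) g' ∧ F =ᶠ[𝓝 τ] fun t => g' (x + exp t) with hP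
  obtain ⟨G, hGd, hGg, hGP⟩ := cont (HP_conv L) (HP_open L) hτ0 P (by
    rintro τ F F' ⟨g', h1, h2, h3⟩ hFF'
    exact ⟨g', h1, h2, hFF'.symm.trans h3⟩) (by
    intro y hy
    obtain ⟨hy1, hy2⟩ := hmem y hy
    obtain ⟨δ', hδ', hsub, hext⟩ := hgood (x + exp y) (ball_subset_ball (min_le_left _ _) hy1)
      hy2 (hδB hy1)
    obtain ⟨s, hs, hss⟩ := Metric.eventually_nhds_iff_ball.1
      ((hexpd y).continuousAt.eventually (isOpen_ball.mem_nhds (mem_ball_self hδ')))
    refine ⟨s, hs, ?_⟩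
    rintro t ht - F ⟨g', h1, h2, h3⟩
    obtain ⟨E0, hE0, hE0g⟩ := hext _ (hss t ht) g' h1 h2
    refine ⟨fun u => E0 (x + exp u), fun u hu => ?_, ?_, fun u hu _ => ?_⟩
    · have h4 : DifferentiableAt ℂ E0 (x + exp u) :=
        hE0.differentiableAt (isOpen_ball.mem_nhds (hss u hu))
      exact (DifferentiableAt.comp (g := E0) (f := fun t => x + exp t) u h4
        (hexpd u)).differentiableWithinAt
    · have h4 : (fun u => E0 (x + exp u)) =ᶠ[𝓝 t] fun u => g' (x + exp u) :=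
        (hexpd t).continuousAt.tendsto.eventually hE0g
      exact h4.trans h3.symm
    · refine ⟨E0, ?_, ?_, EventuallyEq.refl _ _⟩
      · exact branch_ball (branch_congr hD.hφ h1 hE0g.symm) (fun w hw => hB w (hsub hw)) hE0
          (hss t ht) (hss u hu)
      · exact hprop _ _ hsub E0 g' hE0 _ (hss t ht) hE0g h2 _ (hss u hu))
    (f := fun t => g (x + exp t)) ⟨g, by rw [hz0]; exact hbr1, by rw [hz0]; exact hS1,
      EventuallyEq.refl _ _⟩
  have hP0 : P0 φ r x L G := by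
    refine ⟨hD, hx1, hGd, fun τ hτ => ?_⟩
    obtain ⟨g', h1, -, h3⟩ := hGP τ hτ
    exact ⟨g', h1, h3⟩
  -- the values after `j` turns
  have hex : ∀ j : ℕ, ∃ gj : ℂ → ℂ, RX i0 n h U d c z1 gj ∧
      ∀ᶠ t in 𝓝 τ0, G (t + per j) = gj (x + exp t) := by
    intro j
    obtain ⟨g2, -, hS2, hGg2⟩ := hGP (τ0 + per j) (HP_per hτ0 j)
    rw [exp_add_per, hz0] at hS2
    refine ⟨g2, hS2, ?_⟩
    have h1 : Tendsto (fun t : ℂ => t + per j) (𝓝 τ0) (𝓝 (τ0 + per j)) :=
      (continuous_id.add continuous_const).tendsto τ0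
    filter_upwards [h1.eventually hGg2] with t ht
    rw [ht, exp_add_per]
  choose gs hgsR hgsG using hex
  have hlm : Tendsto (lm x τ0) (𝓝 z1) (𝓝 τ0) := by
    have h1 : DifferentiableAt ℂ (lm x τ0) (x + exp τ0) := lm_diff (κ := 1) le_rfl
      (mem_ball_self (by rw [one_mul]; exact norm_pos_iff.2 (exp_ne_zero _)))
    have h2 := h1.continuousAt.tendsto
    rwa [lm_self, hz0] at h2
  have hlme : ∀ᶠ w in 𝓝 z1, x + exp (lm x τ0 w) = w := by
    have h1 : ball (x + exp τ0) (1 * ‖exp τ0‖) ∈ 𝓝 z1 := by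
      rw [hz0, one_mul]
      exact isOpen_ball.mem_nhds (mem_ball_self (norm_pos_iff.2 (exp_ne_zero _)))
    filter_upwards [h1] with w hw
    rw [lm_exp le_rfl hw, add_sub_cancel]
  have hall1 : ∀ᶠ w in 𝓝 z1, ∀ j ∈ Finset.range (d + 1),
      DifferentiableAt ℂ (gs j) w ∧ (w ∈ U → Ev d c w (Xo i0 n h (gs j) w) = 0) ∧
      ∀ᶠ t in 𝓝 (lm x τ0 w), G (t + per j) = gs j (x + exp t) := by
    rw [Filter.eventually_all_finset]
    intro j _
    filter_upwards [(hgsR j).hd, (hgsR j).hs,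
      hlm.eventually (eventually_eventually_nhds.2 (hgsG j))] with w h3 h5 h9
    exact ⟨h3, h5, h9⟩
  have hall : ∀ᶠ w in 𝓝 z1, (∀ j ∈ Finset.range (d + 1),
      DifferentiableAt ℂ (gs j) w ∧ (w ∈ U → Ev d c w (Xo i0 n h (gs j) w) = 0) ∧
      ∀ᶠ t in 𝓝 (lm x τ0 w), G (t + per j) = gs j (x + exp t)) ∧
      w ∈ B ∧ x + exp (lm x τ0 w) = w ∧ lm x τ0 w ∈ HP L := by
    filter_upwards [hall1, hBo.mem_nhds (hδB hz1δ), hlme,
      hlm.eventually ((HP_open L).mem_nhds hτ0)] with w h1 h2 h3 h4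
    exact ⟨h1, h2, h3, h4⟩
  obtain ⟨η, hη, hηs⟩ := Metric.eventually_nhds_iff_ball.1 hall
  obtain ⟨z2, hz2b, hz2⟩ : ∃ z2 ∈ ball z1 η, z2 ∉ B \ U := by
    obtain ⟨z2, h2, h3⟩ := (hA.dense_compl ℝ).inter_open_nonempty
      (ball z1 η) isOpen_ball ⟨z1, mem_ball_self hη⟩
    exact ⟨z2, h2, h3⟩
  have hz2B : z2 ∈ B := (hηs z2 hz2b).2.1
  have hz2U : z2 ∈ U := by
    by_contra h1
    exact hz2 ⟨hz2B, h1⟩
  have hga : ∀ j ∈ Finset.range (d + 1), AnalyticAt ℂ (gs j) z2 := by
    intro j hj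
    rw [analyticAt_iff_eventually_differentiableAt]
    filter_upwards [isOpen_ball.mem_nhds hz2b] with w hw
    exact ((hηs w hw).1 j hj).1
  have hha : i0 ≠ 0 → AnalyticAt ℂ h z2 := fun hi =>
    (hh hi).analyticAt ((hBo.inter hU).mem_nhds ⟨hz2B, hz2U⟩)
  -- two values agree
  obtain ⟨⟨i, j⟩, hij, hije⟩ := pigeon
    (((Finset.range (d + 1)) ×ˢ (Finset.range (d + 1))).filter fun p => p.1 < p.2)
    (f := fun p w => Xo i0 n h (gs p.2) w - Xo i0 n h (gs p.1) w) (z := z2) (by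
      rintro ⟨i, j⟩ hp
      rw [Finset.mem_filter, Finset.mem_product] at hp
      exact (Xo_an (hga j hp.1.2) hha).sub (Xo_an (hga i hp.1.1) hha)) (by
      filter_upwards [isOpen_ball.mem_nhds hz2b, hU.mem_nhds hz2U]
        with w h1 h3
      obtain ⟨h4, h5, -⟩ := hηs w h1
      by_contra hcon
      push Not at hcon
      have hinj : Set.InjOn (fun j => Xo i0 n h (gs j) w) (Finset.range (d + 1)) := by
        intro i hi j hj hij
        have hij' : Xo i0 n h (gs i) w = Xo i0 n h (gs j) w := hij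
        rcases lt_trichotomy i j with h6 | h6 | h6
        · exact absurd (sub_eq_zero.2 hij'.symm) (hcon (i, j) (by
            rw [Finset.mem_filter, Finset.mem_product]; exact ⟨⟨hi, hj⟩, h6⟩))
        · exact h6
        · exact absurd (sub_eq_zero.2 hij') (hcon (j, i) (by
            rw [Finset.mem_filter, Finset.mem_product]; exact ⟨⟨hj, hi⟩, h6⟩))
      have h7 := card_le (hcd w ⟨h5, h3⟩) ((Finset.range (d + 1)).image fun j => Xo i0 n h (gs j) w) (by
        intro y hy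
        rw [Finset.mem_image] at hy
        obtain ⟨j, hj, rfl⟩ := hy
        exact (h4 j hj).2.1 h3)
      rw [Finset.card_image_of_injOn hinj, Finset.card_range] at h7
      omega)
  rw [Finset.mem_filter, Finset.mem_product] at hij
  obtain ⟨⟨hi, hj⟩, hlt⟩ := hij
  simp only at hi hj hlt hije
  obtain ⟨hz2s, -, hz2e, ht2L⟩ := hηs z2 hz2b
  set t2 : ℂ := lm x τ0 z2 with ht2
  -- the difference
  have hGs : ∀ k : ℕ, DifferentiableOn ℂ (fun τ => G (τ + per k)) (HP L) := fun k =>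
    hGd.comp (differentiableOn_id.add_const _) fun τ hτ => HP_per hτ k
  have hva : AnalyticAt ℂ (fun w => gs j w - gs i w) (x + exp t2) := by
    rw [hz2e]
    exact (hga j hj).sub (hga i hi)
  have hVv : (fun τ => G (τ + per j) - G (τ + per i)) =ᶠ[𝓝 t2]
      fun t => (fun w => gs j w - gs i w) (x + exp t) := by
    filter_upwards [(hz2s i hi).2.2, (hz2s j hj).2.2] with t h3 h5
    rw [h3, h5]
  have hXv : ∀ᶠ w in 𝓝 (x + exp t2), Xo i0 n h (fun w => gs j w - gs i w) w = 0 := by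
    rw [hz2e]
    filter_upwards [hije, (hga j hj).eventually_analyticAt, (hga i hi).eventually_analyticAt] with w h1 h2 h3
    rw [Xo_sub h2 h3]
    exact h1
  have hAx : (ball x (Real.exp L) \ U).Countable := by
    rw [hexpL]
    exact hA.mono (sdiff_subset_sdiff_left hδB)
  have hUt : x + exp t2 ∈ U := by
    rw [hz2e]
    exact hz2U
  obtain ⟨κ, c1, hκ, hκ0, hV⟩ : ∃ κ c : ℂ, κ ≠ 0 ∧ (i0 = 0 → κ = 1 ∧ c = 0) ∧
      ∀ τ ∈ HP L, (fun τ => G (τ + per j) - G (τ + per i)) (τ + per 1) =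
        κ * (fun τ => G (τ + per j) - G (τ + per i)) τ + c := by
    by_cases hi0 : i0 = 0
    · refine hMON i0 n (fun _ => 0) x L U _ t2 (fun w => gs j w - gs i w) hU hAx
        (differentiableOn_const _) ((hGs j).sub (hGs i)) ht2L hUt hva hVv ?_
      filter_upwards [hXv] with w hw
      subst hi0
      exact hw
    · refine hMON i0 n h x L U _ t2 (fun w => gs j w - gs i w) hU hAx
        ((hh hi0).mono ?_) ((hGs j).sub (hGs i)) ht2L hUt hva hVv hXv
      rw [hexpL]
      exact inter_subset_inter_left _ hδB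
  obtain ⟨c2, hV2⟩ := iter (V := fun τ => G (τ + per j) - G (τ + per i)) (L := L) hV (j - i)
  have hmon : ∀ τ ∈ HP L, G (τ + per (j - i) + per (j - i)) - G (τ + per (j - i)) =
      κ ^ (j - i) * (G (τ + per (j - i)) - G τ) + c2 := by
    intro τ hτ
    have hτ' : τ - per i ∈ HP L := by
      show (τ - per i).re < L
      rw [sub_re, per_re, sub_zero]
      exact hτ
    have h1 := hV2 (τ - per i) hτ'
    have e1 : τ - per i + per (j - i) + per j = τ + per (j - i) + per (j - i) := by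
      unfold per
      push_cast [Nat.cast_sub hlt.le]
      ring
    have e2 : τ - per i + per (j - i) + per i = τ + per (j - i) := by ring
    have e3 : τ - per i + per j = τ + per (j - i) := by
      unfold per
      push_cast [Nat.cast_sub hlt.le]
      ring
    rwa [e1, e2, e3, sub_add_cancel] at h1
  rcases hLIN φ r lam x L G B (j - i) (κ ^ (j - i)) c2 hSD hP0 (fun w hw =>
    hB w (hδB (by rwa [hexpL] at hw))) hx (Nat.sub_pos_of_lt hlt) (pow_ne_zero _ hκ) hmon with hE | hC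
  · obtain ⟨E, hE, hGE⟩ := hE
    rw [hexpL] at hE
    refine ⟨E, hE, hfin E hE ?_⟩
    filter_upwards [hlme, hlm.eventually hGg, hlm.eventually ((HP_open L).mem_nhds hτ0)]
      with w h1 h2 h3
    rw [hGE _ h3, h1] at h2
    exact h2
  · obtain ⟨m, hm, hmC⟩ := hC
    refine absurd hmC (hNC m fun hi0 => ?_)
    have h1 := hm (by rw [(hκ0 hi0).1, one_pow])
    have h2 := Finset.mem_range.1 hj
    omega

end Pool.Agent.Helper6.SG.ISOX
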