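import Pool.Agent.Helper6.SG.Stm

/-!
# LOCX (helper50): the local and the global theorem, for linear families
-/

set_option autoImplicit false

open Complex MeasureTheory Metric Set Filter Topology ComplexConjugate

namespace Pool.Agent.Helper6.SG.LOCX

open Pool.Agent.Results.MP_83fd13_an.BranchSingularities
open Pool.Agent.Y245.UC (Rf VG)
open Pool.Agent.E8helper32.SA (per per_re exp_add_per eqOn_convex branch_ball branch_congr)
open Pool.Agent.E8helper32.SL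
open Pool.Agent.E8helper32.SP (entire_of_ext)
open Pool.Agent.E8helper32.SQ
open Pool.Agent.Helper6.SF
open Pool.Agent.Helper6.SG

theorem Xo_congr {i : Fin 3} {n : ℕ} {h f g : ℂ → ℂ} {w : ℂ} (hfg : f =ᶠ[𝓝 w] g) :
    Xo i n h f w = Xo i n h g w := by
  fin_cases i
  · show iteratedDeriv n f w = iteratedDeriv n g w
    exact hfg.iteratedDeriv_eq n
  · show deriv f w - h w * f w = deriv g w - h w * g w
    rw [hfg.deriv_eq, hfg.self_of_nhds]
  · show deriv (deriv f) w - h w * deriv f w = deriv (deriv g) w - h w * deriv g w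
    rw [hfg.deriv_eq, hfg.deriv.deriv_eq]

theorem Xo_an {i : Fin 3} {n : ℕ} {h g : ℂ → ℂ} {z : ℂ} (hg : AnalyticAt ℂ g z)
    (hh : i ≠ 0 → AnalyticAt ℂ h z) : AnalyticAt ℂ (Xo i n h g) z := by
  fin_cases i
  · show AnalyticAt ℂ (fun w => iteratedDeriv n g w) z
    have h1 := hg.iterated_deriv n
    rw [← iteratedDeriv_eq_iterate] at h1
    exact h1
  · show AnalyticAt ℂ (fun w => deriv g w - h w * g w) z
    exact hg.deriv.sub ((hh (by decide)).mul hg)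
  · show AnalyticAt ℂ (fun w => deriv (deriv g) w - h w * deriv g w) z
    exact hg.deriv.deriv.sub ((hh (by decide)).mul hg.deriv)

variable {φ : ℂ → ℂ} {r : ℝ} {U : Set ℂ} {d : ℕ} {c : ℕ → ℂ → ℂ} {i : Fin 3} {n : ℕ} {h : ℂ → ℂ}

theorem RX_congr {z : ℂ} {f g : ℂ → ℂ} (hR : RX i n h U d c z f) (hfg : f =ᶠ[𝓝 z] g) :
    RX i n h U d c z g := by
  have h1 : ∀ᶠ y in 𝓝 z, f =ᶠ[𝓝 y] g := eventually_eventually_nhds.2 hfg
  refine ⟨?_, ?_⟩
  · filter_upwards [hR.hd, h1] with w h2 h3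
    exact h2.congr_of_eventuallyEq h3.symm
  · filter_upwards [hR.hs, h1] with w h2 h3 h4
    rw [← Xo_congr h3]
    exact h2 h4

theorem GoodX_open {B : Set ℂ} {y : ℂ} (hG : GoodX φ r B i n h U d c y) :
    ∀ᶠ w in 𝓝 y, GoodX φ r B i n h U d c w := by
  obtain ⟨δ, hδ, hs, h1⟩ := hG
  filter_upwards [isOpen_ball.mem_nhds (mem_ball_self hδ)] with w hw
  have hsub : ball w (δ - dist w y) ⊆ ball y δ := ball_subset_ball' (by linarith)
  refine ⟨δ - dist w y, by rw [mem_ball] at hw; linarith, hsub.trans hs, fun z hz g hg hS => ?_⟩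
  obtain ⟨E, hE, hEg⟩ := h1 z (hsub hz) g hg hS
  exact ⟨E, hE.mono hsub, hEg⟩

/-- **The local theorem, separable relations.** -/
theorem loc_R (hPRP : S_PRP) (hREG : S_REG) (hISOX : S_ISOX) {lam : ℝ} (hSD : SData φ r lam) {c0 : ℂ} {ρ : ℝ}
    (hNC : ∀ m : ℕ, (i = 0 → m ≤ d) → ¬ BCusp φ r lam m (ball c0 ρ))
    (hB : ∀ w ∈ ball c0 ρ, 1 < ‖w‖) (hU : IsOpen U) (hA : (ball c0 ρ \ U).Countable)
    (hc : ∀ k ≤ d, DifferentiableOn ℂ (c k) (ball c0 ρ ∩ U))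
    (hh : i ≠ 0 → DifferentiableOn ℂ h (ball c0 ρ ∩ U))
    (hcd : ∀ w ∈ ball c0 ρ ∩ U, c d w ≠ 0)
    (hsep : ∀ w ∈ ball c0 ρ ∩ U, ∀ x, Ev d c w x = 0 → Ev' d c w x ≠ 0)
    {z : ℂ} (hz : z ∈ ball c0 ρ) {g : ℂ → ℂ}
    (hg : Branch φ r z g) (hS : RX i n h U d c z g) :
    ∃ E : ℂ → ℂ, DifferentiableOn ℂ E (ball c0 ρ) ∧ E =ᶠ[𝓝 z] g := by
  have hD := hSD.hD
  have hprop : ∀ (y : ℂ) (ρ' : ℝ), ball y ρ' ⊆ ball c0 ρ → ∀ E g : ℂ → ℂ,
      DifferentiableOn ℂ E (ball y ρ') →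
      ∀ z ∈ ball y ρ', E =ᶠ[𝓝 z] g → RX i n h U d c z g → ∀ z' ∈ ball y ρ', RX i n h U d c z' E := by
    intro y ρ' hs E g hE z hz hEg hS z' hz'
    exact hPRP i n h U d c y ρ' E g z z' hU (hA.mono (sdiff_subset_sdiff_left hs))
      (fun k hk => (hc k hk).mono (inter_subset_inter_left _ hs))
      (fun hi => (hh hi).mono (inter_subset_inter_left _ hs)) hE hz hEg hS hz'
  -- all points are good
  have hall : ∀ y ∈ ball c0 ρ, GoodX φ r (ball c0 ρ) i n h U d c y := by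
    by_contra hcon
    push Not at hcon
    obtain ⟨y0, hy0, hy0g⟩ := hcon
    set A : Set ℂ := {y | y ∈ ball c0 ρ ∧ ¬ GoodX φ r (ball c0 ρ) i n h U d c y} with hAdef
    have hAs : A ⊆ ball c0 ρ \ U := by
      rintro y ⟨h1, h2⟩
      refine ⟨h1, fun h3 => h2 ?_⟩
      exact hREG φ r (ball c0 ρ) i n h U d c y isOpen_ball hU hc hh h1 h3 (hcd y ⟨h1, h3⟩)
        (hsep y ⟨h1, h3⟩)
    have hAo : IsOpen (ball c0 ρ \ A) := by
      rw [isOpen_iff_mem_nhds]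
      rintro y ⟨h1, h2⟩
      have h3 : GoodX φ r (ball c0 ρ) i n h U d c y := by
        by_contra h3
        exact h2 ⟨h1, h3⟩
      filter_upwards [isOpen_ball.mem_nhds h1, GoodX_open h3] with w h4 h5
      exact ⟨h4, fun h6 => h6.2 h5⟩
    obtain ⟨x, hxA, ε, hε, hiso⟩ := Pool.Agent.E8helper36.SQ.iso (ball c0 ρ) A isOpen_ball (fun y hy => hy.1) hAo
      (hA.mono hAs) ⟨y0, hy0, hy0g⟩
    refine hxA.2 (hISOX φ r lam (ball c0 ρ) i n h U d c x ε hSD hNC isOpen_ball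
      hB hU hA hc hh hcd hxA.1 hε fun w hw hne hwB => ?_)
    by_contra h1
    exact hne (hiso w hw ⟨hwB, h1⟩)
  obtain ⟨G, hG, hGg, -⟩ := cont (convex_ball c0 ρ) isOpen_ball hz
    (fun y F => Branch φ r y F ∧ RX i n h U d c y F) (by
    rintro y F F' ⟨h1, h2⟩ hFF'
    exact ⟨branch_congr hD.hφ h1 hFF', RX_congr h2 hFF'⟩) (by
    intro y hy
    obtain ⟨δ, hδ, hs, h1⟩ := hall y hy
    refine ⟨δ, hδ, ?_⟩
    rintro t ht - F ⟨h2, h3⟩
    obtain ⟨E, hE, hEF⟩ := h1 t ht F h2 h3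
    refine ⟨E, hE, hEF, fun u hu _ => ⟨?_, ?_⟩⟩
    · exact branch_ball (branch_congr hD.hφ h2 hEF.symm) (fun w hw => hB w (hs hw)) hE ht hu
    · exact hprop _ _ hs E F hE _ ht hEF h3 _ hu) (f := g) ⟨hg, hS⟩
  exact ⟨G, hG, hGg⟩

theorem main : S_PRP → S_REG → S_ISOX → S_LOCX := by
  intro hPRP hREG hISOX φ r lam i n h U d c c0 ρ z g hSD hNC hB hU hA hc hh hcd hz hg hS
  have hCONN := Pool.Agent.E8helper36.SQ.conn
  -- a small disc
  obtain ⟨ε, hε, hεs⟩ := Metric.eventually_nhds_iff_ball.1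
    ((hS.hd.and hS.hs).and (isOpen_ball.mem_nhds hz))
  have hgd : DifferentiableOn ℂ g (ball z ε) := fun w hw =>
    (hεs w hw).1.1.differentiableWithinAt
  have hεb : ball z ε ⊆ ball c0 ρ := fun w hw => (hεs w hw).2
  obtain ⟨z2, hz2, hz2n⟩ : ∃ z2 ∈ ball z ε, z2 ∉ ball c0 ρ \ U := by
    obtain ⟨z2, h2, h3⟩ := (hA.dense_compl ℝ).inter_open_nonempty (ball z ε)
      isOpen_ball ⟨z, mem_ball_self hε⟩
    exact ⟨z2, h2, h3⟩
  have hz2U : z2 ∈ U := by
    by_contra h3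
    exact hz2n ⟨hεb hz2, h3⟩
  obtain ⟨δ, hδ, hδs⟩ := Metric.eventually_nhds_iff_ball.1
    ((isOpen_ball.eventually_mem hz2).and (hU.mem_nhds hz2U))
  have hVW : ball z2 δ ⊆ ball c0 ρ ∩ U := fun w hw =>
    ⟨hεb (hδs w hw).1, (hδs w hw).2⟩
  have hWo : IsOpen (ball c0 ρ ∩ U) := isOpen_ball.inter hU
  have hXd : DifferentiableOn ℂ (Xo i n h g) (ball z2 δ) := fun w hw =>
    (Xo_an (hgd.analyticAt (isOpen_ball.mem_nhds (hδs w hw).1))
      (fun hi => (hh hi).analyticAt (hWo.mem_nhds (hVW hw)))).differentiableAt.differentiableWithinAt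
  have hWc : IsPreconnected (ball c0 ρ ∩ U) := by
    have h1 := hCONN c0 ρ _ hA
    rwa [Set.sdiff_sdiff_right_self] at h1
  obtain ⟨d', c', ρ', hdd, hc', hρ', hcd', hρn, hrel', hsep'⟩ := sep_an hWo hWc isOpen_ball
    (convex_ball z2 δ).isPreconnected hVW ⟨z2, mem_ball_self hδ⟩ hc hcd hXd
    (fun w hw => (hεs w (hδs w hw).1).1.2 (hδs w hw).2)
  -- the new set
  set U' : Set ℂ := {w | w ∈ ball c0 ρ ∩ U ∧ c' d' w ≠ 0 ∧ ρ' w ≠ 0} with hU'
  have hU'o : IsOpen U' := by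
    rw [isOpen_iff_mem_nhds]
    rintro w ⟨h1, h2, h3⟩
    have c1 : ContinuousAt (c' d') w := ((hc' d').differentiableAt (hWo.mem_nhds h1)).continuousAt
    have c2 : ContinuousAt ρ' w := (hρ'.differentiableAt (hWo.mem_nhds h1)).continuousAt
    filter_upwards [hWo.mem_nhds h1, c1.eventually_ne h2, c2.eventually_ne h3] with v h4 h5 h6
    exact ⟨h4, h5, h6⟩
  have hA' : (ball c0 ρ \ U').Countable := by
    refine ((hA.union (zeros_countable hWo hWc (hc' d') hcd')).union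
      (zeros_countable hWo hWc hρ' hρn)).mono ?_
    rintro w ⟨h1, h2⟩
    by_cases h3 : w ∈ U
    · by_cases h4 : c' d' w = 0
      · exact Or.inl (Or.inr ⟨⟨h1, h3⟩, h4⟩)
      · by_cases h5 : ρ' w = 0
        · exact Or.inr ⟨⟨h1, h3⟩, h5⟩
        · exact absurd ⟨⟨h1, h3⟩, h4, h5⟩ h2
    · exact Or.inl (Or.inl ⟨h1, h3⟩)
  have hU's : ball c0 ρ ∩ U' ⊆ ball c0 ρ ∩ U := fun w hw => hw.2.1
  have hR2 : RX i n h U d' c' z2 g := by
    refine ⟨?_, ?_⟩
    · filter_upwards [isOpen_ball.mem_nhds hz2] with w hw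
      exact hgd.differentiableAt (isOpen_ball.mem_nhds hw)
    · filter_upwards [isOpen_ball.mem_nhds (mem_ball_self hδ)] with w hw _
      exact hrel' w hw
  have hAε : (ball z ε \ U).Countable := hA.mono (sdiff_subset_sdiff_left hεb)
  have hR1 : RX i n h U d' c' z g := hPRP i n h U d' c' z ε g g z2 z hU hAε
    (fun k _ => (hc' k).mono (inter_subset_inter_left _ hεb))
    (fun hi => (hh hi).mono (inter_subset_inter_left _ hεb)) hgd hz2 (EventuallyEq.refl _ _) hR2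
    (mem_ball_self hε)
  have hR' : RX i n h U' d' c' z g := by
    refine ⟨hR1.hd, ?_⟩
    filter_upwards [hR1.hs] with w h1 h2
    exact h1 h2.1.2
  exact loc_R hPRP hREG hISOX hSD (fun m hm => hNC m fun hi => (hm hi).trans hdd) hB hU'o hA'
    (fun k _ => (hc' k).mono hU's) (fun hi => (hh hi).mono hU's) (fun w hw => hw.2.2.1)
    (fun w hw => hsep' w hw.2.1 hw.2.2.2) hz hg hR'

/-- **The global theorem.** -/
theorem glob : S_PRP → S_LOCX → S_GLBX := by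
  intro hPRP hLOCX φ r lam i n h' U d c z0 hSD hNC hU hA hc hh' hcd hz01 hz0r hR
  have hCONN := Pool.Agent.E8helper36.SQ.conn
  have hD := hSD.hD
  have hr := hD.hr
  have hr0 : 0 < r := by linarith
  have hcb : ∀ B : Set ℂ, (∀ w ∈ B, 1 < ‖w‖) → (B \ U).Countable := fun B hB =>
    hA.mono (sdiff_subset_sdiff_left hB)
  have hcB : ∀ B : Set ℂ, (∀ w ∈ B, 1 < ‖w‖) → ∀ k ≤ d, DifferentiableOn ℂ (c k) (B ∩ U) :=
    fun B hB k hk => (hc k hk).mono fun w hw => ⟨hB w hw.1, hw.2⟩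
  have hhB : ∀ B : Set ℂ, (∀ w ∈ B, 1 < ‖w‖) → i ≠ 0 → DifferentiableOn ℂ h' (B ∩ U) :=
    fun B hB hi => (hh' hi).mono fun w hw => ⟨hB w hw.1, hw.2⟩
  have hex : IsOpen {w : ℂ | 1 < ‖w‖} := isOpen_lt continuous_const continuous_norm
  -- the leading coefficient does not vanish near any point
  have hcdB : ∀ (x : ℂ) (s : ℝ), 1 < ‖x‖ → 0 < s → ∃ w ∈ ball x s ∩ U, c d w ≠ 0 := by
    intro x s hx hs
    by_contra hcon
    push Not at hcon
    obtain ⟨w, hw1, hwU, hw2⟩ := hcd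
    have hcl := clopen ext_pre (P := fun x => ∀ᶠ w in 𝓝 x, w ∈ U → c d w = 0) (by
      intro x hx
      obtain ⟨t, ht, hts⟩ := Metric.isOpen_iff.1 hex x hx
      refine ⟨t, ht, hts, fun y hy hPy z hz => ?_⟩
      have hWc : IsPreconnected (ball x t ∩ U) := by
        have h1 := hCONN x t _ (hcb _ fun w hw => hts hw)
        rwa [Set.sdiff_sdiff_right_self] at h1
      obtain ⟨ε, hε, hεs⟩ := Metric.eventually_nhds_iff_ball.1
        (hPy.and (isOpen_ball.mem_nhds hy))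
      obtain ⟨y1, hy1, hy1n⟩ : ∃ y1 ∈ ball y ε, y1 ∉ ball x t \ U := by
        obtain ⟨z2, h2, h3⟩ := ((hcb (ball x t) fun w hw => hts hw).dense_compl
          ℝ).inter_open_nonempty (ball y ε) isOpen_ball ⟨y, mem_ball_self hε⟩
        exact ⟨z2, h2, h3⟩
      have hy1x : y1 ∈ ball x t := (hεs y1 hy1).2
      have hy1U : y1 ∈ U := by
        by_contra h1
        exact hy1n ⟨hy1x, h1⟩
      have h2 := hol_zero (isOpen_ball.inter hU) hWc (hcB _ (fun w hw => hts hw) d le_rfl)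
        ⟨hy1x, hy1U⟩ (by
          filter_upwards [isOpen_ball.mem_nhds hy1, hU.mem_nhds hy1U] with v h3 h4
          exact (hεs v h3).1 h4)
      filter_upwards [isOpen_ball.mem_nhds hz] with v h3 h4
      exact h2 v ⟨h3, h4⟩) hx (by
      filter_upwards [isOpen_ball.mem_nhds (mem_ball_self hs)] with v h4 h5
      exact hcon v ⟨h4, h5⟩)
    exact hw2 ((hcl w hw1).self_of_nhds hwU)
  refine entire_of_ext hr0 hD.hφ fun ρ hρ h hh hhφ x hx => ?_
  have hρ1 : 1 < ρ := lt_of_lt_of_le hr hρ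
  have hρ0 : 0 < ρ := by linarith
  rw [mem_sphere_zero_iff_norm] at hx
  have hann : IsOpen {w : ℂ | 1 < ‖w‖ ∧ ‖w‖ < ρ} :=
    (isOpen_lt continuous_const continuous_norm).inter
      (isOpen_lt continuous_norm continuous_const)
  have hSh : ∀ z ∈ {w : ℂ | 1 < ‖w‖ ∧ ‖w‖ < ρ}, RX i n h' U d c z h :=
    clopen (ann_pre hρ0) (by
      intro x hx
      obtain ⟨t, ht, hts⟩ := Metric.isOpen_iff.1 hann x hx
      have h1 : ∀ w ∈ ball x t, 1 < ‖w‖ := fun w hw => (hts hw).1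
      refine ⟨t, ht, hts, fun y hy hPy z hz => ?_⟩
      exact hPRP i n h' U d c x t h h y z hU (hcb _ h1) (hcB _ h1) (hhB _ h1)
        (hh.mono fun w hw => by rw [mem_ball_zero_iff]; exact (hts hw).2) hy
        (EventuallyEq.refl _ _) hPy hz) (x0 := z0) ⟨hz01, hz0r.trans_le hρ⟩ (RX_congr hR (by
        filter_upwards [isOpen_ball.mem_nhds (mem_ball_zero_iff.2 hz0r)] with w hw
        exact (hhφ hw).symm))
  have hB : ∀ w ∈ ball x (ρ - 1), 1 < ‖w‖ := by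
    intro w hw
    rw [mem_ball, dist_eq_norm] at hw
    have h2 : ‖x‖ ≤ ‖w‖ + ‖w - x‖ := by
      have := norm_sub_le w (w - x)
      rwa [sub_sub_cancel] at this
    linarith
  -- the point `z`
  set s : ℝ := (ρ + 1) / (2 * ρ) with hs
  have hs0 : 0 < s := by positivity
  have hsρ : s * ρ = (ρ + 1) / 2 := by rw [hs]; field_simp
  have hs1 : s < 1 := by
    rw [hs, div_lt_one (by positivity)]; linarith
  have hzn : ‖(s : ℂ) * x‖ = (ρ + 1) / 2 := by
    rw [norm_mul, norm_real, Real.norm_of_nonneg hs0.le, hx, hsρ]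
  have hzx : (s : ℂ) * x ∈ ball x (ρ - 1) := by
    have e : (s : ℂ) * x - x = ((s - 1 : ℝ) : ℂ) * x := by push_cast; ring
    rw [mem_ball, dist_eq_norm, e, norm_mul, norm_real, hx, Real.norm_eq_abs,
      abs_of_neg (by linarith)]
    have : -(s - 1) * ρ = ρ - (ρ + 1) / 2 := by rw [← hsρ]; ring
    rw [this]
    linarith
  have hz0 : (s : ℂ) * x ∈ ball (0 : ℂ) ρ := by rw [mem_ball_zero_iff, hzn]; linarith
  obtain ⟨E, hE, hEh⟩ := hLOCX φ r lam i n h' U d c x (ρ - 1) _ h hSD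
    (fun m hm hC => hNC m hm (hC.mono le_rfl hB)) hB hU (hcb _ hB) (hcB _ hB) (hhB _ hB)
    (hcdB x (ρ - 1) (by rw [hx]; exact hρ1) (by linarith)) hzx
    (branch_radial hD hρ hh hhφ hz0 (by rw [hzn]; linarith)) (hSh _ (by
      refine ⟨?_, ?_⟩
      · rw [hzn]; linarith
      · rw [hzn]; linarith))
  exact ⟨ρ - 1, E, _, by linarith, hE, ⟨hzx, hz0⟩, hEh⟩

end Pool.Agent.Helper6.SG.LOCX
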