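import Pool.Agent.Helper6.SG.Stm

/-!
# Module MON: the monodromy of the solutions around an isolated singularity (helper2)
-/

set_option autoImplicit false

open Complex MeasureTheory Metric Set Filter Topology ComplexConjugate

namespace Pool.Agent.Helper6.SG.MON

open Pool.Agent.Results.MP_83fd13_an.BranchSingularities
open Pool.Agent.E8helper32.SA (per)
open Pool.Agent.E8helper32.SL
open Pool.Agent.E8helper32.SQ (Kf HP)

theorem hp_open (L : ℝ) : IsOpen (HP L) := isOpen_lt continuous_re continuous_const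

theorem hp_pre (L : ℝ) : IsPreconnected (HP L) := (convex_halfSpace_re_lt L).isPreconnected

theorem exp_per (τ : ℂ) : exp (τ + per 1) = exp τ := by
  unfold per
  rw [Nat.cast_one, one_mul, exp_periodic]

theorem mem_per {L : ℝ} {τ : ℂ} (h : τ ∈ HP L) : τ + per 1 ∈ HP L := by
  have h1 : (per 1).re = 0 := Pool.Agent.E8helper32.SA.per_re 1
  show (τ + per 1).re < L
  rw [add_re, h1, add_zero]
  exact h

theorem mem_per' {L : ℝ} {τ : ℂ} (h : τ ∈ HP L) : τ - per 1 ∈ HP L := by
  have h1 : (per 1).re = 0 := Pool.Agent.E8helper32.SA.per_re 1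
  show (τ - per 1).re < L
  rw [sub_re, h1, sub_zero]
  exact h

theorem mem_ball_exp {x : ℂ} {L : ℝ} {τ : ℂ} (h : τ ∈ HP L) : x + exp τ ∈ ball x (Real.exp L) := by
  rw [mem_ball, dist_eq, add_sub_cancel_left, norm_exp]
  exact Real.exp_lt_exp.2 h

/-- the identity theorem -/
theorem idt {S : Set ℂ} {f g : ℂ → ℂ} (hS : IsOpen S) (hp : IsPreconnected S)
    (hf : DifferentiableOn ℂ f S) (hg : DifferentiableOn ℂ g S) {z : ℂ} (hz : z ∈ S)
    (h : f =ᶠ[𝓝 z] g) : ∀ w ∈ S, f w = g w := fun _ hw =>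
  (hf.analyticOnNhd hS).eqOn_of_preconnected_of_eventuallyEq (hg.analyticOnNhd hS) hp hz h hw

/-- the derivative of a function of the exponential -/
theorem der_comp {v : ℂ → ℂ} {x t : ℂ} (h : DifferentiableAt ℂ v (x + exp t)) :
    deriv (fun t => v (x + exp t)) t = deriv v (x + exp t) * exp t := by
  have h1 : HasDerivAt (fun t => x + exp t) (exp t) t := (hasDerivAt_exp t).const_add x
  exact (h.hasDerivAt.comp t h1).deriv

theorem mon1 {h : ℂ → ℂ} {x : ℂ} {L : ℝ} {U : Set ℂ} {V : ℂ → ℂ} {τ0 : ℂ} {v : ℂ → ℂ}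
    (hU : IsOpen U) (hc : (ball x (Real.exp L) \ U).Countable)
    (hh : DifferentiableOn ℂ h (ball x (Real.exp L) ∩ U)) (hV : DifferentiableOn ℂ V (HP L))
    (hτ : τ0 ∈ HP L) (hx : x + exp τ0 ∈ U) (hv : AnalyticAt ℂ v (x + exp τ0))
    (he : V =ᶠ[𝓝 τ0] fun t => v (x + exp t))
    (hX : ∀ᶠ w in 𝓝 (x + exp τ0), deriv v w - h w * v w = 0) :
    ∃ κ : ℂ, κ ≠ 0 ∧ ∀ τ ∈ HP L, V (τ + per 1) = κ * V τ := by
  have hSo := hp_open L
  have hSp := hp_pre L
  set T : Set ℂ := {τ | x + exp τ ∈ U} with hT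
  have hce : Continuous fun τ : ℂ => x + exp τ := by fun_prop
  have hTo : IsOpen T := hU.preimage hce
  have hcount : (HP L \ T).Countable := by
    refine (Set.Countable.preimage_cexp (hc.image fun w => w - x)).mono ?_
    rintro τ ⟨h1, h2⟩
    exact ⟨x + exp τ, ⟨mem_ball_exp h1, h2⟩, by simp⟩
  have hWp : IsPreconnected (HP L ∩ T) :=
    Pool.Agent.Helper6.SF.pre_inter Pool.Agent.E8helper36.SQ.conn hSo hSp hcount
  have hWo : IsOpen (HP L ∩ T) := hSo.inter hTo
  have hτW : τ0 ∈ HP L ∩ T := ⟨hτ, hx⟩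
  set H : ℂ → ℂ := fun τ => h (x + exp τ) * exp τ with hH
  have hHd : DifferentiableOn ℂ H (HP L ∩ T) := by
    refine DifferentiableOn.mul ?_ differentiable_exp.differentiableOn
    refine hh.comp (by fun_prop) ?_
    intro τ hτ'
    exact ⟨mem_ball_exp hτ'.1, hτ'.2⟩
  have hV' : DifferentiableOn ℂ (deriv V) (HP L) := hV.deriv hSo
  have hD : ∀ τ ∈ HP L ∩ T, deriv V τ = H τ * V τ := by
    refine idt hWo hWp (hV'.mono inter_subset_left) (hHd.mul (hV.mono inter_subset_left)) hτW ?_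
    have e1 : ∀ᶠ τ in 𝓝 τ0, deriv v (x + exp τ) - h (x + exp τ) * v (x + exp τ) = 0 :=
      hce.continuousAt.eventually hX
    have e2 : ∀ᶠ τ in 𝓝 τ0, AnalyticAt ℂ v (x + exp τ) :=
      hce.continuousAt.eventually hv.eventually_analyticAt
    filter_upwards [he.eventuallyEq_nhds, he, e1, e2] with τ h1 h2 h3 h4
    rw [h1.deriv_eq, der_comp h4.differentiableAt]
    show _ = h (x + exp τ) * exp τ * V τ
    rw [h2, sub_eq_zero.1 h3]
    ring
  set V1 : ℂ → ℂ := fun τ => V (τ + per 1) with hV1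
  have hsh : ∀ τ ∈ HP L, HasDerivAt V1 (deriv V (τ + per 1)) τ := by
    intro τ hτ'
    have h1 : HasDerivAt V (deriv V (τ + per 1)) (τ + per 1) :=
      (hV.differentiableAt (hSo.mem_nhds (mem_per hτ'))).hasDerivAt
    exact h1.comp_add_const τ (per 1)
  have hV1d : DifferentiableOn ℂ V1 (HP L) := fun τ hτ' =>
    (hsh τ hτ').differentiableAt.differentiableWithinAt
  have hD1 : ∀ τ ∈ HP L ∩ T, deriv V1 τ = H τ * V1 τ := by
    intro τ hτ'
    rw [(hsh τ hτ'.1).deriv, hD (τ + per 1) ⟨mem_per hτ'.1, by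
      show x + exp (τ + per 1) ∈ U
      rw [exp_per]
      exact hτ'.2⟩]
    show h (x + exp (τ + per 1)) * exp (τ + per 1) * _ = h (x + exp τ) * exp τ * _
    rw [exp_per]
  have hWr : ∀ τ ∈ HP L, deriv V1 τ * V τ - V1 τ * deriv V τ = 0 := by
    refine idt hSo hSp (((hV1d.deriv hSo).mul hV).sub (hV1d.mul hV')) (differentiableOn_const 0) hτ ?_
    filter_upwards [hWo.mem_nhds hτW] with τ hτ'
    rw [hD τ hτ', hD1 τ hτ']
    ring
  by_cases hz : ∃ τ1 ∈ HP L, V τ1 ≠ 0
  · obtain ⟨τ1, h1, h2⟩ := hz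
    have hcv : ContinuousAt V τ1 := (hV.differentiableAt (hSo.mem_nhds h1)).continuousAt
    obtain ⟨ε, hε, hb⟩ := Metric.eventually_nhds_iff_ball.1
      ((hcv.eventually_ne h2).and (hSo.mem_nhds h1))
    set κ := V1 τ1 / V τ1 with hκ
    have hq : ∀ τ ∈ ball τ1 ε, HasDerivAt (fun τ => V1 τ / V τ) 0 τ := by
      intro τ hτ'
      obtain ⟨h3, h4⟩ := hb τ hτ'
      have a1 := (hV1d.differentiableAt (hSo.mem_nhds h4)).hasDerivAt
      have a2 := (hV.differentiableAt (hSo.mem_nhds h4)).hasDerivAt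
      have a3 := a1.div a2 h3
      rw [hWr τ h4, zero_div] at a3
      exact a3
    have hcst : ∀ τ ∈ ball τ1 ε, V1 τ / V τ = κ := by
      intro τ hτ'
      exact isOpen_ball.is_const_of_deriv_eq_zero (convex_ball τ1 ε).isPreconnected
        (fun t ht => (hq t ht).differentiableAt.differentiableWithinAt)
        (fun t ht => (hq t ht).deriv) hτ' (mem_ball_self hε)
    have hall : ∀ τ ∈ HP L, V1 τ = κ * V τ := by
      refine idt hSo hSp hV1d ((differentiableOn_const κ).mul hV) h1 ?_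
      filter_upwards [isOpen_ball.mem_nhds (mem_ball_self hε)] with τ hτ'
      rw [← hcst τ hτ', div_mul_cancel₀ _ (hb τ hτ').1]
    refine ⟨κ, ?_, hall⟩
    intro h0
    apply h2
    have h3 := hall (τ1 - per 1) (mem_per' h1)
    rw [h0, zero_mul] at h3
    rw [← h3]
    show V τ1 = V (τ1 - per 1 + per 1)
    rw [sub_add_cancel]
  · push Not at hz
    exact ⟨1, one_ne_zero, fun τ hτ' => by rw [hz _ hτ', hz _ (mem_per hτ'), mul_zero]⟩

/-- a function with vanishing `n`-th derivative is a polynomial -/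
theorem poly_of {v : ℂ → ℂ} {w0 : ℂ} {n : ℕ} (hv : AnalyticAt ℂ v w0)
    (h : ∀ᶠ w in 𝓝 w0, iteratedDeriv n v w = 0) :
    ∃ P : ℂ → ℂ, Differentiable ℂ P ∧ v =ᶠ[𝓝 w0] P := by
  have hz : ∀ k, n ≤ k → iteratedDeriv k v w0 = 0 := by
    intro k hk
    obtain ⟨m, rfl⟩ := Nat.exists_eq_add_of_le hk
    have h1 : ∀ m, iteratedDeriv (n + m) v =ᶠ[𝓝 w0] fun _ => 0 := by
      intro m
      induction m with
      | zero => exact h
      | succ m ih =>
        rw [← add_assoc, iteratedDeriv_succ]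
        have h2 := ih.deriv
        simpa using h2
    exact (h1 m).self_of_nhds
  refine ⟨fun w => ∑ k ∈ Finset.range n, (w - w0) ^ k * (iteratedDeriv k v w0 / k.factorial), ?_, ?_⟩
  · fun_prop
  · filter_upwards [hv.hasFPowerSeriesAt.eventually_hasSum_sub] with w hw
    refine hw.unique ?_
    have h2 : ∀ k, (FormalMultilinearSeries.ofScalars ℂ
        (fun n => iteratedDeriv n v w0 / n.factorial)) k (fun _ : Fin k => w - w0) =
        (w - w0) ^ k * (iteratedDeriv k v w0 / k.factorial) := by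
      intro k
      rw [FormalMultilinearSeries.ofScalars_apply_eq]
      simp [mul_comm]
    simp_rw [h2]
    refine hasSum_sum_of_ne_finset_zero fun k hk => ?_
    rw [hz k (by simpa using hk)]
    simp

theorem main : S_MON := by
  intro i n h x L U V τ0 v hU hc hh hV hτ hx hv he hX
  have hSo := hp_open L
  have hSp := hp_pre L
  have hce : Continuous fun τ : ℂ => x + exp τ := by fun_prop
  fin_cases i
  · -- polynomials
    have hX' : ∀ᶠ w in 𝓝 (x + exp τ0), iteratedDeriv n v w = 0 := hX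
    obtain ⟨P, hP, hvP⟩ := poly_of hv hX'
    refine ⟨1, 0, one_ne_zero, fun _ => ⟨rfl, rfl⟩, ?_⟩
    have hall : ∀ τ ∈ HP L, V τ = P (x + exp τ) := by
      refine idt hSo hSp hV (hP.comp (by fun_prop)).differentiableOn hτ ?_
      filter_upwards [he, hce.continuousAt.eventually hvP] with τ h1 h2
      rw [h1, h2]
    intro τ hτ'
    rw [hall _ hτ', hall _ (mem_per hτ'), exp_per, one_mul, add_zero]
  · have hX' : ∀ᶠ w in 𝓝 (x + exp τ0), deriv v w - h w * v w = 0 := hX
    obtain ⟨κ, h1, h2⟩ := mon1 hU hc hh hV hτ hx hv he hX'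
    refine ⟨κ, 0, h1, fun h => absurd h (by decide), fun τ hτ' => ?_⟩
    rw [h2 τ hτ', add_zero]
  · have hX' : ∀ᶠ w in 𝓝 (x + exp τ0), deriv (deriv v) w - h w * deriv v w = 0 := hX
    have hV' : DifferentiableOn ℂ (deriv V) (HP L) := hV.deriv hSo
    have hW : DifferentiableOn ℂ (fun τ => deriv V τ * exp (-τ)) (HP L) :=
      hV'.mul (by fun_prop)
    have he' : (fun τ => deriv V τ * exp (-τ)) =ᶠ[𝓝 τ0] fun t => deriv v (x + exp t) := by
      filter_upwards [he.eventuallyEq_nhds,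
        hce.continuousAt.eventually hv.eventually_analyticAt] with τ h1 h2
      rw [h1.deriv_eq, der_comp h2.differentiableAt, mul_assoc, ← exp_add, add_neg_cancel, exp_zero,
        mul_one]
    obtain ⟨κ, h1, h2⟩ := mon1 hU hc hh hW hτ hx hv.deriv he' hX'
    have h3 : ∀ τ ∈ HP L, deriv V (τ + per 1) = κ * deriv V τ := by
      intro τ hτ'
      have h4 := h2 τ hτ'
      have h5 : exp (-(τ + per 1)) = exp (-τ) := by
        rw [exp_neg, exp_neg, exp_per]
      rw [h5, ← mul_assoc] at h4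
      exact mul_right_cancel₀ (exp_ne_zero _) h4
    have hd : ∀ τ ∈ HP L, HasDerivAt (fun τ => V (τ + per 1) - κ * V τ) 0 τ := by
      intro τ hτ'
      have a1 : HasDerivAt (fun τ => V (τ + per 1)) (deriv V (τ + per 1)) τ :=
        HasDerivAt.comp_add_const τ (per 1)
          (hV.differentiableAt (hSo.mem_nhds (mem_per hτ'))).hasDerivAt
      have a2 := ((hV.differentiableAt (hSo.mem_nhds hτ')).hasDerivAt).const_mul κ
      have a3 := a1.sub a2
      rw [h3 τ hτ', sub_self] at a3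
      exact a3
    obtain ⟨c, hc'⟩ := hSo.exists_is_const_of_deriv_eq_zero hSp
      (fun τ hτ' => (hd τ hτ').differentiableAt.differentiableWithinAt)
      (fun τ hτ' => (hd τ hτ').deriv)
    refine ⟨κ, c, h1, fun h => absurd h (by decide), fun τ hτ' => ?_⟩
    rw [← hc' τ hτ']
    ring

end Pool.Agent.Helper6.SG.MON
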