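import Pool.Agent.Helper6.SG.Stm

/-!
# REG: propagation of the relation and regular points (helper90)
-/

set_option autoImplicit false

open Complex MeasureTheory Metric Set Filter Topology ComplexConjugate

namespace Pool.Agent.Helper6.SG.REG

open Pool.Agent.Results.MP_83fd13_an.BranchSingularities
open Pool.Agent.E8helper32.SQ (S_CONN)
open Pool.Agent.Helper6.SF (Ev Ev' ev_an pigeon roots_fn)

theorem Xo_congr (i : Fin 3) (n : ℕ) (h : ℂ → ℂ) {f g : ℂ → ℂ} {w : ℂ} (hfg : f =ᶠ[𝓝 w] g) :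
    Xo i n h f w = Xo i n h g w := by
  have h1 : deriv f =ᶠ[𝓝 w] deriv g := hfg.deriv
  fin_cases i
  · exact hfg.iteratedDeriv_eq n
  · change deriv f w - h w * f w = deriv g w - h w * g w
    rw [hfg.deriv_eq, hfg.eq_of_nhds]
  · change deriv (deriv f) w - h w * deriv f w = deriv (deriv g) w - h w * deriv g w
    rw [h1.deriv_eq, hfg.deriv_eq]

theorem Xo_zero_eq (n : ℕ) (h h' g : ℂ → ℂ) : Xo 0 n h g = Xo 0 n h' g := rfl

theorem Xo_an (i : Fin 3) (n : ℕ) {h g : ℂ → ℂ} {w : ℂ} (hh : i ≠ 0 → AnalyticAt ℂ h w)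
    (hg : AnalyticAt ℂ g w) : AnalyticAt ℂ (Xo i n h g) w := by
  fin_cases i
  · change AnalyticAt ℂ (iteratedDeriv n g) w
    rw [iteratedDeriv_eq_iterate]
    induction n with
    | zero => exact hg
    | succ n ih =>
      rw [Function.iterate_succ_apply']
      exact ih.deriv
  · exact hg.deriv.sub ((hh (by decide)).mul hg)
  · exact hg.deriv.deriv.sub ((hh (by decide)).mul hg.deriv)

theorem RX.congr {i : Fin 3} {n : ℕ} {h : ℂ → ℂ} {U : Set ℂ} {d : ℕ} {c : ℕ → ℂ → ℂ} {z : ℂ}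
    {f g : ℂ → ℂ} (hf : RX i n h U d c z f) (hfg : f =ᶠ[𝓝 z] g) : RX i n h U d c z g := by
  have h1 : ∀ᶠ y in 𝓝 z, f =ᶠ[𝓝 y] g := eventually_eventually_nhds.2 hfg
  refine ⟨?_, ?_⟩
  · filter_upwards [hf.hd, h1] with w h2 h3
    exact h2.congr_of_eventuallyEq h3.symm
  · filter_upwards [hf.hs, h1] with w h2 h3 h4
    rw [← Xo_congr i n h h3]
    exact h2 h4

theorem prp : S_PRP := by
  intro i n h U d c c0 ρ E g z z' hU hA hc hh hE hz hEg hR hz'
  have hR' : RX i n h U d c z E := RX.congr hR hEg.symm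
  have hEa : AnalyticOnNhd ℂ E (ball c0 ρ) := hE.analyticOnNhd isOpen_ball
  have hDc : IsPreconnected (ball c0 ρ \ (ball c0 ρ \ U)) :=
    Pool.Agent.E8helper36.SQ.conn c0 ρ _ hA
  have hDm : ∀ w, w ∈ ball c0 ρ \ (ball c0 ρ \ U) ↔ w ∈ ball c0 ρ ∧ w ∈ U := by
    intro w
    constructor
    · rintro ⟨h1, h2⟩
      refine ⟨h1, ?_⟩
      by_contra h3
      exact h2 ⟨h1, h3⟩
    · rintro ⟨h1, h2⟩
      exact ⟨h1, fun h3 => h3.2 h2⟩
  have hnb : ∀ w, w ∈ ball c0 ρ ∧ w ∈ U → ball c0 ρ ∩ U ∈ 𝓝 w := fun w hw =>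
    (isOpen_ball.inter hU).mem_nhds hw
  have ha : AnalyticOnNhd ℂ (fun w => Ev d c w (Xo i n h E w)) (ball c0 ρ \ (ball c0 ρ \ U)) := by
    intro w hw
    have hw' := (hDm w).1 hw
    exact ev_an (fun k hk => (hc k hk).analyticAt (hnb w hw'))
      (Xo_an i n (fun hi => (hh hi).analyticAt (hnb w hw')) (hEa w hw'.1))
  obtain ⟨ε, hε, h1⟩ := Metric.eventually_nhds_iff_ball.1 (hR'.hs.and (isOpen_ball.mem_nhds hz))
  obtain ⟨z1, hz1, hz1D⟩ : ∃ z1 ∈ ball z ε, z1 ∉ (ball c0 ρ \ U) := by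
    obtain ⟨z1, h2, h3⟩ := (hA.dense_compl ℝ).inter_open_nonempty (ball z ε)
      isOpen_ball ⟨z, mem_ball_self hε⟩
    exact ⟨z1, h2, h3⟩
  have hz1b := (h1 z1 hz1).2
  have heq := ha.eqOn_zero_of_preconnected_of_eventuallyEq_zero hDc ⟨hz1b, hz1D⟩ (by
    have hz1U := ((hDm z1).1 ⟨hz1b, hz1D⟩).2
    filter_upwards [isOpen_ball.mem_nhds hz1, hU.mem_nhds hz1U] with v h5 h6
    exact (h1 v h5).1 h6)
  refine ⟨?_, ?_⟩
  · filter_upwards [isOpen_ball.mem_nhds hz'] with w hw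
    exact hE.differentiableAt (isOpen_ball.mem_nhds hw)
  · filter_upwards [isOpen_ball.mem_nhds hz'] with w hw h2
    exact heq ((hDm w).2 ⟨hw, h2⟩)

theorem main : S_SOL → S_REG := by
  intro hSOL φ r B i n h U d c y hBo hU hc hh hyB hyU hcd hsep
  obtain ⟨S, f, δ1, hδ1, hhd, hroot⟩ := roots_fn (fun k hk =>
    (hc k hk).analyticAt ((hBo.inter hU).mem_nhds ⟨hyB, hyU⟩)) hcd hsep
  obtain ⟨δ2, hδ2, hs2⟩ := Metric.isOpen_iff.1 (hBo.inter hU) y ⟨hyB, hyU⟩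
  have h01 : ball y (min δ1 δ2) ⊆ ball y δ1 := ball_subset_ball (min_le_left _ _)
  have h02 : ball y (min δ1 δ2) ⊆ B ∩ U := (ball_subset_ball (min_le_right _ _)).trans hs2
  refine ⟨min δ1 δ2, lt_min hδ1 hδ2, fun w hw => (h02 hw).1, fun z hz g hg hR => ?_⟩
  -- replace h by zero if i = 0
  obtain ⟨h', hh', hX⟩ : ∃ h' : ℂ → ℂ, DifferentiableOn ℂ h' (ball y (min δ1 δ2)) ∧
      ∀ g, Xo i n h g = Xo i n h' g := by
    by_cases hi : i = 0
    · subst hi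
      exact ⟨fun _ => 0, differentiableOn_const _, fun g => Xo_zero_eq n h _ g⟩
    · exact ⟨h, (hh hi).mono h02, fun g => rfl⟩
  have hga : AnalyticAt ℂ g z := analyticAt_iff_eventually_differentiableAt.2 hR.hd
  have hXa : AnalyticAt ℂ (Xo i n h' g) z :=
    Xo_an i n (fun _ => hh'.analyticAt (isOpen_ball.mem_nhds hz)) hga
  obtain ⟨s, hs, hse⟩ := pigeon S (f := fun s w => Xo i n h' g w - f s w) (z := z)
    (fun s hs => hXa.sub (((hhd s hs).mono h01).analyticAt (isOpen_ball.mem_nhds hz))) (by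
      filter_upwards [hR.hs, isOpen_ball.mem_nhds hz] with w h1 h2
      obtain ⟨s, hs, hx⟩ := hroot w (h01 h2) _ (h1 (h02 h2).2)
      refine ⟨s, hs, sub_eq_zero.2 ?_⟩
      rw [← hX g]
      exact hx)
  exact hSOL i n h' (f s) y (min δ1 δ2) z g hh' ((hhd s hs).mono h01) hz hga
    (hse.mono fun w hw => sub_eq_zero.1 hw)

end Pool.Agent.Helper6.SG.REG
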