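import Pool.Agent.Helper6.SG.Stm

/-!
# SOL: solutions of the linear equations in discs (helper90)
-/

set_option autoImplicit false

open Complex MeasureTheory Metric Set Filter Topology ComplexConjugate

namespace Pool.Agent.Helper6.SG.SOL

/-- primitives in discs -/
theorem prim {k g : ℂ → ℂ} {y z : ℂ} {δ : ℝ} (hk : DifferentiableOn ℂ k (ball y δ))
    (hz : z ∈ ball y δ) (hg : AnalyticAt ℂ g z) (hgk : deriv g =ᶠ[𝓝 z] k) :
    ∃ E : ℂ → ℂ, DifferentiableOn ℂ E (ball y δ) ∧ E =ᶠ[𝓝 z] g := by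
  obtain ⟨E, hEz, hE⟩ := hk.isExactOn_ball.with_val_at z (g z)
  refine ⟨E, fun w hw => (hE w hw).differentiableAt.differentiableWithinAt, ?_⟩
  obtain ⟨ε, hε, h1⟩ := Metric.eventually_nhds_iff_ball.1
    (((analyticAt_iff_eventually_differentiableAt.1 hg).and hgk).and (isOpen_ball.mem_nhds hz))
  have h2 : EqOn E g (ball z ε) := by
    refine IsOpen.eqOn_of_deriv_eq isOpen_ball (convex_ball z ε).isPreconnected
      (fun w hw => (hE w (h1 w hw).2).differentiableAt.differentiableWithinAt)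
      (fun w hw => (h1 w hw).1.1.differentiableWithinAt) ?_ (mem_ball_self hε) hEz
    intro w hw
    rw [(hE w (h1 w hw).2).deriv]
    exact (h1 w hw).1.2.symm
  filter_upwards [isOpen_ball.mem_nhds (mem_ball_self (x := z) hε)] with w hw
  exact h2 hw

theorem sol0 (n : ℕ) : ∀ {k g : ℂ → ℂ} {y z : ℂ} {δ : ℝ}, DifferentiableOn ℂ k (ball y δ) →
    z ∈ ball y δ → AnalyticAt ℂ g z → iteratedDeriv n g =ᶠ[𝓝 z] k →
    ∃ E : ℂ → ℂ, DifferentiableOn ℂ E (ball y δ) ∧ E =ᶠ[𝓝 z] g := by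
  induction n with
  | zero =>
    intro k g y z δ hk hz hg h
    rw [iteratedDeriv_zero] at h
    exact ⟨k, hk, h.symm⟩
  | succ n ih =>
    intro k g y z δ hk hz hg h
    rw [iteratedDeriv_succ'] at h
    obtain ⟨E, hE, hEg⟩ := ih hk hz hg.deriv h
    exact prim hE hz hg hEg.symm

theorem sol1 {h k g : ℂ → ℂ} {y z : ℂ} {δ : ℝ} (hh : DifferentiableOn ℂ h (ball y δ))
    (hk : DifferentiableOn ℂ k (ball y δ)) (hz : z ∈ ball y δ) (hg : AnalyticAt ℂ g z)
    (he : ∀ᶠ w in 𝓝 z, deriv g w - h w * g w = k w) :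
    ∃ E : ℂ → ℂ, DifferentiableOn ℂ E (ball y δ) ∧ E =ᶠ[𝓝 z] g := by
  obtain ⟨H, -, hH⟩ := hh.isExactOn_ball.with_val_at z 0
  have hHd : DifferentiableOn ℂ H (ball y δ) :=
    fun w hw => (hH w hw).differentiableAt.differentiableWithinAt
  have hexp : DifferentiableOn ℂ (fun w => exp (-H w)) (ball y δ) := hHd.neg.cexp
  have ha : AnalyticAt ℂ (fun w => g w * exp (-H w)) z :=
    hg.mul (hexp.analyticAt (isOpen_ball.mem_nhds hz))
  have hd : deriv (fun w => g w * exp (-H w)) =ᶠ[𝓝 z] fun w => k w * exp (-H w) := by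
    filter_upwards [analyticAt_iff_eventually_differentiableAt.1 hg, he,
      isOpen_ball.mem_nhds hz] with w h1 h2 h3
    have h4 : HasDerivAt (fun w => exp (-H w)) (exp (-H w) * -h w) w := (hH w h3).neg.cexp
    have h5 : HasDerivAt (fun w => g w * exp (-H w))
        (deriv g w * exp (-H w) + g w * (exp (-H w) * -h w)) w := h1.hasDerivAt.mul h4
    rw [h5.deriv, ← h2]
    ring
  obtain ⟨E, hE, hEg⟩ := prim (k := fun w => k w * exp (-H w)) (hk.mul hexp) hz ha hd
  refine ⟨fun w => E w * exp (H w), hE.mul hHd.cexp, ?_⟩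
  filter_upwards [hEg] with w hw
  change E w * exp (H w) = g w
  rw [hw, mul_assoc, ← exp_add, neg_add_cancel, exp_zero, mul_one]

theorem main : S_SOL := by
  intro i n h k y δ z g hh hk hz hg he
  fin_cases i
  · exact sol0 n hk hz hg he
  · exact sol1 hh hk hz hg he
  · obtain ⟨E, hE, hEg⟩ := sol1 hh hk hz hg.deriv he
    exact prim hE hz hg hEg.symm

end Pool.Agent.Helper6.SG.SOL
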