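import Pool.Agent.Helper6.SG.Lin
import Pool.Agent.Helper6.SG.SOL
import Pool.Agent.Helper6.SG.REG
import Pool.Agent.Helper6.SG.MON
import Pool.Agent.Helper6.SG.ISOX
import Pool.Agent.Helper6.SG.LOCX

/-!
# The theorems for linear operators; branches given in the logarithmic coordinate
-/

set_option autoImplicit false

open Complex MeasureTheory Metric Set Filter Topology ComplexConjugate

namespace Pool.Agent.Helper6.SG

open Pool.Agent.Results.MP_83fd13_an.BranchSingularities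
open Pool.Agent.E8helper32.SA (per per_re exp_add_per branch_ball branch_congr)
open Pool.Agent.E8helper32.SL
open Pool.Agent.E8helper32.SQ (HP HP_open HP_conv)
open Pool.Agent.Helper6.SF (BCusp Ev ev_an clopen)

theorem loc_x : S_LOCX := LOCX.main REG.prp (REG.main SOL.main) (ISOX.main REG.prp MON.main lin)

theorem glb_x : S_GLBX := LOCX.glob REG.prp loc_x

/-- the relation at the points where the derivative vanishes -/
theorem rx_of {i : Fin 3} {n d : ℕ} {h g : ℂ → ℂ} {B U : Set ℂ} {c : ℕ → ℂ → ℂ} {z : ℂ}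
    (hBo : IsOpen B) (hU : IsOpen U) (hc : ∀ k ≤ d, DifferentiableOn ℂ (c k) (B ∩ U))
    (hh : i ≠ 0 → DifferentiableOn ℂ h (B ∩ U)) (hz : z ∈ B)
    (hgd : ∀ᶠ w in 𝓝 z, DifferentiableAt ℂ g w) (hgn : ∃ᶠ w in 𝓝 z, deriv g w ≠ 0)
    (hrel : ∀ᶠ w in 𝓝 z, w ∈ U → deriv g w ≠ 0 → Ev d c w (Xo i n h g w) = 0) :
    RX i n h U d c z g := by
  have hga : AnalyticAt ℂ g z := by
    rw [analyticAt_iff_eventually_differentiableAt]
    exact hgd
  have hd1 : ∀ᶠ w in 𝓝[≠] z, deriv g w ≠ 0 := by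
    rcases hga.deriv.eventually_eq_zero_or_eventually_ne_zero with h1 | h1
    · exact absurd h1 (fun h2 => hgn (h2.mono fun w hw => not_not.2 hw))
    · exact h1
  refine ⟨hgd, ?_⟩
  by_cases hzU : z ∈ U
  · have hnb := (hBo.inter hU).mem_nhds ⟨hz, hzU⟩
    have hUe : ∀ᶠ w in 𝓝 z, w ∈ U := hU.mem_nhds hzU
    have han : AnalyticAt ℂ (fun w => Ev d c w (Xo i n h g w)) z :=
      ev_an (fun k hk => (hc k hk).analyticAt hnb)
        (REG.Xo_an i n (fun hi => (hh hi).analyticAt hnb) hga)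
    have h1 : ∀ᶠ w in 𝓝[≠] z, Ev d c w (Xo i n h g w) = 0 := by
      filter_upwards [hd1, hrel.filter_mono nhdsWithin_le_nhds,
        hUe.filter_mono nhdsWithin_le_nhds] with w h2 h3 h4
      exact h3 h4 h2
    have h2 : Ev d c z (Xo i n h g z) = 0 := by
      have h3 : Tendsto (fun w => Ev d c w (Xo i n h g w)) (𝓝[≠] z)
          (𝓝 (Ev d c z (Xo i n h g z))) := han.continuousAt.tendsto.mono_left nhdsWithin_le_nhds
      exact tendsto_nhds_unique (h3.congr' h1) tendsto_const_nhds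
    rw [eventually_nhdsWithin_iff] at h1
    filter_upwards [h1] with w h3 _
    by_cases hw : w = z
    · rw [hw]; exact h2
    · exact h3 hw
  · rw [eventually_nhdsWithin_iff] at hd1
    filter_upwards [hd1, hrel] with w h1 h2 h3
    refine h2 h3 (h1 ?_)
    intro h4
    exact hzU (h4 ▸ h3)

/-- a function in the logarithmic coordinate which is somewhere a branch -/
theorem p0_of {φ : ℂ → ℂ} {r : ℝ} (hD : D0 φ r) {x : ℂ} {L : ℝ} (hx : 1 < ‖x‖)
    (hB : ∀ w ∈ ball x (Real.exp L), 1 < ‖w‖) {G : ℂ → ℂ} (hG : DifferentiableOn ℂ G (HP L))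
    {τ0 : ℂ} (hτ0 : τ0 ∈ HP L) {g : ℂ → ℂ} (hg : Branch φ r (x + exp τ0) g)
    (hGg : G =ᶠ[𝓝 τ0] fun t => g (x + exp t)) : P0 φ r x L G := by
  refine ⟨hD, hx, hG, fun τ hτ => ?_⟩
  refine clopen (HP_conv L).isPreconnected (P := fun τ => ∃ g : ℂ → ℂ,
    Branch φ r (x + exp τ) g ∧ G =ᶠ[𝓝 τ] fun t => g (x + exp t)) ?_ hτ0 ⟨g, hg, hGg⟩ τ hτ
  intro y hy
  have hexpd : ∀ t : ℂ, DifferentiableAt ℂ (fun t => x + exp t) t := fun t =>
    (differentiableAt_const _).add differentiableAt_exp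
  -- the disc in the plane of `w`
  have h1 : Tendsto (lm x y) (𝓝 (x + exp y)) (𝓝 y) := by
    have h1 : DifferentiableAt ℂ (lm x y) (x + exp y) := lm_diff (κ := 1) le_rfl
      (mem_ball_self (by rw [one_mul]; exact norm_pos_iff.2 (exp_ne_zero _)))
    have h2 := h1.continuousAt.tendsto
    rwa [lm_self] at h2
  have hxy : x + exp y ∈ ball x (Real.exp L) := by
    rw [mem_ball, dist_eq_norm, add_sub_cancel_left, norm_exp]
    exact Real.exp_lt_exp.2 hy
  have hball : ball (x + exp y) (1 * ‖exp y‖) ∈ 𝓝 (x + exp y) :=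
    isOpen_ball.mem_nhds (mem_ball_self (by rw [one_mul]; exact norm_pos_iff.2 (exp_ne_zero _)))
  obtain ⟨ρ, hρ, hρs⟩ := Metric.eventually_nhds_iff_ball.1
    (((h1.eventually ((HP_open L).mem_nhds hy)).and (isOpen_ball.mem_nhds hxy)).and hball)
  -- the disc in the plane of `τ`
  have hLe : ∀ᶠ t in 𝓝 y, t ∈ HP L := (HP_open L).mem_nhds hy
  have hbe : ∀ᶠ t in 𝓝 y, t ∈ ball y 1 := isOpen_ball.mem_nhds (mem_ball_self one_pos)
  obtain ⟨s, hs, hss⟩ := Metric.eventually_nhds_iff_ball.1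
    (((hexpd y).continuousAt.eventually (isOpen_ball.mem_nhds (mem_ball_self hρ))).and
      (hLe.and hbe))
  have hgd : DifferentiableOn ℂ (fun w => G (lm x y w)) (ball (x + exp y) ρ) := by
    intro w hw
    obtain ⟨⟨h2, -⟩, h3⟩ := hρs w hw
    have h4 : DifferentiableAt ℂ (lm x y) w := lm_diff (κ := 1) le_rfl h3
    have h5 : DifferentiableAt ℂ G (lm x y w) :=
      hG.differentiableAt ((HP_open L).mem_nhds h2)
    exact (DifferentiableAt.comp (g := G) (f := lm x y) w h5 h4).differentiableWithinAt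
  have hB' : ∀ w ∈ ball (x + exp y) ρ, 1 < ‖w‖ := fun w hw => hB w (hρs w hw).1.2
  have hGe : ∀ t ∈ ball y s, G =ᶠ[𝓝 t] fun u => (fun w => G (lm x y w)) (x + exp u) := by
    intro t ht
    filter_upwards [isOpen_ball.mem_nhds ht] with u hu
    have h2 := (hss u hu).2.2
    rw [mem_ball, dist_eq_norm] at h2
    rw [lm_eq h2]
  refine ⟨s, hs, fun t ht => (hss t ht).2.1, ?_⟩
  rintro t ht ⟨g1, hg1, hGg1⟩ u hu
  refine ⟨fun w => G (lm x y w), ?_, hGe u hu⟩
  have ht1 := (hss t ht).1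
  have hu1 := (hss u hu).1
  -- `g1` agrees with the new branch near `x + exp t`
  have heq : g1 =ᶠ[𝓝 (x + exp t)] fun w => G (lm x y w) := by
    have h2 : Tendsto (lm x y) (𝓝 (x + exp t)) (𝓝 t) := by
      have h3 : DifferentiableAt ℂ (lm x y) (x + exp t) :=
        lm_diff (κ := 1) le_rfl (hρs _ ht1).2
      have h4 := h3.continuousAt.tendsto
      have h5 := (hss t ht).2.2
      rw [mem_ball, dist_eq_norm] at h5
      rwa [lm_eq h5] at h4
    filter_upwards [h2.eventually hGg1, isOpen_ball.mem_nhds ht1] with w h3 h4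
    rw [h3, lm_exp le_rfl (hρs w h4).2, add_sub_cancel]
  exact Branch.step _ _ _ ρ g1 _ hg1 hB' hgd ht1 hu1 heq

end Pool.Agent.Helper6.SG
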