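import Pool.Agent.Helper6.SG.Stm

/-!
# Integrals over a turn: the derivatives in the starting point and in the parameter
-/

set_option autoImplicit false

open Complex MeasureTheory Metric Set Filter Topology

namespace Pool.Agent.Helper6.SG

open Pool.Agent.E8helper32.SQ (Kf HP HP_open)

variable {a Λ : ℝ} {T U f g F F' : ℂ → ℂ} {σ : ℂ}

/-- the points of a turn -/
noncomputable def ln (σ : ℂ) (t : ℝ) : ℂ := σ + t * (2 * Real.pi * I)

theorem ln_re (σ : ℂ) (t : ℝ) : (ln σ t).re = σ.re := by simp [ln]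

theorem ln_mem (h : σ ∈ HP Λ) (t : ℝ) : ln σ t ∈ HP Λ := by
  show (ln σ t).re < Λ
  rw [ln_re]
  exact h

theorem ln_zero (σ : ℂ) : ln σ 0 = σ := by simp [ln]

theorem ln_one (σ : ℂ) : ln σ 1 = σ + 2 * Real.pi * I := by simp [ln]

theorem exp_ln_one (σ : ℂ) : exp (ln σ 1) = exp σ := by
  rw [ln_one, exp_add, exp_two_pi_mul_I, mul_one]

theorem ln_cont : Continuous fun p : ℂ × ℝ => ln p.1 p.2 := by
  unfold ln
  fun_prop

theorem ln_cont2 (σ : ℂ) : Continuous fun t : ℝ => ln σ t := by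
  unfold ln
  fun_prop

theorem ln_dv (v : ℂ) (t : ℝ) : HasDerivAt (fun v => ln v t) 1 v := by
  unfold ln
  exact (hasDerivAt_id v).add_const _

theorem ln_dt (σ : ℂ) (t : ℝ) : HasDerivAt (fun t : ℝ => ln σ t) (2 * Real.pi * I) t := by
  unfold ln
  have h1 : HasDerivAt (fun t : ℝ => (t : ℂ)) 1 t := Complex.ofRealCLM.hasDerivAt
  have h2 := (h1.mul_const (2 * Real.pi * I : ℂ)).const_add σ
  rwa [one_mul] at h2

/-- the integrals -/
noncomputable def JJ (F g f : ℂ → ℂ) (σ : ℂ) : ℂ :=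
  ∫ t in (0 : ℝ)..1, F ((exp (ln σ t) - exp σ) * g (ln σ t)) * f (ln σ t) *
    (exp (ln σ t) * (2 * Real.pi * I))

theorem comp_ln (hg : ContinuousOn g (HP Λ)) :
    ContinuousOn (fun p : ℂ × ℝ => g (ln p.1 p.2)) (HP Λ ×ˢ Icc 0 1) :=
  hg.comp ln_cont.continuousOn fun p hp => ln_mem hp.1 p.2

theorem comp_ln2 (hg : ContinuousOn g (HP Λ)) (hσ : σ ∈ HP Λ) :
    Continuous fun t : ℝ => g (ln σ t) :=
  hg.comp_continuous (ln_cont2 σ) fun t => ln_mem hσ t

/-- the derivative in the starting point -/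
theorem jj_deriv (hPAR : S_PAR) (hF : ∀ y, HasDerivAt F (F' y) y) (hF' : Continuous F')
    (hg : DifferentiableOn ℂ g (HP Λ)) (hf : DifferentiableOn ℂ f (HP Λ)) (hσ : σ ∈ HP Λ) :
    HasDerivAt (JJ F g f) (exp σ * (F 0 * (f (σ + 2 * Real.pi * I) - f σ) -
      JJ F' g (fun s => g s * f s) σ)) σ := by
  have hFc : Continuous F := continuous_iff_continuousAt.2 fun y => (hF y).continuousAt
  have hdg : ContinuousOn (deriv g) (HP Λ) := (hg.deriv (HP_open Λ)).continuousOn
  have hdf : ContinuousOn (deriv f) (HP Λ) := (hf.deriv (HP_open Λ)).continuousOn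
  have hgd : ∀ s ∈ HP Λ, HasDerivAt g (deriv g s) s := fun s hs =>
    (hg.differentiableAt ((HP_open Λ).mem_nhds hs)).hasDerivAt
  have hfd : ∀ s ∈ HP Λ, HasDerivAt f (deriv f s) s := fun s hs =>
    (hf.differentiableAt ((HP_open Λ).mem_nhds hs)).hasDerivAt
  have cE : Continuous fun p : ℂ × ℝ => exp (ln p.1 p.2) := ln_cont.cexp
  have cx : Continuous fun p : ℂ × ℝ => exp (ln p.1 p.2) - exp p.1 :=
    cE.sub continuous_fst.cexp
  have cg := comp_ln hg.continuousOn
  have cf := comp_ln hf.continuousOn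
  have cdg := comp_ln hdg
  have cdf := comp_ln hdf
  have cxg : ContinuousOn (fun p : ℂ × ℝ => (exp (ln p.1 p.2) - exp p.1) * g (ln p.1 p.2))
      (HP Λ ×ˢ Icc 0 1) := cx.continuousOn.mul cg
  have cF : ContinuousOn (fun p : ℂ × ℝ => F ((exp (ln p.1 p.2) - exp p.1) * g (ln p.1 p.2)))
      (HP Λ ×ˢ Icc 0 1) := hFc.comp_continuousOn cxg
  have cF' : ContinuousOn (fun p : ℂ × ℝ => F' ((exp (ln p.1 p.2) - exp p.1) * g (ln p.1 p.2)))
      (HP Λ ×ˢ Icc 0 1) := hF'.comp_continuousOn cxg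
  have h := hPAR (HP Λ)
    (fun v t => F ((exp (ln v t) - exp v) * g (ln v t)) * f (ln v t) *
      (exp (ln v t) * (2 * Real.pi * I)))
    (fun v t => (F' ((exp (ln v t) - exp v) * g (ln v t)) *
      ((exp (ln v t) - exp v) * g (ln v t) + (exp (ln v t) - exp v) * deriv g (ln v t)) *
        f (ln v t) + F ((exp (ln v t) - exp v) * g (ln v t)) * deriv f (ln v t) +
        F ((exp (ln v t) - exp v) * g (ln v t)) * f (ln v t)) *
      (exp (ln v t) * (2 * Real.pi * I))) (HP_open Λ)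
    ((cF.mul cf).mul (cE.mul continuous_const).continuousOn)
    (((((cF'.mul ((cx.continuousOn.mul cg).add (cx.continuousOn.mul cdg))).mul cf).add
      (cF.mul cdf)).add (cF.mul cf)).mul (cE.mul continuous_const).continuousOn) (by
    intro v hv t _
    have e1 : HasDerivAt (fun v => exp (ln v t)) (exp (ln v t) * 1) v := (ln_dv v t).cexp
    have e2 : HasDerivAt (fun v => exp (ln v t) - exp v) (exp (ln v t) * 1 - exp v) v :=
      e1.sub (hasDerivAt_exp v)
    have e3 : HasDerivAt (fun v => g (ln v t)) (deriv g (ln v t) * 1) v :=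
      (hgd _ (ln_mem hv t)).comp v (ln_dv v t)
    have e4 : HasDerivAt (fun v => f (ln v t)) (deriv f (ln v t) * 1) v :=
      (hfd _ (ln_mem hv t)).comp v (ln_dv v t)
    have e5 := (hF ((exp (ln v t) - exp v) * g (ln v t))).comp v (e2.mul e3)
    have e6 := (e5.mul e4).mul (e1.mul_const (2 * Real.pi * I : ℂ))
    refine e6.congr_deriv ?_
    simp only [Function.comp_apply, Pi.mul_apply]
    ring) σ hσ
  refine h.congr_deriv ?_
  -- the total derivative
  have dE : Continuous fun t : ℝ => exp (ln σ t) := (ln_cont2 σ).cexp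
  have dx : Continuous fun t : ℝ => exp (ln σ t) - exp σ := dE.sub continuous_const
  have dg := comp_ln2 hg.continuousOn hσ
  have df := comp_ln2 hf.continuousOn hσ
  have ddg := comp_ln2 hdg hσ
  have ddf := comp_ln2 hdf hσ
  have dF : Continuous fun t : ℝ => F ((exp (ln σ t) - exp σ) * g (ln σ t)) :=
    hFc.comp (dx.mul dg)
  have dF' : Continuous fun t : ℝ => F' ((exp (ln σ t) - exp σ) * g (ln σ t)) :=
    hF'.comp (dx.mul dg)
  set R : ℝ → ℂ := fun t => F ((exp (ln σ t) - exp σ) * g (ln σ t)) * f (ln σ t) * exp (ln σ t)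
    with hR
  set R' : ℝ → ℂ := fun t => (F' ((exp (ln σ t) - exp σ) * g (ln σ t)) *
      (exp (ln σ t) * g (ln σ t) + (exp (ln σ t) - exp σ) * deriv g (ln σ t)) *
        f (ln σ t) + F ((exp (ln σ t) - exp σ) * g (ln σ t)) * deriv f (ln σ t) +
        F ((exp (ln σ t) - exp σ) * g (ln σ t)) * f (ln σ t)) *
      (exp (ln σ t) * (2 * Real.pi * I)) with hR'
  have hRd : ∀ t : ℝ, HasDerivAt R (R' t) t := by
    intro t
    have e1 : HasDerivAt (fun t : ℝ => exp (ln σ t)) (exp (ln σ t) * (2 * Real.pi * I)) t :=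
      (ln_dt σ t).cexp
    have e2 : HasDerivAt (fun t : ℝ => exp (ln σ t) - exp σ) (exp (ln σ t) * (2 * Real.pi * I)) t :=
      e1.sub_const _
    have e3 : HasDerivAt (fun t : ℝ => g (ln σ t)) (deriv g (ln σ t) * (2 * Real.pi * I)) t :=
      (hgd _ (ln_mem hσ t)).comp t (ln_dt σ t)
    have e4 : HasDerivAt (fun t : ℝ => f (ln σ t)) (deriv f (ln σ t) * (2 * Real.pi * I)) t :=
      (hfd _ (ln_mem hσ t)).comp t (ln_dt σ t)
    have e5 := (hF ((exp (ln σ t) - exp σ) * g (ln σ t))).comp t (e2.mul e3)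
    have e6 := (e5.mul e4).mul e1
    refine e6.congr_deriv ?_
    simp only [Function.comp_apply, Pi.mul_apply, hR']
    ring
  have hR'c : Continuous R' :=
    ((((dF'.mul ((dE.mul dg).add (dx.mul ddg))).mul df).add (dF.mul ddf)).add (dF.mul df)).mul
      (dE.mul continuous_const)
  have hFTC : ∫ t in (0 : ℝ)..1, R' t = R 1 - R 0 :=
    intervalIntegral.integral_eq_sub_of_hasDerivAt (fun t _ => hRd t)
      (hR'c.intervalIntegrable _ _)
  have hR1 : R 1 - R 0 = exp σ * (F 0 * (f (σ + 2 * Real.pi * I) - f σ)) := by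
    rw [hR]
    simp only
    rw [exp_ln_one, ln_one, ln_zero, sub_self, zero_mul, zero_mul]
    ring
  have hJc : Continuous fun t : ℝ => F' ((exp (ln σ t) - exp σ) * g (ln σ t)) *
      (g (ln σ t) * f (ln σ t)) * (exp (ln σ t) * (2 * Real.pi * I)) :=
    (dF'.mul (dg.mul df)).mul (dE.mul continuous_const)
  have hsub : (∫ t in (0 : ℝ)..1, (R' t - exp σ * (F' ((exp (ln σ t) - exp σ) * g (ln σ t)) *
      (g (ln σ t) * f (ln σ t)) * (exp (ln σ t) * (2 * Real.pi * I))))) =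
      exp σ * (F 0 * (f (σ + 2 * Real.pi * I) - f σ) - JJ F' g (fun s => g s * f s) σ) := by
    have hJc2 : Continuous fun t : ℝ => exp σ * (F' ((exp (ln σ t) - exp σ) * g (ln σ t)) *
      (g (ln σ t) * f (ln σ t)) * (exp (ln σ t) * (2 * Real.pi * I))) := continuous_const.mul hJc
    rw [intervalIntegral.integral_sub (hR'c.intervalIntegrable _ _)
      (hJc2.intervalIntegrable _ _), hFTC, hR1, intervalIntegral.integral_const_mul]
    unfold JJ
    ring
  rw [← hsub]
  refine intervalIntegral.integral_congr fun t _ => ?_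
  simp only [hR']
  ring

/-- from the vanishing of the integrals for all starting points -/
theorem jj_level (hPAR : S_PAR) (hF : ∀ y, HasDerivAt F (F' y) y) (hF' : Continuous F')
    (hg : DifferentiableOn ℂ g (HP Λ)) (hf : DifferentiableOn ℂ f (HP Λ))
    (h0 : ∀ σ ∈ HP Λ, JJ F g f σ = 0) (hσ : σ ∈ HP Λ) :
    F 0 * (f (σ + 2 * Real.pi * I) - f σ) = JJ F' g (fun s => g s * f s) σ := by
  have h1 := jj_deriv hPAR hF hF' hg hf hσ
  have h2 : HasDerivAt (JJ F g f) 0 σ := by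
    refine (hasDerivAt_const σ (0 : ℂ)).congr_of_eventuallyEq ?_
    filter_upwards [(HP_open Λ).mem_nhds hσ] with s hs
    exact h0 s hs
  have h3 := h1.unique h2
  exact sub_eq_zero.1 ((mul_eq_zero.1 h3).resolve_left (exp_ne_zero σ))

theorem param_aux {K0 K1 : ℂ → ℂ} (hK1d : Differentiable ℂ K1)
    (hK : ∀ y, HasDerivAt (fun y => y * K1 y) (-(a : ℂ) * K0 y) y) (x T0 U0 f0 W s : ℂ) :
    HasDerivAt (fun s => K1 (x * (T0 + s * U0)) * ((T0 + s * U0) * f0) * W)
      (-(a : ℂ) * (K0 (x * (T0 + s * U0)) * (U0 * f0) * W)) s := by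
  have e0 : HasDerivAt (fun s : ℂ => T0 + s * U0) U0 s := by
    have := ((hasDerivAt_id s).mul_const U0).const_add T0
    rwa [one_mul] at this
  have e1 : HasDerivAt (fun s : ℂ => x * (T0 + s * U0)) (x * U0) s := e0.const_mul x
  have e2 : HasDerivAt (fun s : ℂ => K1 (x * (T0 + s * U0)))
      (deriv K1 (x * (T0 + s * U0)) * (x * U0)) s :=
    HasDerivAt.comp (h₂ := K1) s (hK1d (x * (T0 + s * U0))).hasDerivAt e1
  have e3 : HasDerivAt (fun s : ℂ => K1 (x * (T0 + s * U0)) * ((T0 + s * U0) * f0) * W)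
      ((deriv K1 (x * (T0 + s * U0)) * (x * U0) * ((T0 + s * U0) * f0) +
        K1 (x * (T0 + s * U0)) * (U0 * f0)) * W) s :=
    (e2.mul (e0.mul_const f0)).mul_const W
  refine e3.congr_deriv ?_
  have e4 : HasDerivAt (fun y : ℂ => y * K1 y) (1 * K1 (x * (T0 + s * U0)) +
      (x * (T0 + s * U0)) * deriv K1 (x * (T0 + s * U0))) (x * (T0 + s * U0)) :=
    (hasDerivAt_id _).mul (hK1d _).hasDerivAt
  have e5 := e4.unique (hK (x * (T0 + s * U0)))
  linear_combination (U0 * f0 * W) * e5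

/-- the derivative in the parameter -/
theorem jj_param (hPAR : S_PAR) {K0 K1 : ℂ → ℂ} (hK1d : Differentiable ℂ K1)
    (hK : ∀ y, HasDerivAt (fun y => y * K1 y) (-(a : ℂ) * K0 y) y) (hK0 : Continuous K0)
    (hT : DifferentiableOn ℂ T (HP Λ)) (hU : DifferentiableOn ℂ U (HP Λ))
    (hf : DifferentiableOn ℂ f (HP Λ)) (hσ : σ ∈ HP Λ) (s : ℂ) :
    HasDerivAt (fun s => JJ K1 (fun z => T z + s * U z) (fun z => (T z + s * U z) * f z) σ)
      (-(a : ℂ) * JJ K0 (fun z => T z + s * U z) (fun z => U z * f z) σ) s := by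
  have hK1c : Continuous K1 := hK1d.continuous
  have dE : Continuous fun t : ℝ => exp (ln σ t) := (ln_cont2 σ).cexp
  have dx : Continuous fun t : ℝ => exp (ln σ t) - exp σ := dE.sub continuous_const
  have dT := comp_ln2 hT.continuousOn hσ
  have dU := comp_ln2 hU.continuousOn hσ
  have df := comp_ln2 hf.continuousOn hσ
  have q1 : Continuous fun p : ℂ × ℝ => exp (ln σ p.2) - exp σ := dx.comp continuous_snd
  have qE : Continuous fun p : ℂ × ℝ => exp (ln σ p.2) * (2 * Real.pi * I) :=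
    (dE.comp continuous_snd).mul continuous_const
  have qT : Continuous fun p : ℂ × ℝ => T (ln σ p.2) := dT.comp continuous_snd
  have qU : Continuous fun p : ℂ × ℝ => U (ln σ p.2) := dU.comp continuous_snd
  have qf : Continuous fun p : ℂ × ℝ => f (ln σ p.2) := df.comp continuous_snd
  have cτ : Continuous fun p : ℂ × ℝ => T (ln σ p.2) + p.1 * U (ln σ p.2) :=
    qT.add (continuous_fst.mul qU)
  have qx : Continuous fun p : ℂ × ℝ => (exp (ln σ p.2) - exp σ) *
      (T (ln σ p.2) + p.1 * U (ln σ p.2)) := q1.mul cτ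
  have r1 : Continuous fun p : ℂ × ℝ => K1 ((exp (ln σ p.2) - exp σ) *
      (T (ln σ p.2) + p.1 * U (ln σ p.2))) := hK1c.comp qx
  have r0 : Continuous fun p : ℂ × ℝ => K0 ((exp (ln σ p.2) - exp σ) *
      (T (ln σ p.2) + p.1 * U (ln σ p.2))) := hK0.comp qx
  have r2 : Continuous fun p : ℂ × ℝ => (T (ln σ p.2) + p.1 * U (ln σ p.2)) * f (ln σ p.2) :=
    cτ.mul qf
  have r3 : Continuous fun p : ℂ × ℝ => U (ln σ p.2) * f (ln σ p.2) := qU.mul qf
  have s1 : Continuous fun p : ℂ × ℝ => K1 ((exp (ln σ p.2) - exp σ) *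
      (T (ln σ p.2) + p.1 * U (ln σ p.2))) *
      ((T (ln σ p.2) + p.1 * U (ln σ p.2)) * f (ln σ p.2)) *
      (exp (ln σ p.2) * (2 * Real.pi * I)) := (r1.mul r2).mul qE
  have s0 : Continuous fun p : ℂ × ℝ => -(a : ℂ) * (K0 ((exp (ln σ p.2) - exp σ) *
      (T (ln σ p.2) + p.1 * U (ln σ p.2))) * (U (ln σ p.2) * f (ln σ p.2)) *
      (exp (ln σ p.2) * (2 * Real.pi * I))) := continuous_const.mul ((r0.mul r3).mul qE)
  have hder : ∀ v ∈ (univ : Set ℂ), ∀ t ∈ Icc (0 : ℝ) 1, HasDerivAt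
      (fun v => K1 ((exp (ln σ t) - exp σ) * (T (ln σ t) + v * U (ln σ t))) *
      ((T (ln σ t) + v * U (ln σ t)) * f (ln σ t)) * (exp (ln σ t) * (2 * Real.pi * I)))
      (-(a : ℂ) * (K0 ((exp (ln σ t) - exp σ) * (T (ln σ t) + v * U (ln σ t))) *
      (U (ln σ t) * f (ln σ t)) * (exp (ln σ t) * (2 * Real.pi * I)))) v := fun v _ t _ =>
    param_aux hK1d hK (exp (ln σ t) - exp σ) (T (ln σ t)) (U (ln σ t)) (f (ln σ t))
      (exp (ln σ t) * (2 * Real.pi * I)) v
  have h := hPAR univ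
    (fun s t => K1 ((exp (ln σ t) - exp σ) * (T (ln σ t) + s * U (ln σ t))) *
      ((T (ln σ t) + s * U (ln σ t)) * f (ln σ t)) * (exp (ln σ t) * (2 * Real.pi * I)))
    (fun s t => -(a : ℂ) * (K0 ((exp (ln σ t) - exp σ) * (T (ln σ t) + s * U (ln σ t))) *
      (U (ln σ t) * f (ln σ t)) * (exp (ln σ t) * (2 * Real.pi * I)))) isOpen_univ
    s1.continuousOn s0.continuousOn hder s (mem_univ s)
  refine (h.congr_deriv ?_)
  rw [intervalIntegral.integral_const_mul]
  rfl

end Pool.Agent.Helper6.SG
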