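import Pool.Agent.Helper6.SG.Stm

/-!
# The kernel `Kf`, differentiation under the integral sign (helper71)
-/

set_option autoImplicit false

open Complex MeasureTheory Metric Set Filter Topology

namespace Pool.Agent.Helper6.SG.KF

open Pool.Agent.E8helper32.SQ (Kf)

/-- differentiation of a power series with infinite radius of convergence -/
theorem ser (c : ℕ → ℂ) (hc : ∀ r : ℝ, 0 ≤ r → Summable fun l => ‖c l‖ * r ^ l) (y : ℂ) :
    HasDerivAt (fun z : ℂ => ∑' l, c l * z ^ l) (∑' l : ℕ, ((l : ℂ) + 1) * c (l + 1) * y ^ l) y := by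
  set R : ℝ := ‖y‖ + 1 with hR
  have hR1 : 1 ≤ R := by
    have := norm_nonneg y
    linarith
  have hbd : ∀ (n : ℕ) (z : ℂ), z ∈ ball (0 : ℂ) R →
      ‖c n * ((n : ℂ) * z ^ (n - 1))‖ ≤ ‖c n‖ * (2 * R) ^ n := by
    intro n z hz
    rw [mem_ball_zero_iff] at hz
    rw [norm_mul, norm_mul, norm_pow, Complex.norm_natCast, mul_pow]
    have h1 : (n : ℝ) ≤ 2 ^ n := by exact_mod_cast Nat.lt_two_pow_self.le
    have h2 : ‖z‖ ^ (n - 1) ≤ R ^ n :=
      (pow_le_pow_left₀ (norm_nonneg z) hz.le _).trans (pow_le_pow_right₀ hR1 (Nat.sub_le n 1))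
    gcongr
  have h := hasDerivAt_tsum_of_isPreconnected (𝕜 := ℂ) (t := ball (0 : ℂ) R)
    (g := fun (n : ℕ) (z : ℂ) => c n * z ^ n) (g' := fun (n : ℕ) (z : ℂ) => c n * ((n : ℂ) * z ^ (n - 1)))
    (u := fun n => ‖c n‖ * (2 * R) ^ n) (y₀ := y) (y := y) (hc (2 * R) (by linarith)) isOpen_ball
    (convex_ball (0 : ℂ) R).isPreconnected
    (fun n z _ => (hasDerivAt_pow n z).const_mul (c n)) hbd
    (by rw [mem_ball_zero_iff]; linarith)
    (by
      refine Summable.of_norm_bounded (hc ‖y‖ (norm_nonneg y)) fun n => ?_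
      rw [norm_mul, norm_pow])
    (by rw [mem_ball_zero_iff]; linarith)
  have hsum : Summable fun n : ℕ => c n * ((n : ℂ) * y ^ (n - 1)) :=
    Summable.of_norm_bounded (hc (2 * R) (by linarith)) fun n => hbd n y (by
      rw [mem_ball_zero_iff]; linarith)
  have e : ∑' n : ℕ, c n * ((n : ℂ) * y ^ (n - 1)) = ∑' l : ℕ, ((l : ℂ) + 1) * c (l + 1) * y ^ l := by
    rw [hsum.tsum_eq_zero_add]
    simp only [Nat.cast_zero, zero_mul, mul_zero, zero_add]
    refine tsum_congr fun l => ?_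
    rw [Nat.add_sub_cancel]
    push_cast
    ring
  rw [← e]
  exact h

/-- the coefficients of `Kf` -/
noncomputable def cf (a : ℝ) (l : ℕ) : ℂ := (-(a : ℂ)) ^ (l + 1) / (l.factorial : ℂ) ^ 2

/-- the coefficients of the derivative -/
noncomputable def df (a : ℝ) (l : ℕ) : ℂ :=
  (-(a : ℂ)) ^ (l + 2) / ((l.factorial : ℂ) * ((l + 1).factorial : ℂ))

/-- the coefficients of `y K1 y` -/
noncomputable def ef (a : ℝ) : ℕ → ℂ
  | 0 => 0
  | l + 1 => df a l

theorem Kf_eq (a : ℝ) (y : ℂ) : Kf a y = ∑' l, cf a l * y ^ l := by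
  unfold Kf cf
  refine tsum_congr fun l => ?_
  ring

theorem fac_one (l : ℕ) : (1 : ℝ) ≤ (l.factorial : ℝ) := by exact_mod_cast l.factorial_pos

theorem sum_cf {a : ℝ} (ha : 0 < a) (r : ℝ) (hr : 0 ≤ r) : Summable fun l => ‖cf a l‖ * r ^ l := by
  refine Summable.of_nonneg_of_le (fun l => by positivity) (fun l => ?_)
    ((Real.summable_pow_div_factorial (a * r)).mul_left a)
  have hf := fac_one l
  have hf0 : (0 : ℝ) < (l.factorial : ℝ) := by linarith
  rw [cf, norm_div, norm_pow, norm_pow, norm_neg, norm_real, Real.norm_of_nonneg ha.le,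
    Complex.norm_natCast, mul_pow, pow_succ]
  have h1 : a ^ l * a / (l.factorial : ℝ) ^ 2 * r ^ l = a * (a ^ l * r ^ l / (l.factorial : ℝ)) *
      (1 / (l.factorial : ℝ)) := by
    field_simp
  rw [h1]
  have h2 : 1 / (l.factorial : ℝ) ≤ 1 := (div_le_one hf0).2 hf
  exact mul_le_of_le_one_right (by positivity) h2

theorem sum_df {a : ℝ} (ha : 0 < a) (r : ℝ) (hr : 0 ≤ r) : Summable fun l => ‖df a l‖ * r ^ l := by
  refine Summable.of_nonneg_of_le (fun l => by positivity) (fun l => ?_)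
    ((Real.summable_pow_div_factorial (a * r)).mul_left (a ^ 2))
  have hf := fac_one (l + 1)
  have hf0 : (0 : ℝ) < ((l + 1).factorial : ℝ) := by linarith
  have hf1 : (0 : ℝ) < (l.factorial : ℝ) := by
    have := fac_one l
    linarith
  rw [df, norm_div, norm_mul, norm_pow, norm_neg, norm_real, Real.norm_of_nonneg ha.le,
    Complex.norm_natCast, Complex.norm_natCast, mul_pow, pow_add]
  have h1 : a ^ l * a ^ 2 / ((l.factorial : ℝ) * ((l + 1).factorial : ℝ)) * r ^ l =
      a ^ 2 * (a ^ l * r ^ l / (l.factorial : ℝ)) * (1 / ((l + 1).factorial : ℝ)) := by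
    field_simp
  rw [h1]
  have h2 : 1 / ((l + 1).factorial : ℝ) ≤ 1 := (div_le_one hf0).2 hf
  exact mul_le_of_le_one_right (by positivity) h2

theorem sum_ef {a : ℝ} (ha : 0 < a) (r : ℝ) (hr : 0 ≤ r) : Summable fun l => ‖ef a l‖ * r ^ l := by
  rw [← summable_nat_add_iff 1]
  have h := (sum_df ha r hr).mul_right r
  refine h.congr fun l => ?_
  change ‖df a l‖ * r ^ l * r = ‖df a l‖ * r ^ (l + 1)
  rw [pow_succ, mul_assoc]

theorem growth {a : ℝ} (ha : 0 < a) (y : ℂ) :
    ‖Kf a y‖ ≤ a * Real.exp (2 * Real.sqrt a * Real.sqrt ‖y‖) := by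
  set r : ℝ := Real.sqrt (a * ‖y‖) with hr
  have hr0 : 0 ≤ r := Real.sqrt_nonneg _
  have hr2 : r ^ 2 = a * ‖y‖ := Real.sq_sqrt (by positivity)
  have hs : HasSum (fun l : ℕ => r ^ l / (l.factorial : ℝ)) (Real.exp r) := by
    rw [Real.exp_eq_exp_ℝ]
    exact NormedSpace.expSeries_div_hasSum_exp r
  have hterm : ∀ l : ℕ, ‖cf a l * y ^ l‖ ≤ a * (r ^ l / (l.factorial : ℝ) * Real.exp r) := by
    intro l
    have hf := fac_one l
    have hf0 : (0 : ℝ) < (l.factorial : ℝ) := by linarith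
    rw [norm_mul, cf, norm_div, norm_pow, norm_pow, norm_pow, norm_neg, norm_real,
      Real.norm_of_nonneg ha.le, Complex.norm_natCast, pow_succ]
    have h1 : a ^ l * a / (l.factorial : ℝ) ^ 2 * ‖y‖ ^ l =
        a * (r ^ l / (l.factorial : ℝ) * (r ^ l / (l.factorial : ℝ))) := by
      have h2 : r ^ l * r ^ l = a ^ l * ‖y‖ ^ l := by
        rw [← mul_pow, ← pow_two, hr2, mul_pow]
      field_simp
      rw [pow_two, h2]
    rw [h1]
    have h3 : r ^ l / (l.factorial : ℝ) ≤ Real.exp r := Real.pow_div_factorial_le_exp r hr0 l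
    gcongr
  have hsum : Summable fun l : ℕ => a * (r ^ l / (l.factorial : ℝ) * Real.exp r) :=
    (hs.summable.mul_right _).mul_left _
  rw [Kf_eq]
  refine (tsum_of_norm_bounded (hsum.hasSum) hterm).trans ?_
  rw [tsum_mul_left, tsum_mul_right, hs.tsum_eq, ← Real.exp_add]
  have h4 : r = Real.sqrt a * Real.sqrt ‖y‖ := by
    rw [hr, Real.sqrt_mul ha.le]
  rw [h4]
  apply le_of_eq
  congr 2
  ring

theorem main : S_KF := by
  intro a ha
  have ha0 : (a : ℂ) ≠ 0 := by exact_mod_cast ha.ne'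
  refine ⟨fun y => ∑' l, df a l * y ^ l, a, 2 * Real.sqrt a, ha.le, by positivity, ?_, ?_, ?_, ?_,
    ?_, growth ha⟩
  · intro y
    exact (ser (df a) (sum_df ha) y).differentiableAt
  · intro y
    have h := ser (cf a) (sum_cf ha) y
    have e1 : (fun z : ℂ => ∑' l, cf a l * z ^ l) = Kf a := funext fun z => (Kf_eq a z).symm
    rw [e1] at h
    have e2 : ∑' l : ℕ, ((l : ℂ) + 1) * cf a (l + 1) * y ^ l = ∑' l, df a l * y ^ l := by
      refine tsum_congr fun l => ?_
      congr 1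
      rw [cf, df, Nat.factorial_succ]
      have h1 : (l.factorial : ℂ) ≠ 0 := by exact_mod_cast l.factorial_ne_zero
      have h2 : ((l : ℂ) + 1) ≠ 0 := by exact_mod_cast Nat.succ_ne_zero l
      push_cast
      field_simp
    rw [e2] at h
    exact h
  · intro y
    have h := ser (ef a) (sum_ef ha) y
    have e1 : (fun z : ℂ => ∑' l, ef a l * z ^ l) = fun z => z * ∑' l, df a l * z ^ l := by
      funext z
      have hsum : Summable fun l => ef a l * z ^ l := by
        refine Summable.of_norm_bounded (sum_ef ha ‖z‖ (norm_nonneg z)) fun n => ?_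
        rw [norm_mul, norm_pow]
      rw [hsum.tsum_eq_zero_add, ← tsum_mul_left]
      change (0 : ℂ) * z ^ 0 + _ = _
      rw [zero_mul, zero_add]
      refine tsum_congr fun l => ?_
      change df a l * z ^ (l + 1) = _
      ring
    rw [e1] at h
    have e2 : ∑' l : ℕ, ((l : ℂ) + 1) * ef a (l + 1) * y ^ l = -(a : ℂ) * Kf a y := by
      rw [Kf_eq, ← tsum_mul_left]
      refine tsum_congr fun l => ?_
      change ((l : ℂ) + 1) * df a l * y ^ l = _
      rw [cf, df, Nat.factorial_succ]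
      have h1 : (l.factorial : ℂ) ≠ 0 := by exact_mod_cast l.factorial_ne_zero
      have h2 : ((l : ℂ) + 1) ≠ 0 := by exact_mod_cast Nat.succ_ne_zero l
      push_cast
      field_simp
      ring
    rw [e2] at h
    exact h
  · rw [Kf_eq, tsum_eq_single 0]
    · rw [cf]
      simp
    · intro l hl
      rw [zero_pow hl, mul_zero]
  · change ∑' l, df a l * (0 : ℂ) ^ l ≠ 0
    rw [tsum_eq_single 0]
    · rw [df]
      simp [ha0]
    · intro l hl
      rw [zero_pow hl, mul_zero]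

theorem par : S_PAR := by
  intro V F F' hV hF hF' hd v hv
  obtain ⟨δ, hδ, hδV⟩ := Metric.nhds_basis_closedBall.mem_iff.1 (hV.mem_nhds hv)
  have hK : IsCompact (closedBall v δ ×ˢ Icc (0 : ℝ) 1) :=
    (isCompact_closedBall v δ).prod isCompact_Icc
  obtain ⟨M, hM⟩ := hK.exists_bound_of_continuousOn (f := fun p : ℂ × ℝ => F' p.1 p.2)
    (hF'.mono (prod_mono hδV (le_refl _)))
  have hIoc : uIoc (0 : ℝ) 1 = Ioc 0 1 := uIoc_of_le zero_le_one
  have hcont : ∀ (G : ℂ → ℝ → ℂ), ContinuousOn (fun p : ℂ × ℝ => G p.1 p.2) (V ×ˢ Icc 0 1) →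
      ∀ u ∈ V, ContinuousOn (G u) (Icc 0 1) := by
    intro G hG u hu
    exact hG.comp (f := fun t : ℝ => (u, t)) (by fun_prop) fun t ht => ⟨hu, ht⟩
  have h := intervalIntegral.hasDerivAt_integral_of_dominated_loc_of_deriv_le (𝕜 := ℂ)
    (μ := volume) (F := F) (F' := F') (a := 0) (b := 1) (x₀ := v) (bound := fun _ => M)
    (s := closedBall v δ) (closedBall_mem_nhds v hδ)
    (by
      filter_upwards [hV.mem_nhds hv] with u hu
      rw [hIoc]
      exact ((hcont F hF u hu).mono Ioc_subset_Icc_self).aestronglyMeasurable measurableSet_Ioc)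
    ((hcont F hF v hv).intervalIntegrable_of_Icc zero_le_one)
    (by
      rw [hIoc]
      exact ((hcont F' hF' v hv).mono Ioc_subset_Icc_self).aestronglyMeasurable measurableSet_Ioc)
    (by
      refine Eventually.of_forall fun t ht u hu => ?_
      rw [hIoc] at ht
      exact hM (u, t) ⟨hu, ht.1.le, ht.2⟩)
    intervalIntegrable_const
    (by
      refine Eventually.of_forall fun t ht u hu => ?_
      rw [hIoc] at ht
      exact hd u (hδV hu) t ⟨ht.1.le, ht.2⟩)
  exact h.2

end Pool.Agent.Helper6.SG.KF
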