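import Pool.Agent.Helper6.SG.Core

/-!
# The local theorem for linear families
-/

set_option autoImplicit false

open Complex MeasureTheory Metric Set Filter Topology ComplexConjugate

namespace Pool.Agent.Helper6.SG

open Pool.Agent.Results.MP_83fd13_an.BranchSingularities
open Pool.Agent.Y245.UC (Rf VG)
open Pool.Agent.E8helper32.SA (per per_re exp_add_per)
open Pool.Agent.E8helper32.SL
open Pool.Agent.E8helper32.SP (OP)
open Pool.Agent.E8helper32.SQ (Kf HP HP_open HP_conv)
open Pool.Agent.Helper6.SF (HP_per BCusp conj_perq four per_case)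

variable {φ : ℂ → ℂ} {r lam : ℝ} {w1 : ℂ} {L Λ : ℝ} {G ℓ : ℂ → ℂ} {κ c : ℂ} {N : ℕ}

/-- the relation for `T` from the one for `G` -/
theorem ts_rel (hC : Co φ r w1 L Λ ℓ) (hκ0 : κ ≠ 0)
    (hV : ∀ τ ∈ HP L, G (τ + per N + per N) - G (τ + per N) = κ * (G (τ + per N) - G τ) + c)
    {z : ℂ} (hz : z ∈ HP Λ) : Ts G ℓ (z + per N + per N) - Ts G ℓ (z + per N) =
      (conj κ)⁻¹ * (Ts G ℓ (z + per N) - Ts G ℓ z) + (conj κ)⁻¹ * conj c := by
  have hz' : z.re < Λ := hz
  have hκ' : conj κ ≠ 0 := (map_ne_zero _).2 hκ0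
  have h0 := hC.re_lt hz'
  obtain ⟨u, hu⟩ : ∃ u, u = conj (z + ℓ (exp z)) := ⟨_, rfl⟩
  have e0 : Ts G ℓ z = conj (G u) := by rw [hu]; rfl
  have e1 : Ts G ℓ (z + per N) = conj (G (u - per N)) := by
    unfold Ts
    rw [exp_add_per, hu]
    congr 2
    rw [map_add, map_add, conj_perq, map_add]
    ring
  have e2 : Ts G ℓ (z + per N + per N) = conj (G (u - per N - per N)) := by
    unfold Ts
    rw [exp_add_per, exp_add_per, hu]
    congr 2
    rw [map_add, map_add, map_add, conj_perq, map_add]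
    ring
  have hmem : u - per N - per N ∈ HP L := by
    refine HP_sub (HP_sub ?_ N) N
    show u.re < L
    rw [hu, conj_re]
    exact h0
  have h1 := hV _ hmem
  rw [show u - per N - per N + per N = u - per N by ring, sub_add_cancel] at h1
  have h2 := congrArg conj h1
  rw [map_sub, map_add, map_mul, map_sub, ← e0, ← e1, ← e2] at h2
  field_simp
  linear_combination h2

/-- the conclusion if several turns add a constant -/
theorem add_case (hS : SData φ r lam) (hG : P0 φ r w1 L G)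
    (hB : ∀ w ∈ ball w1 (Real.exp L), 1 < ‖w‖) (hC : Co φ r w1 L Λ ℓ) {B : Set ℂ} (hwB : w1 ∈ B)
    {m : ℕ} (hm : 0 < m) {Δ : ℂ} (hT : ∀ z ∈ HP Λ, Ts G ℓ (z + per m) = Ts G ℓ z + Δ) :
    (∃ E : ℂ → ℂ, DifferentiableOn ℂ E (ball w1 (Real.exp L)) ∧
      ∀ τ : ℂ, τ.re < L → G τ = E (w1 + exp τ)) ∨ BCusp φ r lam m B := by
  by_cases hΔ : Δ = 0
  · subst hΔ
    simp only [add_zero] at hT
    exact per_case hG hS.hlam hS.hBU hS.hNF hS.hVG hB hC hm hT hwB (N := m) hm le_rfl
      (a := 1) (b := 0) (c := 0) (d := 1) (by norm_num) (fun σ hσ => by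
        rw [hT σ hσ]; ring)
  · left
    have hper2 : ∀ σ : ℂ, σ.re < Λ → Ts G ℓ (σ + per (2 * m)) = Ts G ℓ σ + 2 * Δ := by
      intro σ hσ
      have e : σ + per (2 * m) = σ + per m + per m := by unfold per; push_cast; ring
      rw [e, hT _ (HP_per (show σ ∈ HP Λ from hσ) m), hT σ hσ]
      ring
    rcases four hG hS.hlam hS.hBU hS.hNF hS.hVG hB hC (q := 2 * m) (by omega) hper2 with
      h | ⟨h, -⟩
    · exact h
    · exfalso
      exact hΔ ((mul_eq_zero.1 h).resolve_left two_ne_zero)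

/-- **The local theorem for linear families.** -/
theorem lin : S_LIN := by
  intro φ r lam w1 L G B N κ c hS hG hB hwB hN hκ0 hV
  have ha : 0 < lam / 4 := by
    have := hS.hlam
    positivity
  obtain ⟨Λ, ℓ, hC⟩ := exists_co hG.hD hG.hw1 L
  have hTd : DifferentiableOn ℂ (Ts G ℓ) (HP Λ) := Ts_diff hC hG.hG
  have hOP : OP (lam / 4) Λ (Ts G ℓ) := fun σ1 hσ1 b => opi hG hC ha hS.hVG hσ1 b
  have hrel : ∀ z ∈ HP Λ, Ts G ℓ (z + per N + per N) - Ts G ℓ (z + per N) =
      (conj κ)⁻¹ * (Ts G ℓ (z + per N) - Ts G ℓ z) + (conj κ)⁻¹ * conj c :=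
    fun z hz => ts_rel hC hκ0 hV hz
  have hκ' : (conj κ)⁻¹ ≠ 0 := inv_ne_zero ((map_ne_zero _).2 hκ0)
  have hκe : ∀ n : ℕ, ((conj κ)⁻¹) ^ n = 1 ↔ κ ^ n = 1 := by
    intro n
    rw [inv_pow, inv_eq_one, ← map_pow, map_eq_one_iff _ (starRingEnd ℂ).injective]
  have hκ1' : (conj κ)⁻¹ = 1 ↔ κ = 1 := by
    have := hκe 1
    rwa [pow_one, pow_one] at this
  generalize (conj κ)⁻¹ = κ' at hrel hκ' hκe hκ1'
  by_cases hir : κ' = 1 ∨ ∀ n : ℕ, 0 < n → κ' ^ n ≠ 1
  · obtain ⟨Δ, hΔ⟩ := core ha hOP hTd hN hκ' hir hrel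
    rcases add_case hS hG hB hC hwB hN hΔ with h | h
    · exact Or.inl h
    · exact Or.inr ⟨N, fun _ => le_rfl, h⟩
  · push Not at hir
    obtain ⟨hne, m, hm, hm1⟩ := hir
    have hs : 1 - κ' ≠ 0 := sub_ne_zero.2 (Ne.symm hne)
    obtain ⟨b0, hb0⟩ : ∃ b0, b0 = κ' * conj c / (1 - κ') := ⟨_, rfl⟩
    have hb1 : b0 * (1 - κ') = κ' * conj c := by rw [hb0, div_mul_cancel₀ _ hs]
    have hVit : ∀ j : ℕ, ∀ z ∈ HP Λ, Ts G ℓ (z + per (N * j) + per N) - Ts G ℓ (z + per (N * j)) -
        b0 = κ' ^ j * (Ts G ℓ (z + per N) - Ts G ℓ z - b0) := by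
      intro j
      induction j with
      | zero =>
        intro z _
        rw [Nat.mul_zero, pow_zero, one_mul]
        have e : z + per 0 = z := by unfold per; simp
        rw [e]
      | succ j ih =>
        intro z hz
        have e2 : z + per (N * (j + 1)) = z + per (N * j) + per N := by
          rw [Nat.mul_succ, per_add]
          ring
        rw [e2, hrel _ (HP_per hz _), pow_succ]
        linear_combination κ' * ih z hz - hb1
    have hit : ∀ j : ℕ, ∀ z ∈ HP Λ, (Ts G ℓ (z + per (N * j)) - Ts G ℓ z - j * b0) * (κ' - 1) =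
        (κ' ^ j - 1) * (Ts G ℓ (z + per N) - Ts G ℓ z - b0) := by
      intro j
      induction j with
      | zero =>
        intro z _
        have e : z + per (N * 0) = z := by rw [Nat.mul_zero]; unfold per; simp
        rw [e]
        simp
      | succ j ih =>
        intro z hz
        have e2 : z + per (N * (j + 1)) = z + per (N * j) + per N := by
          rw [Nat.mul_succ, per_add]
          ring
        rw [e2, pow_succ]
        push_cast
        linear_combination ih z hz + (κ' - 1) * hVit j z hz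
    have hTm : ∀ z ∈ HP Λ, Ts G ℓ (z + per (N * m)) = Ts G ℓ z + m * b0 := by
      intro z hz
      have h1 := hit m z hz
      rw [hm1, sub_self, zero_mul] at h1
      have h2 := (mul_eq_zero.1 h1).resolve_right (sub_ne_zero.2 hne)
      linear_combination h2
    rcases add_case hS hG hB hC hwB (Nat.mul_pos hN hm) hTm with h | h
    · exact Or.inl h
    · refine Or.inr ⟨N * m, fun h1 => ?_, h⟩
      exact absurd (hκ1'.2 h1) hne

end Pool.Agent.Helper6.SG
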