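import Pool.Agent.Helper6.SG.Stm

set_option autoImplicit false

open Complex MeasureTheory Metric Set Filter Topology

namespace Pool.Agent.Helper6.SG.PK

theorem lt_of_ne {z p : ℂ} (h : ‖z‖ ≤ ‖p‖) (hne : z ≠ p) : ‖z + p‖ < 2 * ‖p‖ := by
  rcases h.lt_or_eq with h1 | h1
  · have := norm_add_le z p
    linarith
  · have h2 := norm_add_lt_of_not_sameRay ((not_sameRay_iff_of_norm_eq h1).2 hne)
    linarith

theorem main : S_PK := by
  intro Ψ u p hΨ hu hp hle hvol
  have hp0 : 0 < ‖2 * p‖ := norm_pos_iff.2 (mul_ne_zero two_ne_zero hp)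
  have h2p : ‖2 * p‖ = 2 * ‖p‖ := by
    rw [norm_mul]
    norm_num
  have h1 : Tendsto (fun N : ℕ => ∫ t in (0 : ℝ)..1, Ψ t * ((u t + p) / (2 * p)) ^ N) atTop
      (𝓝 (∫ _t in (0 : ℝ)..1, (0 : ℂ))) := by
    refine intervalIntegral.tendsto_integral_filter_of_dominated_convergence (fun t => ‖Ψ t‖)
      ?_ ?_ ?_ ?_
    · refine Eventually.of_forall fun N => ?_
      rw [uIoc_of_le zero_le_one]
      refine ContinuousOn.aestronglyMeasurable (ContinuousOn.mono ?_ Ioc_subset_Icc_self)
        measurableSet_Ioc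
      exact hΨ.mul (((hu.add continuousOn_const).div_const _).pow N)
    · refine Eventually.of_forall fun N => Eventually.of_forall fun t ht => ?_
      rw [uIoc_of_le zero_le_one] at ht
      have h2 := hle t (Ioc_subset_Icc_self ht)
      rw [norm_mul, norm_pow]
      refine mul_le_of_le_one_right (norm_nonneg _) (pow_le_one₀ (norm_nonneg _) ?_)
      rw [norm_div, div_le_one hp0, h2p]
      have := norm_add_le (u t) p
      linarith
    · refine ContinuousOn.intervalIntegrable ?_
      rw [uIcc_of_le zero_le_one]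
      exact hΨ.norm
    · have h3 : ∀ᵐ t ∂(volume : Measure ℝ), ¬ (t ∈ Icc (0 : ℝ) 1 ∧ u t = p) := by
        rw [ae_iff]
        simp only [not_not]
        exact hvol
      filter_upwards [h3] with t ht htI
      rw [uIoc_of_le zero_le_one] at htI
      have hI := Ioc_subset_Icc_self htI
      have hne : u t ≠ p := fun h => ht ⟨hI, h⟩
      have h4 : ‖(u t + p) / (2 * p)‖ < 1 := by
        rw [norm_div, div_lt_one hp0, h2p]
        exact lt_of_ne (hle t hI) hne
      have h5 := (tendsto_pow_atTop_nhds_zero_of_norm_lt_one h4).const_mul (Ψ t)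
      rwa [mul_zero] at h5
  simpa using h1

end Pool.Agent.Helper6.SG.PK
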