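import Pool.Agent.Helper6.SG.Ind
import Pool.Agent.Helper6.SG.PK
import Pool.Agent.Helper6.SG.KF

/-!
# Linear families: the parameter is constant, or the function is periodic
-/

set_option autoImplicit false

open Complex MeasureTheory Metric Set Filter Topology

namespace Pool.Agent.Helper6.SG

open Pool.Agent.E8helper32.SA (per per_re)
open Pool.Agent.E8helper32.SQ (Kf HP HP_open HP_conv)
open Pool.Agent.Helper6.SF (zeros_countable HP_per iter_per)

variable {a Λ : ℝ} {T U f g F K1 : ℂ → ℂ} {σ : ℂ} {p : ℂ}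

/-- the data of the kernel -/
structure KD (a : ℝ) (K1 : ℂ → ℂ) : Prop where
  ha : 0 < a
  hd : Differentiable ℂ K1
  hK : ∀ y, HasDerivAt (Kf a) (K1 y) y
  hy : ∀ y, HasDerivAt (fun y => y * K1 y) (-(a : ℂ) * Kf a y) y
  h0 : Kf a 0 = -(a : ℂ)
  h1 : K1 0 ≠ 0

theorem KD.kc (hk : KD a K1) : Continuous (Kf a) :=
  continuous_iff_continuousAt.2 fun y => (hk.hK y).continuousAt

theorem KD.kne (hk : KD a K1) : Kf a 0 ≠ 0 := by
  rw [hk.h0, neg_ne_zero]
  exact_mod_cast hk.ha.ne'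

theorem KD.ane (hk : KD a K1) : -(a : ℂ) ≠ 0 := by
  rw [neg_ne_zero]
  exact_mod_cast hk.ha.ne'

/-- linearity -/
theorem jj_lin (hF : Continuous F) (hg : ContinuousOn g (HP Λ)) {f1 f2 : ℂ → ℂ}
    (h1 : ContinuousOn f1 (HP Λ)) (h2 : ContinuousOn f2 (HP Λ)) (α β : ℂ) (hσ : σ ∈ HP Λ) :
    JJ F g (fun z => α * f1 z + β * f2 z) σ = α * JJ F g f1 σ + β * JJ F g f2 σ := by
  have dE : Continuous fun t : ℝ => exp (ln σ t) := (ln_cont2 σ).cexp
  have dg := comp_ln2 hg hσ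
  have d1 := comp_ln2 h1 hσ
  have d2 := comp_ln2 h2 hσ
  have dF : Continuous fun t : ℝ => F ((exp (ln σ t) - exp σ) * g (ln σ t)) :=
    hF.comp ((dE.sub continuous_const).mul dg)
  have i1 : IntervalIntegrable (fun t : ℝ => F ((exp (ln σ t) - exp σ) * g (ln σ t)) *
      f1 (ln σ t) * (exp (ln σ t) * (2 * Real.pi * I))) volume 0 1 :=
    ((dF.mul d1).mul (dE.mul continuous_const)).intervalIntegrable _ _
  have i2 : IntervalIntegrable (fun t : ℝ => F ((exp (ln σ t) - exp σ) * g (ln σ t)) *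
      f2 (ln σ t) * (exp (ln σ t) * (2 * Real.pi * I))) volume 0 1 :=
    ((dF.mul d2).mul (dE.mul continuous_const)).intervalIntegrable _ _
  unfold JJ
  rw [← intervalIntegral.integral_const_mul, ← intervalIntegral.integral_const_mul,
    ← intervalIntegral.integral_add (i1.const_mul α) (i2.const_mul β)]
  refine intervalIntegral.integral_congr fun t _ => ?_
  ring

/-- all the integrals with the factor `f` vanish -/
def Zf (a Λ : ℝ) (T U f : ℂ → ℂ) : Prop :=
  ∀ s : ℂ, ∀ σ ∈ HP Λ, JJ (Kf a) (fun z => T z + s * U z) f σ = 0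

theorem Zf.level (hk : KD a K1) (hT : DifferentiableOn ℂ T (HP Λ))
    (hU : DifferentiableOn ℂ U (HP Λ)) (hf : DifferentiableOn ℂ f (HP Λ)) (h : Zf a Λ T U f)
    (s : ℂ) (hσ : σ ∈ HP Λ) : Kf a 0 * (f (σ + 2 * Real.pi * I) - f σ) =
      JJ K1 (fun z => T z + s * U z) (fun z => (T z + s * U z) * f z) σ :=
  jj_level KF.par hk.hK hk.hd.continuous (hT.add (hU.const_mul s)) hf (h s) hσ

theorem Zf.level0 (hk : KD a K1) (hT : DifferentiableOn ℂ T (HP Λ))
    (hU : DifferentiableOn ℂ U (HP Λ)) (hf : DifferentiableOn ℂ f (HP Λ)) (h : Zf a Λ T U f)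
    (hσ : σ ∈ HP Λ) : Kf a 0 * (f (σ + 2 * Real.pi * I) - f σ) =
      JJ K1 T (fun z => T z * f z) σ := by
  have h1 := h.level hk hT hU hf 0 hσ
  simp only [zero_mul, add_zero] at h1
  exact h1

theorem Zf.mul (hk : KD a K1) (hT : DifferentiableOn ℂ T (HP Λ))
    (hU : DifferentiableOn ℂ U (HP Λ)) (hf : DifferentiableOn ℂ f (HP Λ)) (h : Zf a Λ T U f) :
    Zf a Λ T U (fun z => U z * f z) := by
  intro s σ hσ
  have h1 := jj_param KF.par hk.hd hk.hy hk.kc hT hU hf hσ s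
  have h2 : HasDerivAt (fun s => JJ K1 (fun z => T z + s * U z)
      (fun z => (T z + s * U z) * f z) σ) 0 s := by
    have h3 : (fun s => JJ K1 (fun z => T z + s * U z) (fun z => (T z + s * U z) * f z) σ) =
        fun _ => Kf a 0 * (f (σ + 2 * Real.pi * I) - f σ) :=
      funext fun s => (h.level hk hT hU hf s hσ).symm
    rw [h3]
    exact hasDerivAt_const s _
  exact (mul_eq_zero.1 (h1.unique h2)).resolve_left hk.ane

/-- the concentrating functions -/
noncomputable def pn (U : ℂ → ℂ) (p : ℂ) (N : ℕ) (z : ℂ) : ℂ := ((U z + p) / (2 * p)) ^ N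

theorem pn_diff (hU : DifferentiableOn ℂ U (HP Λ)) (p : ℂ) (N : ℕ) :
    DifferentiableOn ℂ (pn U p N) (HP Λ) := by
  unfold pn
  exact ((hU.add_const p).div_const _).pow N

theorem Zf.pn (hk : KD a K1) (hT : DifferentiableOn ℂ T (HP Λ))
    (hU : DifferentiableOn ℂ U (HP Λ)) (h : Zf a Λ T U fun _ => 1) (hp : p ≠ 0) (N : ℕ) :
    Zf a Λ T U (pn U p N) := by
  induction N with
  | zero =>
    have e : SG.pn U p 0 = fun _ => 1 := by
      funext z
      unfold SG.pn
      rw [pow_zero]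
    rw [e]
    exact h
  | succ N ih =>
    intro s σ hσ
    have e : SG.pn U p (N + 1) = fun z => 1 / (2 * p) * (U z * SG.pn U p N z) +
        1 / 2 * SG.pn U p N z := by
      funext z
      unfold SG.pn
      rw [pow_succ]
      field_simp
    have hpd := pn_diff hU p N
    have c1 : ContinuousOn (fun z => T z + s * U z) (HP Λ) :=
      (hT.add (hU.const_mul s)).continuousOn
    have c2 : ContinuousOn (fun z => U z * SG.pn U p N z) (HP Λ) := (hU.mul hpd).continuousOn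
    have h1 := jj_lin (F := Kf a) hk.kc c1 c2 hpd.continuousOn (1 / (2 * p)) (1 / 2) hσ
    rw [e, h1, ih.mul hk hT hU hpd s σ hσ, ih s σ hσ, mul_zero, mul_zero, add_zero]

/-- the integrals with the concentrating functions tend to `0` -/
theorem jj_pn (hF : Continuous F) (hg : ContinuousOn g (HP Λ)) (hf : ContinuousOn f (HP Λ))
    (hU : ContinuousOn U (HP Λ)) (hσ : σ ∈ HP Λ) (hp : p ≠ 0)
    (hle : ∀ t ∈ Icc (0 : ℝ) 1, ‖U (ln σ t)‖ ≤ ‖p‖)
    (hnull : volume {t | t ∈ Icc (0 : ℝ) 1 ∧ U (ln σ t) = p} = 0) :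
    Tendsto (fun N : ℕ => JJ F g (fun z => f z * pn U p N z) σ) atTop (𝓝 0) := by
  have dE : Continuous fun t : ℝ => exp (ln σ t) := (ln_cont2 σ).cexp
  have dg := comp_ln2 hg hσ
  have df := comp_ln2 hf hσ
  have dU := comp_ln2 hU hσ
  have dF : Continuous fun t : ℝ => F ((exp (ln σ t) - exp σ) * g (ln σ t)) :=
    hF.comp ((dE.sub continuous_const).mul dg)
  have hΨ : Continuous fun t : ℝ => F ((exp (ln σ t) - exp σ) * g (ln σ t)) *
      f (ln σ t) * (exp (ln σ t) * (2 * Real.pi * I)) :=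
    (dF.mul df).mul (dE.mul continuous_const)
  refine (PK.main _ (fun t => U (ln σ t)) p hΨ.continuousOn dU.continuousOn hp hle
    hnull).congr fun N => ?_
  unfold JJ pn
  refine intervalIntegral.integral_congr fun t _ => ?_
  ring

theorem pn_self (hp : p ≠ 0) {z : ℂ} (hz : U z = p) (N : ℕ) : pn U p N z = 1 := by
  unfold pn
  rw [hz, ← two_mul, div_self (mul_ne_zero two_ne_zero hp), one_pow]

theorem pn_lim (hp : p ≠ 0) {z : ℂ} (hz : U z ≠ p) (hle : ‖U z‖ ≤ ‖p‖) :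
    Tendsto (fun N => pn U p N z) atTop (𝓝 0) := by
  unfold pn
  refine tendsto_pow_atTop_nhds_zero_of_norm_lt_one ?_
  have h2p : ‖2 * p‖ = 2 * ‖p‖ := by
    rw [norm_mul]
    norm_num
  rw [norm_div, div_lt_one (norm_pos_iff.2 (mul_ne_zero two_ne_zero hp)), h2p]
  exact PK.lt_of_ne hle hz

/-- the first level -/
theorem peak1 (hk : KD a K1) (hT : DifferentiableOn ℂ T (HP Λ))
    (hU : DifferentiableOn ℂ U (HP Λ)) (h : Zf a Λ T U fun _ => 1) (hσ : σ ∈ HP Λ) (hp : p ≠ 0)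
    (hle : ∀ t ∈ Icc (0 : ℝ) 1, ‖U (ln σ t)‖ ≤ ‖p‖)
    (hnull : volume {t | t ∈ Icc (0 : ℝ) 1 ∧ U (ln σ t) = p} = 0) :
    U σ = p ↔ U (σ + 2 * Real.pi * I) = p := by
  have h1 : Tendsto (fun N : ℕ => pn U p N (σ + 2 * Real.pi * I) - pn U p N σ) atTop (𝓝 0) := by
    have h2 := (jj_pn hk.hd.continuous hT.continuousOn hT.continuousOn hU.continuousOn hσ hp hle
      hnull).const_mul (Kf a 0)⁻¹
    rw [mul_zero] at h2
    refine h2.congr fun N => ?_
    rw [← (h.pn hk hT hU hp N).level0 hk hT hU (pn_diff hU p N) hσ,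
      inv_mul_cancel_left₀ hk.kne]
  have l0 : ‖U σ‖ ≤ ‖p‖ := by
    have := hle 0 ⟨le_rfl, zero_le_one⟩
    rwa [ln_zero] at this
  have l1 : ‖U (σ + 2 * Real.pi * I)‖ ≤ ‖p‖ := by
    have := hle 1 ⟨zero_le_one, le_rfl⟩
    rwa [ln_one] at this
  constructor
  · intro h2
    by_contra h3
    have h4 := (pn_lim hp h3 l1).sub (tendsto_const_nhds (x := (1 : ℂ)))
    have h5 := tendsto_nhds_unique (h4.congr fun N => by
      rw [← pn_self hp h2 N]) h1
    norm_num at h5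
  · intro h2
    by_contra h3
    have h4 := (tendsto_const_nhds (x := (1 : ℂ))).sub (pn_lim hp h3 l0)
    have h5 := tendsto_nhds_unique (h4.congr fun N => by
      rw [← pn_self hp h2 N]) h1
    norm_num at h5

/-- the second level -/
theorem peak2 (hk : KD a K1) (hT : DifferentiableOn ℂ T (HP Λ))
    (hU : DifferentiableOn ℂ U (HP Λ)) (h : Zf a Λ T U fun _ => 1)
    (hper : ∀ z ∈ HP Λ, U (z + 2 * Real.pi * I) = U z) (hσ : σ ∈ HP Λ) (hp : p ≠ 0)
    (hle : ∀ t ∈ Icc (0 : ℝ) 1, ‖U (ln σ t)‖ ≤ ‖p‖)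
    (hnull : volume {t | t ∈ Icc (0 : ℝ) 1 ∧ U (ln σ t) = p} = 0) (hσp : U σ = p) :
    T (σ + 2 * Real.pi * I) = T σ := by
  have hpp : ∀ (N : ℕ), ∀ z ∈ HP Λ, pn U p N (z + 2 * Real.pi * I) = pn U p N z := by
    intro N z hz
    unfold pn
    rw [hper z hz]
  have hd2 : Continuous (deriv K1) := (hk.hd.contDiff (n := 1)).continuous_deriv le_rfl
  have h1 : ∀ N : ℕ, K1 0 * (T (σ + 2 * Real.pi * I) - T σ) =
      JJ (deriv K1) T (fun z => T z * T z * pn U p N z) σ := by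
    intro N
    have hpd := pn_diff hU p N
    have h2 : ∀ z ∈ HP Λ, JJ K1 T (fun z => T z * pn U p N z) z = 0 := by
      intro z hz
      rw [← (h.pn hk hT hU hp N).level0 hk hT hU hpd hz, hpp N z hz, sub_self, mul_zero]
    have h3 := jj_level KF.par (F := K1) (F' := deriv K1) (fun y => (hk.hd y).hasDerivAt) hd2 hT
      (hT.mul hpd) h2 hσ
    have e : (fun s => T s * (T s * pn U p N s)) = fun z => T z * T z * pn U p N z := by
      funext z
      ring
    simp only [Pi.mul_apply] at h3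
    rw [e] at h3
    rw [← h3, hpp N σ hσ, pn_self hp hσp, mul_one, mul_one]
  have h2 := jj_pn hd2 hT.continuousOn (hT.mul hT).continuousOn hU.continuousOn hσ hp hle hnull
  have h3 := tendsto_nhds_unique (tendsto_const_nhds.congr fun N => h1 N) h2
  exact sub_eq_zero.1 ((mul_eq_zero.1 h3).resolve_left hk.h1)

theorem ln_add (σ : ℂ) (s t : ℝ) : ln (ln σ s) t = ln σ (s + t) := by
  unfold ln
  push_cast
  ring

/-- unbounded upwards -/
theorem rec_up (hk : KD a K1) (hT : DifferentiableOn ℂ T (HP Λ))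
    (hU : DifferentiableOn ℂ U (HP Λ)) (h : Zf a Λ T U fun _ => 1) (hσ : σ ∈ HP Λ)
    (hub : ∀ M : ℝ, ∃ t : ℝ, 0 ≤ t ∧ M ≤ ‖U (ln σ t)‖) : False := by
  have dU := comp_ln2 hU.continuousOn hσ
  obtain ⟨M0, hM0⟩ := isCompact_Icc.exists_bound_of_continuousOn (s := Icc (0 : ℝ) 1)
    dU.continuousOn
  set M : ℝ := |M0| + 1 with hM
  have hMpos : 0 < M := by positivity
  set S : Set ℝ := {t | 0 ≤ t ∧ M ≤ ‖U (ln σ t)‖} with hS
  have hSc : IsClosed S := (isClosed_le continuous_const continuous_id).inter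
    (isClosed_le continuous_const dU.norm)
  have hSn : S.Nonempty := by
    obtain ⟨t, h1, h2⟩ := hub M
    exact ⟨t, h1, h2⟩
  have hSb : BddBelow S := ⟨0, fun t ht => ht.1⟩
  obtain ⟨ht0, htM⟩ := hSc.csInf_mem hSn hSb
  have hlt : ∀ t : ℝ, 0 ≤ t → t < sInf S → ‖U (ln σ t)‖ < M := by
    intro t h1 h2
    by_contra h3
    push Not at h3
    exact absurd (csInf_le hSb (show t ∈ S from ⟨h1, h3⟩)) (not_le.2 h2)
  generalize sInf S = ts at ht0 htM hlt
  have hts : 1 < ts := by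
    by_contra h1
    push Not at h1
    have h2 := hM0 ts ⟨ht0, h1⟩
    have := le_abs_self M0
    linarith
  have hpn : U (ln σ ts) ≠ 0 := by
    intro h1
    rw [h1, norm_zero] at htM
    linarith
  have hseg : ∀ t ∈ Icc (0 : ℝ) 1, t < 1 → ‖U (ln (ln σ (ts - 1)) t)‖ < M := by
    intro t ht h1
    rw [ln_add]
    exact hlt _ (by linarith [ht.1]) (by linarith)
  have e1 : ln (ln σ (ts - 1)) 1 = ln σ ts := by rw [ln_add, sub_add_cancel]
  have h1 := peak1 hk hT hU h (ln_mem hσ (ts - 1)) hpn (fun t ht => by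
    rcases ht.2.lt_or_eq with h2 | h2
    · exact (hseg t ht h2).le.trans htM
    · rw [h2, e1]) (by
    refine measure_mono_null (t := {(1 : ℝ)}) ?_ (Real.volume_singleton)
    rintro t ⟨ht, h2⟩
    by_contra h3
    have h4 := hseg t ht (lt_of_le_of_ne ht.2 h3)
    rw [h2] at h4
    linarith)
  have h2 := h1.2 (by rw [← ln_one, e1])
  have h3 := hseg 0 ⟨le_rfl, zero_le_one⟩ one_pos
  rw [ln_zero, h2] at h3
  linarith

/-- unbounded downwards -/
theorem rec_down (hk : KD a K1) (hT : DifferentiableOn ℂ T (HP Λ))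
    (hU : DifferentiableOn ℂ U (HP Λ)) (h : Zf a Λ T U fun _ => 1) (hσ : σ ∈ HP Λ)
    (hub : ∀ M : ℝ, ∃ t : ℝ, 0 ≤ t ∧ M ≤ ‖U (ln σ (-t))‖) : False := by
  have dU := comp_ln2 hU.continuousOn hσ
  have dU' : Continuous fun t : ℝ => U (ln σ (-t)) := dU.comp continuous_neg
  obtain ⟨M0, hM0⟩ := isCompact_Icc.exists_bound_of_continuousOn (s := Icc (0 : ℝ) 1)
    dU'.continuousOn
  set M : ℝ := |M0| + 1 with hM
  have hMpos : 0 < M := by positivity
  set S : Set ℝ := {t | 0 ≤ t ∧ M ≤ ‖U (ln σ (-t))‖} with hS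
  have hSc : IsClosed S := (isClosed_le continuous_const continuous_id).inter
    (isClosed_le continuous_const dU'.norm)
  have hSn : S.Nonempty := by
    obtain ⟨t, h1, h2⟩ := hub M
    exact ⟨t, h1, h2⟩
  have hSb : BddBelow S := ⟨0, fun t ht => ht.1⟩
  obtain ⟨ht0, htM⟩ := hSc.csInf_mem hSn hSb
  have hlt : ∀ t : ℝ, 0 ≤ t → t < sInf S → ‖U (ln σ (-t))‖ < M := by
    intro t h1 h2
    by_contra h3
    push Not at h3
    exact absurd (csInf_le hSb (show t ∈ S from ⟨h1, h3⟩)) (not_le.2 h2)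
  generalize sInf S = ts at ht0 htM hlt
  have hts : 1 < ts := by
    by_contra h1
    push Not at h1
    have h2 := hM0 ts ⟨ht0, h1⟩
    have := le_abs_self M0
    linarith
  have hpn : U (ln σ (-ts)) ≠ 0 := by
    intro h1
    rw [h1, norm_zero] at htM
    linarith
  have hseg : ∀ t ∈ Icc (0 : ℝ) 1, 0 < t → ‖U (ln (ln σ (-ts)) t)‖ < M := by
    intro t ht h1
    have e : -ts + t = -(ts - t) := by ring
    rw [ln_add, e]
    exact hlt _ (by linarith [ht.2]) (by linarith)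
  have h1 := peak1 hk hT hU h (ln_mem hσ (-ts)) hpn (fun t ht => by
    rcases ht.1.lt_or_eq with h2 | h2
    · exact (hseg t ht h2).le.trans htM
    · rw [← h2, ln_zero]) (by
    refine measure_mono_null (t := {(0 : ℝ)}) ?_ (Real.volume_singleton)
    rintro t ⟨ht, h2⟩
    by_contra h3
    have h4 := hseg t ht (lt_of_le_of_ne ht.1 (Ne.symm h3))
    rw [h2] at h4
    linarith)
  have h2 := h1.1 rfl
  have h3 := hseg 1 ⟨zero_le_one, le_rfl⟩ one_pos
  rw [ln_one, h2] at h3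
  linarith

end Pool.Agent.Helper6.SG
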