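import Pool.Agent.Helper6.SF.Fin
import Pool.Graph.R_pool_sql_team_seeded_b677cdb8.E8helper36.SQ.Icc

/-!
# Statements of the modules: linear families of branches
-/

set_option autoImplicit false

open Complex MeasureTheory Metric Set Filter Topology ComplexConjugate

namespace Pool.Agent.Helper6.SG

open Pool.Agent.Results.MP_83fd13_an.BranchSingularities
open Pool.Agent.Y245.UC (Rf VG)
open Pool.Agent.E8helper32.SA (per)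
open Pool.Agent.E8helper32.SL
open Pool.Agent.E8helper32.SQ (Kf HP)
open Pool.Agent.Helper6.SF (Ev Ev' BCusp)

/-- ORD: an entire function of order `1/2` which vanishes at all natural numbers is zero -/
def S_ORD : Prop := ∀ (H : ℂ → ℂ) (C c : ℝ), Differentiable ℂ H → 0 ≤ C → 0 ≤ c →
  (∀ s, ‖H s‖ ≤ C * Real.exp (c * Real.sqrt (1 + ‖s‖))) → (∀ n : ℕ, H n = 0) → ∀ s, H s = 0

/-- KF: the derivatives and the growth of the kernel `Kf a y = ∑ (-a)^(l+1) y^l / (l!)^2` -/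
def S_KF : Prop := ∀ a : ℝ, 0 < a → ∃ (K1 : ℂ → ℂ) (C c : ℝ), 0 ≤ C ∧ 0 ≤ c ∧ Differentiable ℂ K1 ∧
  (∀ y, HasDerivAt (Kf a) (K1 y) y) ∧
  (∀ y, HasDerivAt (fun y => y * K1 y) (-(a : ℂ) * Kf a y) y) ∧
  Kf a 0 = -(a : ℂ) ∧ K1 0 ≠ 0 ∧ ∀ y, ‖Kf a y‖ ≤ C * Real.exp (c * Real.sqrt ‖y‖)

/-- PAR: differentiation under the integral sign -/
def S_PAR : Prop := ∀ (V : Set ℂ) (F F' : ℂ → ℝ → ℂ), IsOpen V →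
  ContinuousOn (fun p : ℂ × ℝ => F p.1 p.2) (V ×ˢ Icc 0 1) →
  ContinuousOn (fun p : ℂ × ℝ => F' p.1 p.2) (V ×ˢ Icc 0 1) →
  (∀ v ∈ V, ∀ t ∈ Icc (0 : ℝ) 1, HasDerivAt (fun v => F v t) (F' v t) v) →
  ∀ v ∈ V, HasDerivAt (fun v => ∫ t in (0 : ℝ)..1, F v t) (∫ t in (0 : ℝ)..1, F' v t) v

/-- PK: concentration at the points where the value is `p` (dominated convergence;
`‖(z + p) / (2p)‖ < 1` if `‖z‖ ≤ ‖p‖`, `z ≠ p`) -/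
def S_PK : Prop := ∀ (Ψ u : ℝ → ℂ) (p : ℂ), ContinuousOn Ψ (Icc 0 1) → ContinuousOn u (Icc 0 1) →
  p ≠ 0 → (∀ t ∈ Icc (0 : ℝ) 1, ‖u t‖ ≤ ‖p‖) → volume {t | t ∈ Icc (0 : ℝ) 1 ∧ u t = p} = 0 →
  Tendsto (fun N : ℕ => ∫ t in (0 : ℝ)..1, Ψ t * ((u t + p) / (2 * p)) ^ N) atTop (𝓝 0)

/-- the linear operators `g^(n)`, `g' - h g`, `g'' - h g'` -/
noncomputable def Xo (i : Fin 3) (n : ℕ) (h g : ℂ → ℂ) (w : ℂ) : ℂ :=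
  ![iteratedDeriv n g w, deriv g w - h w * g w, deriv (deriv g) w - h w * deriv g w] i

/-- SOL: solutions of `X E = k` in a disc -/
def S_SOL : Prop := ∀ (i : Fin 3) (n : ℕ) (h k : ℂ → ℂ) (y : ℂ) (δ : ℝ) (z : ℂ) (g : ℂ → ℂ),
  DifferentiableOn ℂ h (ball y δ) → DifferentiableOn ℂ k (ball y δ) → z ∈ ball y δ →
  AnalyticAt ℂ g z → Xo i n h g =ᶠ[𝓝 z] k →
  ∃ E : ℂ → ℂ, DifferentiableOn ℂ E (ball y δ) ∧ E =ᶠ[𝓝 z] g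

/-- MON: the monodromy of the solutions of `X v = 0` around an isolated singularity; `V` is a
solution in the coordinate `w = x + exp τ`. (For `i = 0` it is a polynomial in `w`. For `i = 1`
`V'(τ + 2πi) V(τ) = V'(τ) V(τ + 2πi)` by the identity theorem, first where `x + exp τ ∈ U`; for
`i = 2` the same for `V'`.) -/
def S_MON : Prop := ∀ (i : Fin 3) (n : ℕ) (h : ℂ → ℂ) (x : ℂ) (L : ℝ) (U : Set ℂ) (V : ℂ → ℂ)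
  (τ0 : ℂ) (v : ℂ → ℂ), IsOpen U → (ball x (Real.exp L) \ U).Countable →
  DifferentiableOn ℂ h (ball x (Real.exp L) ∩ U) → DifferentiableOn ℂ V (HP L) → τ0 ∈ HP L →
  x + exp τ0 ∈ U → AnalyticAt ℂ v (x + exp τ0) → (V =ᶠ[𝓝 τ0] fun t => v (x + exp t)) →
  (∀ᶠ w in 𝓝 (x + exp τ0), Xo i n h v w = 0) →
  ∃ κ c : ℂ, κ ≠ 0 ∧ (i = 0 → κ = 1 ∧ c = 0) ∧ ∀ τ ∈ HP L, V (τ + per 1) = κ * V τ + c

/-- `X g` satisfies the relation near `z`, off the complement of `U` -/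
structure RX (i : Fin 3) (n : ℕ) (h : ℂ → ℂ) (U : Set ℂ) (d : ℕ) (c : ℕ → ℂ → ℂ) (z : ℂ)
    (g : ℂ → ℂ) : Prop where
  hd : ∀ᶠ w in 𝓝 z, DifferentiableAt ℂ g w
  hs : ∀ᶠ w in 𝓝 z, w ∈ U → Ev d c w (Xo i n h g w) = 0

/-- a point near which all branches with the relation extend -/
def GoodX (φ : ℂ → ℂ) (r : ℝ) (B : Set ℂ) (i : Fin 3) (n : ℕ) (h : ℂ → ℂ) (U : Set ℂ) (d : ℕ)
    (c : ℕ → ℂ → ℂ) (y : ℂ) : Prop :=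
  ∃ δ : ℝ, 0 < δ ∧ ball y δ ⊆ B ∧ ∀ z ∈ ball y δ, ∀ g : ℂ → ℂ, Branch φ r z g →
    RX i n h U d c z g → ∃ E : ℂ → ℂ, DifferentiableOn ℂ E (ball y δ) ∧ E =ᶠ[𝓝 z] g

/-- the data of a Schiffer domain -/
structure SData (φ : ℂ → ℂ) (r lam : ℝ) : Prop where
  hD : D0 φ r
  hlam : 0 < lam
  hBU : BranchesBlowUp φ r lam
  hNF : NoFiniteIsolatedSingularity φ r
  hVG : ∀ (z : ℂ) (f : ℂ → ℂ), Branch φ r z f → ∀ b, VG (lam / 4) φ b (1 / conj z) (Rf f)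

/-- PRP: propagation of the relation in discs (as `Rl.prop` in `SF/Rl.lean`, simpler) -/
def S_PRP : Prop := ∀ (i : Fin 3) (n : ℕ) (h : ℂ → ℂ) (U : Set ℂ) (d : ℕ) (c : ℕ → ℂ → ℂ)
  (c0 : ℂ) (ρ : ℝ) (E g : ℂ → ℂ) (z z' : ℂ), IsOpen U → (ball c0 ρ \ U).Countable →
  (∀ k ≤ d, DifferentiableOn ℂ (c k) (ball c0 ρ ∩ U)) →
  (i ≠ 0 → DifferentiableOn ℂ h (ball c0 ρ ∩ U)) →
  DifferentiableOn ℂ E (ball c0 ρ) → z ∈ ball c0 ρ → E =ᶠ[𝓝 z] g → RX i n h U d c z g →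
  z' ∈ ball c0 ρ → RX i n h U d c z' E

/-- REG: regular points (as `reg_ptR` in `SF/Rl.lean`, with SOL in place of `reg_pt`) -/
def S_REG : Prop := ∀ (φ : ℂ → ℂ) (r : ℝ) (B : Set ℂ) (i : Fin 3) (n : ℕ) (h : ℂ → ℂ)
  (U : Set ℂ) (d : ℕ) (c : ℕ → ℂ → ℂ) (y : ℂ), IsOpen B → IsOpen U →
  (∀ k ≤ d, DifferentiableOn ℂ (c k) (B ∩ U)) → (i ≠ 0 → DifferentiableOn ℂ h (B ∩ U)) →
  y ∈ B → y ∈ U → c d y ≠ 0 → (∀ x, Ev d c y x = 0 → Ev' d c y x ≠ 0) →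
  GoodX φ r B i n h U d c y

/-- LIN: the local theorem for linear families (mine) -/
def S_LIN : Prop := ∀ (φ : ℂ → ℂ) (r lam : ℝ) (w1 : ℂ) (L : ℝ) (G : ℂ → ℂ) (B : Set ℂ) (N : ℕ)
  (κ c : ℂ), SData φ r lam → P0 φ r w1 L G → (∀ w ∈ ball w1 (Real.exp L), 1 < ‖w‖) → w1 ∈ B →
  0 < N → κ ≠ 0 → (∀ τ ∈ HP L, G (τ + per N + per N) - G (τ + per N) =
    κ * (G (τ + per N) - G τ) + c) →
  (∃ E : ℂ → ℂ, DifferentiableOn ℂ E (ball w1 (Real.exp L)) ∧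
    ∀ τ : ℂ, τ.re < L → G τ = E (w1 + exp τ)) ∨ ∃ m : ℕ, (κ = 1 → m ≤ N) ∧ BCusp φ r lam m B

/-- ISO: isolated points (as `iso_ptR` in `SF/Glob.lean`, with MON and LIN: two of the branches
`gs 0, ..., gs d` have the same `X`, so for `N = j - i ≤ d` the difference
`V τ = G (τ + per N) - G τ` is as in MON, hence `V (τ + per N) = κ ^ N * V τ + c'`) -/
def S_ISOX : Prop := ∀ (φ : ℂ → ℂ) (r lam : ℝ) (B : Set ℂ) (i : Fin 3) (n : ℕ) (h : ℂ → ℂ)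
  (U : Set ℂ) (d : ℕ) (c : ℕ → ℂ → ℂ) (x : ℂ) (ε0 : ℝ), SData φ r lam →
  (∀ m : ℕ, (i = 0 → m ≤ d) → ¬ BCusp φ r lam m B) → IsOpen B → (∀ w ∈ B, 1 < ‖w‖) →
  IsOpen U → (B \ U).Countable →
  (∀ k ≤ d, DifferentiableOn ℂ (c k) (B ∩ U)) → (i ≠ 0 → DifferentiableOn ℂ h (B ∩ U)) →
  (∀ w ∈ B ∩ U, c d w ≠ 0) → x ∈ B → 0 < ε0 →
  (∀ w ∈ ball x ε0, w ≠ x → w ∈ B → GoodX φ r B i n h U d c w) → GoodX φ r B i n h U d c x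

/-- LOCX: the local theorem (as `loc_R` and `loc_A` in `SF/Glob.lean`) -/
def S_LOCX : Prop := ∀ (φ : ℂ → ℂ) (r lam : ℝ) (i : Fin 3) (n : ℕ) (h : ℂ → ℂ)
  (U : Set ℂ) (d : ℕ) (c : ℕ → ℂ → ℂ) (c0 : ℂ) (ρ : ℝ) (z : ℂ) (g : ℂ → ℂ), SData φ r lam →
  (∀ m : ℕ, (i = 0 → m ≤ d) → ¬ BCusp φ r lam m (ball c0 ρ)) → (∀ w ∈ ball c0 ρ, 1 < ‖w‖) →
  IsOpen U → (ball c0 ρ \ U).Countable →
  (∀ k ≤ d, DifferentiableOn ℂ (c k) (ball c0 ρ ∩ U)) →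
  (i ≠ 0 → DifferentiableOn ℂ h (ball c0 ρ ∩ U)) → (∃ w ∈ ball c0 ρ ∩ U, c d w ≠ 0) →
  z ∈ ball c0 ρ → Branch φ r z g → RX i n h U d c z g →
  ∃ E : ℂ → ℂ, DifferentiableOn ℂ E (ball c0 ρ) ∧ E =ᶠ[𝓝 z] g

/-- GLBX: the global theorem (as `glob_A` in `SF/Glob.lean`) -/
def S_GLBX : Prop := ∀ (φ : ℂ → ℂ) (r lam : ℝ) (i : Fin 3) (n : ℕ) (h : ℂ → ℂ)
  (U : Set ℂ) (d : ℕ) (c : ℕ → ℂ → ℂ) (z0 : ℂ), SData φ r lam →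
  (∀ m : ℕ, (i = 0 → m ≤ d) → ¬ BCusp φ r lam m {w : ℂ | 1 < ‖w‖}) →
  IsOpen U → ({w : ℂ | 1 < ‖w‖} \ U).Countable →
  (∀ k ≤ d, DifferentiableOn ℂ (c k) ({w : ℂ | 1 < ‖w‖} ∩ U)) →
  (i ≠ 0 → DifferentiableOn ℂ h ({w : ℂ | 1 < ‖w‖} ∩ U)) →
  (∃ w : ℂ, 1 < ‖w‖ ∧ w ∈ U ∧ c d w ≠ 0) → 1 < ‖z0‖ → ‖z0‖ < r → RX i n h U d c z0 φ →
  ∃ Φ : ℂ → ℂ, Differentiable ℂ Φ ∧ EqOn Φ φ (ball 0 r)

end Pool.Agent.Helper6.SG
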